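import Mathlib
import Pool.Agent.R470.AK.Lac3

/-! # Almost all sets of slopes: tools -/

set_option autoImplicit false

namespace Pool.Agent.Zk73.AK

open Finset
open Pool.Agent.R470.AK

/-- the bad parameters lie in a small finite set -/
lemma bad_card (n : ℕ) (Z : Finset ℚ) : ∃ F : Finset ℚ, F.card ≤ n * Z.card ^ (2 * n) ∧
    ∀ ν, ¬ Good n ν Z → ν ∈ F := by
  classical
  set W := (Fintype.piFinset fun _ : Fin n => Z) with hW
  let p : (Fin n → ℚ) × (Fin n → ℚ) → Polynomial ℚ := fun q =>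
    ∑ i : Fin n, Polynomial.C (q.1 i - q.2 i) * Polynomial.X ^ (i : ℕ)
  refine ⟨(W ×ˢ W).biUnion fun q => (p q).roots.toFinset, ?_, ?_⟩
  · refine (card_biUnion_le_card_mul _ _ n fun q _ => ?_).trans (le_of_eq ?_)
    · refine (Multiset.toFinset_card_le _).trans ((Polynomial.card_roots' _).trans ?_)
      refine Polynomial.natDegree_sum_le_of_forall_le _ _ fun i _ => ?_
      exact (Polynomial.natDegree_C_mul_X_pow_le _ _).trans i.2.le
    · rw [card_product, hW, Fintype.card_piFinset]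
      simp only [prod_const, card_univ, Fintype.card_fin]
      rw [two_mul, pow_add]
      ring
  · intro ν hν
    simp only [Good, Set.InjOn] at hν
    push Not at hν
    obtain ⟨z, hz, z', hz', he, hne⟩ := hν
    rw [mem_biUnion]
    refine ⟨(z, z'), mem_product.2 ⟨mem_coe.1 hz, mem_coe.1 hz'⟩, ?_⟩
    rw [Multiset.mem_toFinset, Polynomial.mem_roots]
    · simp only [Polynomial.IsRoot, p, Polynomial.eval_finsetSum,
        Polynomial.eval_mul, Polynomial.eval_C, Polynomial.eval_pow, Polynomial.eval_X]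
      have : (∑ i : Fin n, (z i - z' i) * ν ^ (i : ℕ)) =
          Pool.Agent.R470.AK.val n ν z - Pool.Agent.R470.AK.val n ν z' := by
        simp only [Pool.Agent.R470.AK.val, ← sum_sub_distrib]
        exact sum_congr rfl fun i _ => by ring
      rw [this, he, sub_self]
    · intro h0
      apply hne
      funext i
      have h1 : (p (z, z')).coeff (i : ℕ) = z i - z' i := by
        simp only [p, Polynomial.finsetSum_coeff, Polynomial.coeff_C_mul, Polynomial.coeff_X_pow]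
        rw [Finset.sum_eq_single i]
        · simp
        · intro j _ hj
          rw [if_neg, mul_zero]
          intro h
          exact hj (Fin.ext h.symm)
        · intro h
          exact absurd (mem_univ i) h
      rw [h0, Polynomial.coeff_zero] at h1
      linarith

lemma X_congr {n m : ℕ} {ν ν' : ℕ → ℚ} : ∀ k : ℕ, (∀ i < k, ν i = ν' i) →
    X n m ν k = X n m ν' k
  | 0, _ => rfl
  | k + 1, h => by
    show P n (ν k) (X n m ν k) = P n (ν' k) (X n m ν' k)
    rw [h k (Nat.lt_succ_self k), X_congr k fun i hi => h i (by omega)]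

lemma card_comb (c : ℚ) (Y Z : Finset ℚ) : (comb c Y Z).card ≤ Y.card * Z.card := card_image₂_le _ _ _

/-- the digit sets give points with few projections and many differences -/
lemma assemble2 {n m : ℕ} (hm : 0 < m) (t : ℚ) (ν : ℕ → ℚ)
    (h0 : (comb (-t) (X n m ν 0) (X n m ν 0)).card = m ^ 2)
    (hg : ∀ i, Good n (ν i) (comb (-t) (X n m ν i) (X n m ν i))) (k : ℕ) :
    ∃ A : Finset (ℤ × ℤ), A.Nonempty ∧ (proj (-1) A).card = (m ^ n ^ k) ^ 2 ∧
      (∀ r : ℚ, (proj r A).card ≤ (m ^ n ^ k) ^ 2) ∧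
      (projInf A).card ^ n ≤ ((2 * m) ^ n ^ k) ^ (n + 1) ∧
      ∀ r : ℚ, (r + 1 = t ∨ ∃ j < k, r + 1 = t + ν j) →
        (proj r A).card ^ n ≤ ((2 * m) ^ n ^ k) ^ (n + 1) := by
  classical
  set D := X n m ν k with hD
  set B : Finset (ℚ × ℚ) := (D ×ˢ D).image fun p => (p.1 + (1 - t) * p.2, p.2) with hB
  obtain ⟨A, hA0, hA1, hA2⟩ := int_points B
  have hDne : D.Nonempty := ⟨0, zero_mem_X hm ν k⟩
  have hBr : ∀ r : ℚ, (B.image fun p => p.1 + r * p.2) = comb (r + 1 - t) D D := by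
    intro r
    rw [hB, image_image]
    ext w
    rw [mem_comb, mem_image]
    constructor
    · rintro ⟨p, hp, rfl⟩
      rw [mem_product] at hp
      exact ⟨p.1, hp.1, p.2, hp.2, by simp only [Function.comp]; ring⟩
    · rintro ⟨x, hx, y, hy, rfl⟩
      exact ⟨(x, y), mem_product.2 ⟨hx, hy⟩, by simp only [Function.comp]; ring⟩
  have hsmall : D.card ^ n ≤ ((2 * m) ^ n ^ k) ^ (n + 1) := by
    have h1 : D.card ≤ (2 * m) ^ n ^ k :=
      (card_X_le n m ν k).trans (Nat.pow_le_pow_left (by omega) _)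
    refine (Nat.pow_le_pow_left h1 n).trans ?_
    exact Nat.pow_le_pow_right (Nat.pos_of_ne_zero (by positivity)) (Nat.le_succ n)
  refine ⟨A, hA0 ((hDne.product hDne).image _), ?_, ?_, ?_, ?_⟩
  · rw [hA1, hBr]
    have : (-1 : ℚ) + 1 - t = -t := by ring
    rw [this]
    exact card_target t ν k h0 fun i _ => hg i
  · intro r
    rw [hA1, hBr]
    refine (card_comb _ _ _).trans ?_
    rw [sq]
    exact Nat.mul_le_mul (card_X_le n m ν k) (card_X_le n m ν k)
  · rw [hA2]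
    refine (Nat.pow_le_pow_left (card_le_card ?_) n).trans hsmall
    intro w hw
    rw [mem_image] at hw
    obtain ⟨p, hp, rfl⟩ := hw
    rw [hB, mem_image] at hp
    obtain ⟨q, hq, rfl⟩ := hp
    exact (mem_product.1 hq).2
  · intro r hr
    rw [hA1, hBr]
    rcases hr with h | ⟨j, hj, h⟩
    · refine (Nat.pow_le_pow_left (card_le_card ?_) n).trans hsmall
      intro w hw
      obtain ⟨x, hx, y, _, rfl⟩ := mem_comb.1 hw
      have : r + 1 - t = 0 := by linarith
      rw [this, zero_mul, add_zero]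
      exact hx
    · have : r + 1 - t = ν j := by linarith
      rw [this]
      exact card_comb_le hm ν j k hj

/-- the product of two sets of points -/
lemma pair (A B : Finset (ℤ × ℤ)) : ∃ A' : Finset (ℤ × ℤ),
    (A.Nonempty → B.Nonempty → A'.Nonempty) ∧
    (proj (-1) A').card = (proj (-1) A).card * (proj (-1) B).card ∧
    (∀ r : ℚ, (proj r A').card ≤ (proj r A).card * (proj r B).card) ∧
    (projInf A').card ≤ (projInf A).card * (projInf B).card := by
  classical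
  set L : ℤ := 1 + ∑ p ∈ A, 2 * |p.1 - p.2| with hL
  have hLp : ∀ p ∈ A, 2 * |p.1 - p.2| < L := by
    intro p hp
    have := single_le_sum (f := fun p : ℤ × ℤ => 2 * |p.1 - p.2|) (fun i _ => by positivity) hp
    rw [hL]
    linarith
  set A' : Finset (ℤ × ℤ) := image₂ (fun p q => (p.1 + L * q.1, p.2 + L * q.2)) A B with hA'
  have hr : ∀ r : ℚ, proj r A' = image₂ (fun x y => x + (L : ℚ) * y) (proj r A) (proj r B) := by
    intro r
    ext w
    simp only [proj, hA', mem_image, mem_image₂]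
    constructor
    · rintro ⟨_, ⟨p, hp, q, hq, rfl⟩, rfl⟩
      exact ⟨_, ⟨p, hp, rfl⟩, _, ⟨q, hq, rfl⟩, by push_cast; ring⟩
    · rintro ⟨_, ⟨p, hp, rfl⟩, _, ⟨q, hq, rfl⟩, rfl⟩
      exact ⟨_, ⟨p, hp, q, hq, rfl⟩, by push_cast; ring⟩
  refine ⟨A', fun h1 h2 => h1.image₂ h2, ?_, ?_, ?_⟩
  · rw [hr, card_image₂_iff]
    rintro ⟨x, y⟩ h1 ⟨x', y'⟩ h2 h
    obtain ⟨hx, hy⟩ := h1
    obtain ⟨hx', hy'⟩ := h2
    obtain ⟨p, hp, rfl⟩ := mem_image.1 hx
    obtain ⟨q, hq, rfl⟩ := mem_image.1 hy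
    obtain ⟨p', hp', rfl⟩ := mem_image.1 hx'
    obtain ⟨q', hq', rfl⟩ := mem_image.1 hy'
    have e : (p.1 - p.2) - (p'.1 - p'.2) = L * ((q'.1 - q'.2) - (q.1 - q.2)) := by
      have : (((p.1 - p.2) - (p'.1 - p'.2) : ℤ) : ℚ) =
          ((L * ((q'.1 - q'.2) - (q.1 - q.2)) : ℤ) : ℚ) := by
        push_cast
        linarith
      exact_mod_cast this
    have h3 : |(p.1 - p.2) - (p'.1 - p'.2)| < L := by
      have h4 := hLp p hp
      have h5 := hLp p' hp'
      have h6 := abs_sub (p.1 - p.2) (p'.1 - p'.2)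
      linarith
    have h4 : (p.1 - p.2) - (p'.1 - p'.2) = 0 := by
      refine Int.eq_zero_of_abs_lt_dvd ⟨_, e⟩ h3
    have h5 : (q'.1 - q'.2) - (q.1 - q.2) = 0 := by
      rw [h4] at e
      rcases mul_eq_zero.1 e.symm with h | h
      · have : 0 ≤ |(p.1 - p.2) - (p'.1 - p'.2)| := abs_nonneg _
        omega
      · exact h
    have e1 : (p.1 : ℚ) + -1 * p.2 = p'.1 + -1 * p'.2 := by
      have : ((p.1 - p.2 : ℤ) : ℚ) = ((p'.1 - p'.2 : ℤ) : ℚ) := by
        rw [show p.1 - p.2 = p'.1 - p'.2 by omega]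
      push_cast at this
      linarith
    have e2 : (q.1 : ℚ) + -1 * q.2 = q'.1 + -1 * q'.2 := by
      have : ((q.1 - q.2 : ℤ) : ℚ) = ((q'.1 - q'.2 : ℤ) : ℚ) := by
        rw [show q.1 - q.2 = q'.1 - q'.2 by omega]
      push_cast at this
      linarith
    rw [e1, e2]
  · intro r
    rw [hr]
    exact card_image₂_le _ _ _
  · have : projInf A' = image₂ (fun x y => x + (L : ℚ) * y) (projInf A) (projInf B) := by
      ext w
      simp only [projInf, hA', mem_image, mem_image₂]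
      constructor
      · rintro ⟨_, ⟨p, hp, q, hq, rfl⟩, rfl⟩
        exact ⟨_, ⟨p, hp, rfl⟩, _, ⟨q, hq, rfl⟩, by push_cast; ring⟩
      · rintro ⟨_, ⟨p, hp, rfl⟩, _, ⟨q, hq, rfl⟩, rfl⟩
        exact ⟨_, ⟨p, hp, q, hq, rfl⟩, by push_cast; ring⟩
    rw [this]
    exact card_image₂_le _ _ _

/-- products of several sets of points -/
lemma prods (f : ℕ → Finset (ℤ × ℤ)) (b : ℕ) (hf : ∀ i < b, (f i).Nonempty) :
    ∃ A : Finset (ℤ × ℤ), A.Nonempty ∧
    (proj (-1) A).card = ∏ i ∈ range b, (proj (-1) (f i)).card ∧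
    (∀ r : ℚ, (proj r A).card ≤ ∏ i ∈ range b, (proj r (f i)).card) ∧
    (projInf A).card ≤ ∏ i ∈ range b, (projInf (f i)).card := by
  classical
  induction b with
  | zero => exact ⟨{(0, 0)}, by simp, by simp [proj], by simp [proj], by simp [projInf]⟩
  | succ b ih =>
    obtain ⟨A, hA, h1, h2, h3⟩ := ih fun i hi => hf i (by omega)
    obtain ⟨A', hA', h1', h2', h3'⟩ := pair A (f b)
    refine ⟨A', hA' hA (hf b (Nat.lt_succ_self b)), ?_, fun r => ?_, ?_⟩
    · rw [h1', h1, prod_range_succ]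
    · rw [prod_range_succ]
      exact (h2' r).trans (Nat.mul_le_mul_right _ (h2 r))
    · rw [prod_range_succ]
      exact h3'.trans (Nat.mul_le_mul_right _ h3)

/-- the numbers -/
lemma numeric2 (n p q : ℕ) (hn : 2 ≤ n) (hp : 0 < p) (κ : ℝ) (hκ : κ * p < q * n) (hq : 0 < q) :
    ∃ m : ℕ, 2 ≤ m ∧
    ∀ C : ℝ, ∃ k₀ : ℕ, ∀ k ≥ k₀, ∀ B : ℕ, 1 ≤ B → B ^ n ≤ ((2 * m) ^ n ^ k) ^ p →
      C * (B : ℝ) ^ κ < (((m ^ n ^ k) ^ q : ℕ) : ℝ) := by
  have hnR : (0 : ℝ) < n := by exact_mod_cast (by omega : 0 < n)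
  have hpR : (0 : ℝ) < p := by exact_mod_cast hp
  have hqR : (0 : ℝ) < q := by exact_mod_cast hq
  have hl2 : 0 < Real.log 2 := Real.log_pos (by norm_num)
  set κ' : ℝ := max κ 0 with hκ'
  have hκ'0 : 0 ≤ κ' := le_max_right _ _
  have hκ'1 : κ' * p < q * n := by
    rcases le_total κ 0 with h | h
    · rw [hκ', max_eq_right h, zero_mul]
      positivity
    · rw [hκ', max_eq_left h]
      exact hκ
  set ρ : ℝ := p / n * κ' with hρ
  have hρ0 : 0 ≤ ρ := by positivity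
  have hρ2 : ρ < q := by
    rw [hρ, div_mul_eq_mul_div, div_lt_iff₀ hnR]
    linarith
  set η : ℝ := (q - ρ) / 2 with hη
  have hη0 : 0 < η := by rw [hη]; linarith
  obtain ⟨m, hm⟩ := exists_nat_ge (max (Real.exp (ρ * Real.log 2 / η)) 2)
  have hm8 : Real.exp (ρ * Real.log 2 / η) ≤ m := (le_max_left _ _).trans hm
  have hm2 : 2 ≤ m := by exact_mod_cast (le_max_right _ _).trans hm
  refine ⟨m, hm2, fun C => ?_⟩
  have hmR : (1 : ℝ) < m := by exact_mod_cast (by omega : 1 < m)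
  have hm0 : (0 : ℝ) < m := by linarith
  have hlm : ρ * Real.log 2 / η ≤ Real.log m := by
    rw [Real.le_log_iff_exp_le hm0]
    exact hm8
  have hlm0 : 0 < Real.log m := Real.log_pos hmR
  have hlm1 : ρ * Real.log 2 ≤ η * Real.log m := by
    rw [div_le_iff₀ hη0] at hlm
    linarith
  -- the main estimate
  have key : ∀ k B : ℕ, 1 ≤ B → B ^ n ≤ ((2 * m) ^ n ^ k) ^ p →
      (B : ℝ) ^ κ ≤ (m : ℝ) ^ ((q - η) * ((n ^ k : ℕ) : ℝ)) := by
    intro k B hB0 hB
    have hBR : (1 : ℝ) ≤ B := by exact_mod_cast hB0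
    have hBR0 : (0 : ℝ) < B := by linarith
    refine (Real.rpow_le_rpow_of_exponent_le hBR (le_max_left κ 0)).trans ?_
    rw [← hκ', ← Real.log_le_log_iff (Real.rpow_pos_of_pos hBR0 _) (Real.rpow_pos_of_pos hm0 _),
      Real.log_rpow hBR0, Real.log_rpow hm0]
    have h2 : (n : ℝ) * Real.log B ≤ (p : ℝ) * (((n ^ k : ℕ) : ℝ) * Real.log (2 * m)) := by
      have h3 : (B : ℝ) ^ n ≤ (((2 * m : ℝ)) ^ (n ^ k)) ^ p := by exact_mod_cast hB
      have h4 := Real.log_le_log (by positivity) h3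
      rw [Real.log_pow, Real.log_pow, Real.log_pow] at h4
      push_cast at h4 ⊢
      exact h4
    have h5 : Real.log (2 * m) = Real.log 2 + Real.log m :=
      Real.log_mul (by norm_num) (by positivity)
    set N : ℝ := ((n ^ k : ℕ) : ℝ) with hN
    have hN0 : 0 ≤ N := Nat.cast_nonneg _
    have h7 : Real.log B ≤ (p : ℝ) / n * (N * Real.log (2 * m)) := by
      rw [div_mul_eq_mul_div, le_div_iff₀ hnR]
      linarith
    have h8 : κ' * Real.log B ≤ κ' * ((p : ℝ) / n * (N * Real.log (2 * m))) :=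
      mul_le_mul_of_nonneg_left h7 hκ'0
    refine h8.trans ?_
    calc κ' * ((p : ℝ) / n * (N * Real.log (2 * m)))
        = N * (ρ * Real.log 2 + ρ * Real.log m) := by rw [h5, hρ]; ring
      _ ≤ N * (η * Real.log m + ρ * Real.log m) := by gcongr
      _ = (q - η) * N * Real.log m := by rw [hη]; ring
  -- large `k`
  have hgr : Filter.Tendsto (fun k : ℕ => (m : ℝ) ^ (η * ((n ^ k : ℕ) : ℝ)))
      Filter.atTop Filter.atTop := by
    have e : (fun k : ℕ => (m : ℝ) ^ (η * ((n ^ k : ℕ) : ℝ))) =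
        (fun x : ℝ => Real.exp x) ∘ (fun k : ℕ => Real.log m * (η * ((n ^ k : ℕ) : ℝ))) := by
      funext k
      simp only [Function.comp]
      rw [Real.rpow_def_of_pos hm0]
    rw [e]
    refine Real.tendsto_exp_atTop.comp ?_
    refine Filter.Tendsto.const_mul_atTop hlm0 (Filter.Tendsto.const_mul_atTop hη0 ?_)
    exact tendsto_natCast_atTop_atTop.comp (tendsto_pow_atTop_atTop_of_one_lt (r := n) (by omega))
  obtain ⟨k₀, hk₀⟩ := Filter.eventually_atTop.1 (hgr.eventually (Filter.eventually_gt_atTop C))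
  refine ⟨k₀, fun k hk B hB0 hB => ?_⟩
  have h2 := hk₀ k hk
  have h3 := key k B hB0 hB
  have hB1 : (0 : ℝ) ≤ (B : ℝ) ^ κ := by positivity
  have hpos : 0 < (m : ℝ) ^ ((q - η) * ((n ^ k : ℕ) : ℝ)) := Real.rpow_pos_of_pos hm0 _
  have h4 : (((m ^ n ^ k) ^ q : ℕ) : ℝ) = (m : ℝ) ^ (η * ((n ^ k : ℕ) : ℝ)) *
      (m : ℝ) ^ ((q - η) * ((n ^ k : ℕ) : ℝ)) := by
    rw [← Real.rpow_add hm0]
    have : η * ((n ^ k : ℕ) : ℝ) + (q - η) * ((n ^ k : ℕ) : ℝ) =
        ((n ^ k * q : ℕ) : ℝ) := by push_cast; ring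
    rw [this, Real.rpow_natCast]
    push_cast
    rw [pow_mul]
  rw [h4]
  rcases le_or_gt C 0 with hC | hC
  · refine lt_of_le_of_lt (mul_nonpos_of_nonpos_of_nonneg hC hB1) ?_
    exact mul_pos (Real.rpow_pos_of_pos hm0 _) hpos
  · calc C * (B : ℝ) ^ κ ≤ C * (m : ℝ) ^ ((q - η) * ((n ^ k : ℕ) : ℝ)) :=
        mul_le_mul_of_nonneg_left h3 hC.le
      _ < _ := mul_lt_mul_of_pos_right h2 hpos

end Pool.Agent.Zk73.AK
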