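import Mathlib
import Pool.Agent.Zk73.AK.A

/-! # Almost all sets of slopes: blocks of slopes and counting -/

set_option autoImplicit false

namespace Pool.Agent.Zk73.AK

open Finset
open Pool.Agent.R470.AK

/-- the differences of the slopes of a block -/
def stp (u : ℕ → ℚ) : ℕ → ℚ := fun i => u (i + 1) - u 0

/-- the set of differences of the digit set number `j` of a block -/
def tgt (n m : ℕ) (u : ℕ → ℚ) (j : ℕ) : Finset ℚ :=
  comb (-(u 0 + 1)) (X n m (stp u) j) (X n m (stp u) j)

/-- the block consisting of the first `L` terms of `u` is good -/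
def Blk (n m : ℕ) (L : ℕ) (u : ℕ → ℚ) : Prop :=
  (0 < L → u 0 + 1 ∉ bad0 m) ∧ ∀ j, j + 1 < L → Good n (stp u j) (tgt n m u j)

lemma tgt_congr {n m : ℕ} {u v : ℕ → ℚ} {j : ℕ} (h : ∀ i ≤ j, u i = v i) :
    tgt n m u j = tgt n m v j := by
  unfold tgt
  rw [X_congr j (ν := stp u) (ν' := stp v) fun i hi => by
    simp only [stp, h (i + 1) (by omega), h 0 (by omega)], h 0 (by omega)]

lemma card_tgt_le {n m : ℕ} (u : ℕ → ℚ) (j : ℕ) : (tgt n m u j).card ≤ m ^ (2 * n ^ j) := by
  refine (card_comb _ _ _).trans ?_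
  rw [two_mul, pow_add]
  exact Nat.mul_le_mul (card_X_le n m _ j) (card_X_le n m _ j)

lemma extend {n m L : ℕ} {u : ℕ → ℚ} (h : Blk n m L u) : ∃ (t : ℚ) (ν : ℕ → ℚ),
    (comb (-t) (X n m ν 0) (X n m ν 0)).card = m ^ 2 ∧
    (∀ i, Good n (ν i) (comb (-t) (X n m ν i) (X n m ν i))) ∧
    ∀ j < L, u j + 1 = t ∨ ∃ i < L, u j + 1 = t + ν i := by
  classical
  obtain ⟨t, ht, htL⟩ : ∃ t, t ∉ bad0 m ∧ (0 < L → t = u 0 + 1) := by
    rcases Nat.eq_zero_or_pos L with h0 | h0
    · obtain ⟨t, ht⟩ := Infinite.exists_notMem_finset (bad0 m)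
      exact ⟨t, ht, fun h' => by omega⟩
    · exact ⟨u 0 + 1, h.1 h0, fun _ => rfl⟩
  have hne : ∀ D : Finset ℚ, ∃ ν : ℚ, Good n ν (comb (-t) D D) := by
    intro D
    obtain ⟨F, -, hF⟩ := bad_card n (comb (-t) D D)
    obtain ⟨ν, hν⟩ := Infinite.exists_notMem_finset F
    exact ⟨ν, by_contra fun h' => hν (hF ν h')⟩
  choose nx hnx using hne
  let g : ℕ → Finset ℚ → ℚ := fun i D => if i + 1 < L then stp u i else nx D
  let st : ℕ → Finset ℚ := fun k => Nat.rec ((range m).image (fun i : ℕ => (i : ℚ)))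
    (fun i D => P n (g i D) D) k
  have st1 : ∀ k, st (k + 1) = P n (g k (st k)) (st k) := fun _ => rfl
  set ν : ℕ → ℚ := fun k => g k (st k) with hν
  have hX : ∀ k, st k = X n m ν k := by
    intro k
    induction k with
    | zero => rfl
    | succ k ih =>
      rw [st1]
      show P n (ν k) (st k) = P n (ν k) (X n m ν k)
      rw [ih]
  have hνu : ∀ i, i + 1 < L → ν i = stp u i := fun i hi => if_pos hi
  refine ⟨t, ν, base_of_not_mem ν ht, fun i => ?_, fun j hj => ?_⟩
  · rcases Nat.lt_or_ge (i + 1) L with hi | hi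
    · have h1 := h.2 i hi
      rw [hνu i hi]
      have h2 : comb (-t) (X n m ν i) (X n m ν i) = tgt n m u i := by
        rw [tgt, htL (by omega), X_congr i fun i' hi' => hνu i' (by omega)]
      rw [h2]
      exact h1
    · have h3 : ν i = nx (st i) := if_neg (by omega)
      rw [h3, hX i]
      exact hnx _
  · rcases j with _ | j
    · exact Or.inl (htL hj).symm
    · refine Or.inr ⟨j, by omega, ?_⟩
      rw [hνu j hj, htL (by omega), stp]
      ring

/-- a sequence which extends a tuple -/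
def ex {k : ℕ} (s : Fin k → ℚ) (i : ℕ) : ℚ := if h : i < k then s ⟨i, h⟩ else 0

/-- the block number `β` -/
def blk {k : ℕ} (l β : ℕ) (s : Fin k → ℚ) : ℕ → ℚ := fun i => ex s (β * l + i)

lemma big_pow_le {S : Finset ℚ} {A : Finset (ℤ × ℤ)} {n T : ℕ} (hn : n ≠ 0)
    (h1 : (projInf A).card ^ n ≤ T) (h2 : ∀ r ∈ S, (proj r A).card ^ n ≤ T) : big S A ^ n ≤ T := by
  unfold big
  rcases le_total (projInf A).card (S.sup fun r => (proj r A).card) with h | h
  · rw [max_eq_right h]
    rcases S.eq_empty_or_nonempty with hS0 | hS0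
    · subst hS0
      rw [sup_empty]
      simp [hn]
    · obtain ⟨r, hrS, hre⟩ := exists_mem_eq_sup S hS0 fun r => (proj r A).card
      rw [hre]
      exact h2 r hrS
  · rw [max_eq_left h]
    exact h1

lemma useless {b l k n m : ℕ} (hn : 2 ≤ n) (hm : 2 ≤ m) (hb : 0 < b) (hk : k ≤ b * l)
    (s : Fin k → ℚ) (h : ∀ β < b, Blk n m (min l (k - β * l)) (blk l β s)) (K : ℕ) (hK : l ≤ K) :
    ∃ A : Finset (ℤ × ℤ), A.Nonempty ∧ (proj (-1) A).card = (m ^ n ^ K) ^ (2 * b) ∧
      (big (univ.image s) A) ^ n ≤ ((2 * m) ^ n ^ K) ^ ((2 * b - 1) * n + 1) := by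
  classical
  set Q : ℕ := (2 * m) ^ n ^ K with hQ
  have hQ1 : 1 ≤ Q := Nat.one_le_pow _ _ (by omega)
  have hMQ : m ^ n ^ K ≤ Q := Nat.pow_le_pow_left (by omega) _
  have hA : ∀ β : ℕ, ∃ A : Finset (ℤ × ℤ), β < b → (A.Nonempty ∧
      (proj (-1) A).card = (m ^ n ^ K) ^ 2 ∧ (∀ r : ℚ, (proj r A).card ≤ (m ^ n ^ K) ^ 2) ∧
      (projInf A).card ^ n ≤ Q ^ (n + 1) ∧
      ∀ j < min l (k - β * l), (proj (blk l β s j) A).card ^ n ≤ Q ^ (n + 1)) := by
    intro β
    by_cases hβ : β < b
    · obtain ⟨t, ν, h0, hg, hj⟩ := extend (h β hβ)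
      obtain ⟨A, a1, a2, a3, a4, a5⟩ := assemble2 (by omega : 0 < m) t ν h0 hg K
      refine ⟨A, fun _ => ⟨a1, a2, a3, a4, fun j hjl => a5 _ ?_⟩⟩
      rcases hj j hjl with h1 | ⟨i, hi, h1⟩
      · exact Or.inl h1
      · exact Or.inr ⟨i, by have := min_le_left l (k - β * l); omega, h1⟩
    · exact ⟨∅, fun h' => absurd h' hβ⟩
  choose f hf using hA
  obtain ⟨A, hA0, hA1, hA2, hA3⟩ := prods f b fun i hi => (hf i hi).1
  refine ⟨A, hA0, ?_, big_pow_le (by omega) ?_ ?_⟩
  · rw [hA1, prod_congr rfl fun i hi => (hf i (mem_range.1 hi)).2.1, prod_const, card_range,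
      pow_mul]
  · refine (Nat.pow_le_pow_left hA3 n).trans ?_
    rw [← prod_pow]
    refine (prod_le_prod' fun i hi => (hf i (mem_range.1 hi)).2.2.2.1).trans ?_
    rw [prod_const, card_range, ← pow_mul]
    refine Nat.pow_le_pow_right hQ1 ?_
    obtain ⟨b, rfl⟩ : ∃ b', b = b' + 1 := ⟨b - 1, by omega⟩
    have : 2 * (b + 1) - 1 = 2 * b + 1 := by omega
    rw [this]
    nlinarith
  · intro r hr
    obtain ⟨x, -, rfl⟩ := mem_image.1 hr
    have hl : 0 < l := by
      rcases Nat.eq_zero_or_pos l with h0 | h0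
      · subst h0
        have := x.2
        omega
      · exact h0
    set β : ℕ := (x : ℕ) / l with hβ
    have hβb : β < b := Nat.div_lt_of_lt_mul (by have := x.2; rw [mul_comm]; omega)
    have hxe : β * l + (x : ℕ) % l = x := by
      rw [hβ, mul_comm]
      exact Nat.div_add_mod _ _
    have hx : s x = blk l β s ((x : ℕ) % l) := by
      unfold blk ex
      rw [hxe, dif_pos x.2]
    have hjl : (x : ℕ) % l < min l (k - β * l) := by
      refine lt_min (Nat.mod_lt _ hl) ?_
      have := x.2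
      omega
    refine (Nat.pow_le_pow_left (hA2 _) n).trans ?_
    rw [← prod_pow]
    have h1 : ∀ i ∈ range b, (proj (s x) (f i)).card ^ n ≤
        Q ^ (if i = β then n + 1 else 2 * n) := by
      intro i hi
      split_ifs with hib
      · rw [hib, hx]
        exact (hf β hβb).2.2.2.2 _ hjl
      · rw [pow_mul]
        refine Nat.pow_le_pow_left (((hf i (mem_range.1 hi)).2.2.1 _).trans ?_) n
        exact Nat.pow_le_pow_left hMQ 2
    refine (prod_le_prod' h1).trans ?_
    rw [prod_pow_eq_pow_sum]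
    refine Nat.pow_le_pow_right hQ1 (le_of_eq ?_)
    have h2 : ∑ i ∈ range b, ((if i = β then n + 1 else 2 * n) + if i = β then n - 1 else 0) =
        b * (2 * n) := by
      rw [sum_congr rfl fun i _ => (?_ : _ = 2 * n), sum_const, card_range, smul_eq_mul]
      split_ifs <;> omega
    rw [sum_add_distrib, sum_ite_eq' (range b) β, if_pos (mem_range.2 hβb)] at h2
    obtain ⟨b, rfl⟩ : ∃ b', b = b' + 1 := ⟨b - 1, by omega⟩
    have : 2 * (b + 1) - 1 = 2 * b + 1 := by omega
    rw [this]
    have e1 : (b + 1) * (2 * n) = (2 * b + 1) * n + n := by ring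
    omega

/-! ### Counting -/

lemma count {k : ℕ} (R : Finset ℚ) (B : (Fin k → ℚ) → Fin k → Finset ℚ)
    (hB : ∀ s x, B (Function.update s x 0) x = B s x) (N : ℕ) (hN : ∀ s x, (B s x).card ≤ N) :
    ((Fintype.piFinset fun _ : Fin k => R).filter fun s => ∃ x, s x ∈ B s x).card ≤
      k * N * R.card ^ (k - 1) := by
  classical
  set W := (Fintype.piFinset fun _ : Fin k => R) with hW
  have h1 : (W.filter fun s => ∃ x, s x ∈ B s x) ⊆
      univ.biUnion fun x => W.filter fun s => s x ∈ B s x := by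
    intro s hs
    rw [mem_filter] at hs
    obtain ⟨hs, x, hx⟩ := hs
    exact mem_biUnion.2 ⟨x, mem_univ _, mem_filter.2 ⟨hs, hx⟩⟩
  refine (card_le_card h1).trans ?_
  have h2 : ∀ x ∈ (univ : Finset (Fin k)), (W.filter fun s => s x ∈ B s x).card ≤
      N * R.card ^ (k - 1) := by
    intro x _
    have h3 : (Fintype.piFinset fun i : Fin k => if i = x then ({0} : Finset ℚ) else R).card =
        R.card ^ (k - 1) := by
      rw [Fintype.card_piFinset, ← mul_prod_erase univ _ (mem_univ x), if_pos rfl,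
        card_singleton, one_mul, prod_congr rfl fun i hi => by rw [if_neg (ne_of_mem_erase hi)],
        prod_const, card_erase_of_mem (mem_univ x), card_univ, Fintype.card_fin]
    rw [← h3]
    refine card_le_mul_card_image_of_maps_to (f := fun s => Function.update s x 0) ?_ N ?_
    · intro s hs
      rw [mem_filter, hW, Fintype.mem_piFinset] at hs
      rw [Fintype.mem_piFinset]
      intro i
      by_cases hi : i = x
      · subst hi
        simp
      · rw [if_neg hi, Function.update_of_ne hi]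
        exact hs.1 i
    · intro u _
      refine (card_le_card_of_injOn (fun s => s x) (t := B u x) ?_ ?_).trans (hN u x)
      · intro s hs
        rw [mem_coe, mem_filter, mem_filter] at hs
        obtain ⟨⟨_, hs1⟩, rfl⟩ := hs
        rw [mem_coe, hB]
        exact hs1
      · intro s hs s' hs' he
        rw [mem_coe, mem_filter] at hs hs'
        have h4 := hs.2.trans hs'.2.symm
        funext i
        by_cases hi : i = x
        · rw [hi]
          exact he
        · have := congrFun h4 i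
          simpa [Function.update_of_ne hi] using this
  refine (card_biUnion_le_card_mul _ _ _ h2).trans (le_of_eq ?_)
  rw [card_univ, Fintype.card_fin, mul_assoc]

/-- the finite set of `bad_card` -/
noncomputable def bd (n : ℕ) (Z : Finset ℚ) : Finset ℚ := (bad_card n Z).choose

lemma bd_card (n : ℕ) (Z : Finset ℚ) : (bd n Z).card ≤ n * Z.card ^ (2 * n) :=
  (bad_card n Z).choose_spec.1

lemma bd_mem {n : ℕ} {Z : Finset ℚ} {ν : ℚ} (h : ¬ Good n ν Z) : ν ∈ bd n Z :=
  (bad_card n Z).choose_spec.2 ν h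

/-- the bad values of the slope number `x`, given the previous ones -/
noncomputable def bset (n m l : ℕ) {k : ℕ} (s : Fin k → ℚ) (x : Fin k) : Finset ℚ :=
  if (x : ℕ) % l = 0 then (bad0 m).image (fun y => y - 1) else
    (bd n (tgt n m (blk l ((x : ℕ) / l) s) ((x : ℕ) % l - 1))).image
      (fun y => y + blk l ((x : ℕ) / l) s 0)

lemma ex_update {k : ℕ} (s : Fin k → ℚ) (x : Fin k) {i : ℕ} (hi : i < x) :
    ex (Function.update s x 0) i = ex s i := by
  unfold ex
  split_ifs with h
  · rw [Function.update_of_ne]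
    intro h'
    rw [Fin.ext_iff] at h'
    simp only at h'
    omega
  · rfl

lemma bset_update {n m l k : ℕ} (s : Fin k → ℚ) (x : Fin k) :
    bset n m l (Function.update s x 0) x = bset n m l s x := by
  unfold bset
  split_ifs with h
  · rfl
  · have hxe : (x : ℕ) / l * l + (x : ℕ) % l = x := by
      rw [mul_comm]
      exact Nat.div_add_mod _ _
    have h1 : ∀ i ≤ (x : ℕ) % l - 1, blk l ((x : ℕ) / l) (Function.update s x 0) i =
        blk l ((x : ℕ) / l) s i := by
      intro i hi
      exact ex_update s x (by omega)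
    rw [tgt_congr h1, h1 0 (by omega)]

lemma bset_card {n m l k : ℕ} (hn : 2 ≤ n) (hl : 0 < l) (s : Fin k → ℚ) (x : Fin k) :
    (bset n m l s x).card ≤ n * (2 * m + 1) ^ (4 * n ^ l) := by
  unfold bset
  have hm1 : 1 ≤ 2 * m + 1 := by omega
  split_ifs with h
  · refine card_image_le.trans ?_
    have h1 : (bad0 m).card ≤ (2 * m + 1) ^ 2 := by
      refine card_image_le.trans ?_
      rw [card_product, Int.card_Icc, sq]
      have : ((m : ℤ) + 1 - -m).toNat = 2 * m + 1 := by omega
      rw [this]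
    refine h1.trans ((Nat.pow_le_pow_right hm1 ?_).trans (Nat.le_mul_of_pos_left _ (by omega)))
    have : 1 ≤ n ^ l := Nat.one_le_pow _ _ (by omega)
    omega
  · refine card_image_le.trans ((bd_card _ _).trans (Nat.mul_le_mul_left n ?_))
    refine (Nat.pow_le_pow_left (card_tgt_le _ _) _).trans ?_
    rw [← pow_mul]
    refine (Nat.pow_le_pow_left (by omega : m ≤ 2 * m + 1) _).trans
      (Nat.pow_le_pow_right hm1 ?_)
    have h2 : (x : ℕ) % l < l := Nat.mod_lt _ hl
    calc 2 * n ^ ((x : ℕ) % l - 1) * (2 * n) = 4 * n ^ ((x : ℕ) % l - 1 + 1) := by ring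
      _ ≤ 4 * n ^ l := Nat.mul_le_mul_left 4 (Nat.pow_le_pow_right (by omega) (by omega))

lemma blk_of_not_mem {n m l k : ℕ} (s : Fin k → ℚ) (h : ∀ x, s x ∉ bset n m l s x) (β : ℕ) :
    Blk n m (min l (k - β * l)) (blk l β s) := by
  constructor
  · intro h0 h1
    have hl : 0 < l := lt_of_lt_of_le h0 (min_le_left _ _)
    have hk : β * l < k := by
      have := lt_of_lt_of_le h0 (min_le_right _ _)
      omega
    refine h ⟨β * l, hk⟩ ?_
    unfold bset
    rw [if_pos (Nat.mul_mod_left _ _)]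
    refine mem_image.2 ⟨_, h1, ?_⟩
    unfold blk ex
    rw [add_zero, dif_pos hk]
    ring
  · intro j hj
    by_contra h1
    have hl : j + 1 < l := lt_of_lt_of_le hj (min_le_left _ _)
    have hk : β * l + (j + 1) < k := by
      have := lt_of_lt_of_le hj (min_le_right _ _)
      omega
    have hd : (β * l + (j + 1)) / l = β := by
      rw [mul_comm, Nat.mul_add_div (by omega), Nat.div_eq_of_lt hl, add_zero]
    have hm : (β * l + (j + 1)) % l = j + 1 := by
      rw [mul_comm, Nat.mul_add_mod, Nat.mod_eq_of_lt hl]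
    refine h ⟨β * l + (j + 1), hk⟩ ?_
    unfold bset
    rw [if_neg (by simp only [hm]; omega)]
    simp only [hd, hm, Nat.add_sub_cancel]
    refine mem_image.2 ⟨_, bd_mem h1, ?_⟩
    unfold stp
    rw [sub_add_cancel]
    unfold blk ex
    rw [dif_pos hk]

end Pool.Agent.Zk73.AK
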