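import Mathlib
import Pool.Agent.Zk73.AK.B

/-! # Almost all sets of slopes: the main theorems -/

set_option autoImplicit false

namespace Pool.Agent.Zk73.AK

open Finset
open Pool.Agent.R470.AK

/-- the inequality with exponent `κ` holds for the slopes `S` (and `∞`), up to a constant -/
def Useful (κ : ℝ) (S : Finset ℚ) : Prop :=
  ∃ C : ℝ, ∀ A : Finset (ℤ × ℤ), ((proj (-1) A).card : ℝ) ≤ C * (big S A : ℝ) ^ κ

open Classical in
theorem main (b n : ℕ) (hb : 0 < b) (hn : 2 ≤ n) (κ : ℝ)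
    (hκ : κ * ((2 * b - 1) * n + 1) < 2 * b * n) : ∃ C : ℕ, 1 ≤ C ∧ ∀ l k : ℕ, k ≤ b * l →
      ∀ R : Finset ℚ, ((Fintype.piFinset fun _ : Fin k => R).filter
        fun s => Useful κ (univ.image s)).card ≤ C ^ n ^ l * R.card ^ (k - 1) := by
  obtain ⟨m, hm, hnum⟩ := numeric2 n ((2 * b - 1) * n + 1) (2 * b) hn (by omega) κ (by
    have : (((2 * b - 1) * n + 1 : ℕ) : ℝ) = (2 * b - 1) * n + 1 := by
      rw [Nat.cast_add, Nat.cast_mul, Nat.cast_sub (by omega)]
      push_cast
      ring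
    rw [this]
    push_cast
    linarith) (by omega)
  refine ⟨b * n * (2 * m + 1) ^ 4, Nat.mul_pos (Nat.mul_pos hb (by omega)) (by positivity),
    fun l k hk R => ?_⟩
  have h1 : ∀ s : Fin k → ℚ, Useful κ (univ.image s) → ∃ x, s x ∈ bset n m l s x := by
    intro s hs
    by_contra h
    push Not at h
    obtain ⟨C, hC⟩ := hs
    obtain ⟨k₀, hk₀⟩ := hnum C
    obtain ⟨A, a1, a2, a3⟩ := useless hn hm hb hk s (fun β _ => blk_of_not_mem s h β)
      (max k₀ l) (le_max_right _ _)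
    have h2 := hk₀ _ (le_max_left k₀ l) _ (big_pos (S := univ.image s) a1) a3
    have h3 := hC A
    rw [a2] at h3
    exact absurd h3 (not_le.2 h2)
  have h2 : ((Fintype.piFinset fun _ : Fin k => R).filter
      fun s => Useful κ (univ.image s)).card ≤
      k * (n * (2 * m + 1) ^ (4 * n ^ l)) * R.card ^ (k - 1) := by
    refine (card_le_card ?_).trans (count R (bset n m l) (fun s x => bset_update s x)
      (n * (2 * m + 1) ^ (4 * n ^ l)) fun s x => ?_)
    · intro s hs
      rw [mem_filter] at hs ⊢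
      exact ⟨hs.1, h1 s hs.2⟩
    · have hl : 0 < l := by
        rcases Nat.eq_zero_or_pos l with h0 | h0
        · subst h0
          have := x.2
          omega
        · exact h0
      exact bset_card hn hl s x
  refine h2.trans (Nat.mul_le_mul_right _ ?_)
  have hnl : 1 ≤ n ^ l := Nat.one_le_pow _ _ (by omega)
  have e1 : b ≤ b ^ n ^ l := Nat.le_self_pow (by omega) b
  have e2 : l * n ≤ n ^ n ^ l := by
    have h3 : l < n ^ l := Nat.lt_pow_self (by omega)
    calc l * n ≤ n ^ l * n := Nat.mul_le_mul_right _ h3.le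
      _ = n ^ (l + 1) := by rw [pow_succ]
      _ ≤ n ^ n ^ l := Nat.pow_le_pow_right (by omega) h3
  calc k * (n * (2 * m + 1) ^ (4 * n ^ l)) ≤ b * l * (n * (2 * m + 1) ^ (4 * n ^ l)) :=
        Nat.mul_le_mul_right _ hk
    _ = b * (l * n) * (2 * m + 1) ^ (4 * n ^ l) := by ring
    _ ≤ b ^ n ^ l * n ^ n ^ l * (2 * m + 1) ^ (4 * n ^ l) :=
        Nat.mul_le_mul_right _ (Nat.mul_le_mul e1 e2)
    _ = (b * n * (2 * m + 1) ^ 4) ^ n ^ l := by rw [mul_pow, mul_pow, ← pow_mul]

open Classical in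
theorem random (ε : ℝ) (h0 : 0 < ε) (h1 : ε < 1 / 3) : ∃ N : ℕ, ∀ R : Finset ℚ, N ≤ R.card →
    ∀ k : ℕ, 0 < k → (k : ℝ) ≤ Real.log (Real.log R.card) / (8 * ε) →
      (((Fintype.piFinset fun _ : Fin k => R).filter
        fun s => Useful (1 + ε) (univ.image s)).card : ℝ) ≤ (R.card : ℝ) ^ ((k : ℝ) - 1 / 2) := by
  -- the number of blocks
  set z : ℝ := (1 / ε + 1) / 4 with hz
  have hε3 : 3 < 1 / ε := by
    rw [lt_div_iff₀ h0]
    linarith
  have hz1 : 1 < z := by rw [hz]; linarith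
  have hc1 : 1 < ⌈z⌉₊ := Nat.lt_ceil.2 (by exact_mod_cast hz1)
  obtain ⟨b, hb⟩ : ∃ b : ℕ, ⌈z⌉₊ = b + 1 := ⟨⌈z⌉₊ - 1, by omega⟩
  have hb0 : 0 < b := by omega
  have hbz : (b : ℝ) < z := by
    have := Nat.lt_ceil.1 (by omega : b < ⌈z⌉₊)
    exact this
  have hzb : z ≤ b + 1 := by
    have := Nat.le_ceil z
    rw [hb] at this
    exact_mod_cast this
  have hbR : (1 : ℝ) ≤ b := by exact_mod_cast hb0
  have hb8 : 1 ≤ 8 * ε * b := by
    have h2 : 1 / ε ≤ 8 * b := by
      rcases le_or_gt (1 / ε) 8 with h | h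
      · linarith
      · have : 1 / ε ≤ 4 * b + 3 := by rw [hz] at hzb; linarith
        linarith
    rw [div_le_iff₀ h0] at h2
    linarith
  obtain ⟨C, hC1, hC⟩ := main b 2 hb0 le_rfl (1 + ε) (by
    have h2 : (b : ℝ) * 4 < 1 / ε + 1 := by rw [hz] at hbz; linarith
    have h3 : ((4 : ℝ) * b - 1) < 1 / ε := by linarith
    rw [lt_div_iff₀ h0] at h3
    push_cast
    nlinarith)
  have hl2 : Real.log 2 < 0.7 := by
    have := Real.log_two_lt_d9
    linarith
  have hl20 : 0 < Real.log 2 := Real.log_pos (by norm_num)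
  set c : ℝ := 2 * Real.log C with hc
  have hc0 : 0 ≤ c := by
    have : (1 : ℝ) ≤ C := by exact_mod_cast hC1
    have := Real.log_nonneg this
    rw [hc]; linarith
  have hlim : Filter.Tendsto (fun N : ℕ => Real.log (Real.log N)) Filter.atTop Filter.atTop :=
    Real.tendsto_log_atTop.comp (Real.tendsto_log_atTop.comp tendsto_natCast_atTop_atTop)
  obtain ⟨N, hN⟩ := Filter.eventually_atTop.1 (hlim.eventually (Filter.eventually_ge_atTop
    ((c + Real.log 2) / (1 - Real.log 2))))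
  refine ⟨max N 3, fun R hR k hk0 hk => ?_⟩
  have hR3 : 3 ≤ R.card := (le_max_right _ _).trans hR
  have hRR : (3 : ℝ) ≤ R.card := by exact_mod_cast hR3
  have hR0 : (0 : ℝ) < R.card := by linarith
  have hlR : 0 < Real.log R.card := Real.log_pos (by linarith)
  set Λ : ℝ := Real.log (Real.log R.card) with hΛ
  have hΛe : Real.exp Λ = Real.log R.card := Real.exp_log hlR
  have hΛ1 : c + Real.log 2 ≤ Λ * (1 - Real.log 2) := by
    have := hN R.card ((le_max_left _ _).trans hR)
    rw [div_le_iff₀ (by linarith)] at this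
    exact this
  -- the length of the blocks
  set l : ℕ := (k + b - 1) / b with hl
  have hkl : k ≤ b * l := by
    have h2 : k + b - 1 < b * ((k + b - 1) / b) + b := by
      have := Nat.lt_div_mul_add (a := k + b - 1) hb0
      rw [mul_comm]
      exact this
    rw [← hl] at h2
    omega
  have hlk : b * l ≤ k + b - 1 := by
    rw [hl]
    exact Nat.mul_div_le _ _
  have hlR' : (l : ℝ) ≤ Λ + 1 := by
    have h2 : (b : ℝ) * l ≤ k + b := by
      have : b * l ≤ k + b := by omega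
      exact_mod_cast this
    have h3 : (k : ℝ) * (8 * ε) ≤ Λ := by
      rw [le_div_iff₀ (by linarith)] at hk
      exact hk
    have hk0' : (0 : ℝ) < k := by exact_mod_cast hk0
    have h4 : (k : ℝ) ≤ b * Λ := by
      have : (k : ℝ) * 1 ≤ k * (8 * ε * b) := mul_le_mul_of_nonneg_left hb8 hk0'.le
      nlinarith
    have h5 : (b : ℝ) * l ≤ b * (Λ + 1) := by linarith
    exact le_of_mul_le_mul_left h5 (by linarith)
  have h2l : ((2 : ℝ) ^ l) * c ≤ Real.log R.card := by
    have h2 : (2 : ℝ) ^ l ≤ Real.exp ((Λ + 1) * Real.log 2) := by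
      have : (2 : ℝ) ^ l = Real.exp (l * Real.log 2) := by
        rw [mul_comm, Real.exp_mul, Real.exp_log (by norm_num), Real.rpow_natCast]
      rw [this]
      exact Real.exp_le_exp.2 (mul_le_mul_of_nonneg_right hlR' hl20.le)
    have h3 : c ≤ Real.exp (Λ * (1 - Real.log 2) - Real.log 2) := by
      have := Real.add_one_le_exp (Λ * (1 - Real.log 2) - Real.log 2)
      linarith
    calc ((2 : ℝ) ^ l) * c ≤ Real.exp ((Λ + 1) * Real.log 2) *
          Real.exp (Λ * (1 - Real.log 2) - Real.log 2) :=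
          mul_le_mul h2 h3 hc0 (Real.exp_pos _).le
      _ = Real.exp Λ := by rw [← Real.exp_add]; congr 1; ring
      _ = _ := hΛe
  have hCR : ((C ^ 2 ^ l : ℕ) : ℝ) ≤ (R.card : ℝ) ^ (1 / 2 : ℝ) := by
    have hCpos : (0 : ℝ) < C := by exact_mod_cast hC1
    push_cast
    rw [← Real.log_le_log_iff (by positivity) (Real.rpow_pos_of_pos hR0 _),
      Real.log_rpow hR0, Real.log_pow]
    push_cast
    rw [hc] at h2l
    linarith
  have h5 := hC l k hkl R
  have h6 : (((Fintype.piFinset fun _ : Fin k => R).filter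
      fun s => Useful (1 + ε) (univ.image s)).card : ℝ) ≤
      ((C ^ 2 ^ l : ℕ) : ℝ) * (R.card : ℝ) ^ (k - 1) := by exact_mod_cast h5
  refine h6.trans ?_
  calc ((C ^ 2 ^ l : ℕ) : ℝ) * (R.card : ℝ) ^ (k - 1)
      ≤ (R.card : ℝ) ^ (1 / 2 : ℝ) * (R.card : ℝ) ^ (k - 1) :=
        mul_le_mul_of_nonneg_right hCR (by positivity)
    _ = (R.card : ℝ) ^ ((k : ℝ) - 1 / 2) := by
        rw [← Real.rpow_natCast, ← Real.rpow_add hR0, Nat.cast_sub hk0]
        congr 1
        push_cast
        ring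

end Pool.Agent.Zk73.AK
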