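import Mathlib
import Pool.Agent.Zk73.AK.C

/-! # Digit sets in several variables -/

set_option autoImplicit false

namespace Pool.Agent.Zk73.AK

open Finset
open Pool.Agent.R470.AK (comb mem_comb proj projInf big int_points big_pos)

/-- the exponents below `n` -/
def bx (k n : ℕ) : Finset (Fin k → ℕ) := Fintype.piFinset fun _ => range n

lemma mem_bx {k n : ℕ} {a : Fin k → ℕ} : a ∈ bx k n ↔ ∀ i, a i < n := by
  simp [bx, Fintype.mem_piFinset]

lemma card_bx (k n : ℕ) : (bx k n).card = n ^ k := by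
  simp [bx, Fintype.card_piFinset]

/-- the monomials -/
def mono {k : ℕ} (ν : Fin k → ℚ) (a : Fin k → ℕ) : ℚ := ∏ i, ν i ^ a i

/-- the digit sets in several variables -/
noncomputable def W {k : ℕ} (ν : Fin k → ℚ) (n m : ℕ) : Finset ℚ :=
  ((bx k n).finsupp fun _ => range m).image fun f => ∑ a ∈ bx k n, (f a : ℚ) * mono ν a

lemma mem_W {k : ℕ} {ν : Fin k → ℚ} {n m : ℕ} (hm : 0 < m) {w : ℚ} :
    w ∈ W ν n m ↔ ∃ α : (Fin k → ℕ) → ℕ, (∀ a, α a < m) ∧ ∑ a ∈ bx k n, (α a : ℚ) * mono ν a = w := by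
  classical
  constructor
  · intro hw
    obtain ⟨f, hf, rfl⟩ := mem_image.1 hw
    rw [mem_finsupp_iff] at hf
    refine ⟨f, fun a => ?_, rfl⟩
    by_cases ha : a ∈ bx k n
    · exact mem_range.1 (hf.2 a ha)
    · have : f a = 0 := by
        by_contra h
        exact ha (hf.1 (Finsupp.mem_support_iff.2 h))
      omega
  · rintro ⟨α, hα, rfl⟩
    refine mem_image.2 ⟨Finsupp.onFinset (bx k n) (fun a => if a ∈ bx k n then α a else 0)
      fun a ha => ?_, ?_, ?_⟩
    · by_contra h
      exact ha (if_neg h)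
    · rw [mem_finsupp_iff]
      refine ⟨fun a ha => ?_, fun a ha => ?_⟩
      · by_contra h
        rw [Finsupp.mem_support_iff] at ha
        exact ha (by simp [h])
      · simp [ha, hα a]
    · refine sum_congr rfl fun a ha => ?_
      simp [ha]

lemma card_W_le {k : ℕ} (ν : Fin k → ℚ) (n m : ℕ) : (W ν n m).card ≤ m ^ n ^ k := by
  refine card_image_le.trans (le_of_eq ?_)
  rw [card_finsupp]
  simp [card_bx]

lemma mono_zero {k : ℕ} (ν : Fin k → ℚ) : mono ν (fun _ => 0) = 1 := by simp [mono]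

lemma le_card_W {k : ℕ} (ν : Fin k → ℚ) {n m : ℕ} (hn : 0 < n) (hm : 0 < m) :
    m ≤ (W ν n m).card := by
  classical
  have h1 : (range m).image (fun j : ℕ => (j : ℚ)) ⊆ W ν n m := by
    intro w hw
    obtain ⟨j, hj, rfl⟩ := mem_image.1 hw
    rw [mem_W hm]
    refine ⟨fun a => if a = fun _ => 0 then j else 0, fun a => ?_, ?_⟩
    · have := mem_range.1 hj
      dsimp only
      split_ifs <;> omega
    · rw [sum_eq_single (fun _ => 0 : Fin k → ℕ)]
      · simp [mono_zero]
      · intro a _ ha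
        simp [ha]
      · intro h
        exact absurd (mem_bx.2 fun _ => hn) h
  calc m = ((range m).image (fun j : ℕ => (j : ℚ))).card := by
        rw [card_image_of_injective _ Nat.cast_injective, card_range]
    _ ≤ _ := card_le_card h1

lemma W_nonempty {k : ℕ} (ν : Fin k → ℚ) {n m : ℕ} (hn : 0 < n) (hm : 0 < m) :
    (W ν n m).Nonempty := card_pos.1 (hm.trans_le (le_card_W ν hn hm))

lemma W_double {k : ℕ} (ν : Fin k → ℚ) (n : ℕ) {m : ℕ} (hm : 0 < m) :
    (W ν n (2 * m)).card ≤ 2 ^ n ^ k * (W ν n m).card := by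
  classical
  have h1 : W ν n (2 * m) ⊆ comb m (W ν n m) (W ν n 2) := by
    intro w hw
    obtain ⟨α, hα, rfl⟩ := (mem_W (by omega)).1 hw
    rw [mem_comb]
    refine ⟨_, (mem_W hm).2 ⟨fun a => α a % m, fun a => Nat.mod_lt _ hm, rfl⟩, _,
      (mem_W (by norm_num)).2 ⟨fun a => α a / m, fun a => ?_, rfl⟩, ?_⟩
    · rw [Nat.div_lt_iff_lt_mul hm]
      exact hα a
    · rw [mul_sum, ← sum_add_distrib]
      refine sum_congr rfl fun a _ => ?_
      have h2 : ((α a : ℕ) : ℚ) = ((α a % m : ℕ) : ℚ) + m * ((α a / m : ℕ) : ℚ) := by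
        have := Nat.mod_add_div (α a) m
        exact_mod_cast this.symm
      rw [h2]
      ring
  refine (card_le_card h1).trans ((card_comb _ _ _).trans ?_)
  rw [mul_comm]
  exact Nat.mul_le_mul_right _ (card_W_le ν n 2)

lemma mono_update {k : ℕ} (ν : Fin k → ℚ) (a : Fin k → ℕ) (i : Fin k) :
    mono ν (Function.update a i (a i + 1)) = ν i * mono ν a := by
  classical
  unfold mono
  rw [← mul_prod_erase univ (fun j => ν j ^ a j) (mem_univ i),
    ← mul_prod_erase univ (fun j => ν j ^ (Function.update a i (a i + 1) j)) (mem_univ i)]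
  rw [Function.update_self, pow_succ, prod_congr rfl fun j hj => by
    rw [Function.update_of_ne (ne_of_mem_erase hj)]]
  ring

lemma comb_W {k : ℕ} (ν : Fin k → ℚ) (n : ℕ) {m : ℕ} (hm : 0 < m) (i : Fin k) :
    comb (ν i) (W ν n m) (W ν n m) ⊆ W ν (n + 1) (2 * m) := by
  classical
  intro w hw
  obtain ⟨x, hx, y, hy, rfl⟩ := mem_comb.1 hw
  obtain ⟨α, hα, rfl⟩ := (mem_W hm).1 hx
  obtain ⟨β, hβ, rfl⟩ := (mem_W hm).1 hy
  rw [mem_W (by omega)]
  set up : (Fin k → ℕ) → (Fin k → ℕ) := fun a => Function.update a i (a i + 1) with hup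
  set dn : (Fin k → ℕ) → (Fin k → ℕ) := fun a => Function.update a i (a i - 1) with hdn
  have hdu : ∀ a, dn (up a) = a := by
    intro a
    simp [hup, hdn]
  have hinj : Function.Injective up := Function.LeftInverse.injective hdu
  refine ⟨fun a => (if a ∈ bx k n then α a else 0) +
    (if a ∈ (bx k n).image up then β (dn a) else 0), fun a => ?_, ?_⟩
  · have := hα a
    have := hβ (dn a)
    dsimp only
    split_ifs <;> omega
  · push_cast
    simp only [add_mul, sum_add_distrib]
    have e1 : ∑ a ∈ bx k (n + 1), (((if a ∈ bx k n then α a else 0 : ℕ) : ℚ)) * mono ν a =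
        ∑ a ∈ bx k n, (α a : ℚ) * mono ν a := by
      rw [← sum_subset (s₁ := bx k n) (s₂ := bx k (n + 1))]
      · exact sum_congr rfl fun a ha => by rw [if_pos ha]
      · intro a ha
        rw [mem_bx] at ha ⊢
        exact fun j => (ha j).trans (Nat.lt_succ_self n)
      · intro a _ ha
        rw [if_neg ha]
        simp
    have e2 : ∑ a ∈ bx k (n + 1), (((if a ∈ (bx k n).image up then β (dn a) else 0 : ℕ) : ℚ)) *
        mono ν a = ν i * ∑ a ∈ bx k n, (β a : ℚ) * mono ν a := by
      rw [← sum_subset (s₁ := (bx k n).image up) (s₂ := bx k (n + 1))]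
      · rw [sum_image fun a _ b _ h => hinj h, mul_sum]
        refine sum_congr rfl fun a ha => ?_
        rw [if_pos (mem_image_of_mem up ha), hdu, hup]
        simp only
        rw [mono_update]
        ring
      · intro a ha
        obtain ⟨b, hb, rfl⟩ := mem_image.1 ha
        rw [mem_bx] at hb ⊢
        intro j
        by_cases hj : j = i
        · subst hj
          simp only [hup, Function.update_self]
          exact Nat.succ_lt_succ (hb j)
        · simp only [hup, Function.update_of_ne hj]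
          exact (hb j).trans (Nat.lt_succ_self n)
      · intro a _ ha
        rw [if_neg ha]
        simp
    push_cast at e1 e2
    rw [e1, e2]

/-- some digit set has a small boundary -/
lemma pigeonhole (k : ℕ) (η : ℝ) (hη : 0 < η) : ∃ N : ℕ, 1 ≤ N ∧ ∀ (ν : Fin k → ℚ) (m : ℕ), 2 ≤ m →
    ∃ n : ℕ, 1 ≤ n ∧ n ≤ N ∧ ((W ν (n + 1) m).card : ℝ) ≤ ((W ν n m).card : ℝ) ^ (1 + η) := by
  have hlim : Filter.Tendsto (fun n : ℕ => (n : ℝ) ^ k / (1 + η) ^ n) Filter.atTop (nhds 0) :=
    tendsto_pow_const_div_const_pow_of_one_lt k (by linarith)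
  have hpos : (0 : ℝ) < 1 / (1 + η) := by positivity
  obtain ⟨N, hN1, hN⟩ : ∃ N : ℕ, 1 ≤ N ∧ (N : ℝ) ^ k / (1 + η) ^ N < 1 / (1 + η) := by
    obtain ⟨N, h1, h2⟩ := ((hlim.eventually (gt_mem_nhds hpos)).and
      (Filter.eventually_ge_atTop 1)).exists
    exact ⟨N, h2, h1⟩
  refine ⟨N, hN1, fun ν m hm => ?_⟩
  by_contra hcon
  push Not at hcon
  have hlm : 0 < Real.log m := Real.log_pos (by exact_mod_cast (by omega : 1 < m))
  have hcard : ∀ n, 1 ≤ n → (m : ℝ) ≤ (W ν n m).card := fun n hn => by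
    exact_mod_cast le_card_W ν (by omega) (by omega)
  have hm0 : (0 : ℝ) < m := by exact_mod_cast (by omega : 0 < m)
  have key : ∀ n, 1 ≤ n → n ≤ N → (1 + η) ^ (n - 1) * Real.log m ≤ Real.log (W ν n m).card := by
    intro n hn
    induction n, hn using Nat.le_induction with
    | base =>
      intro _
      rw [Nat.sub_self, pow_zero, one_mul]
      exact Real.log_le_log hm0 (hcard 1 le_rfl)
    | succ n hn ih =>
      intro hnN
      have h1 := ih (by omega)
      have h2 := hcon n hn (by omega)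
      have h3 : 0 < ((W ν n m).card : ℝ) := hm0.trans_le (hcard n hn)
      have h4 := Real.log_le_log (Real.rpow_pos_of_pos h3 _) h2.le
      rw [Real.log_rpow h3] at h4
      have h5 : n + 1 - 1 = (n - 1) + 1 := by omega
      rw [h5, pow_succ]
      calc (1 + η) ^ (n - 1) * (1 + η) * Real.log m
          = (1 + η) * ((1 + η) ^ (n - 1) * Real.log m) := by ring
        _ ≤ (1 + η) * Real.log (W ν n m).card := mul_le_mul_of_nonneg_left h1 (by linarith)
        _ ≤ _ := h4
  have h1 := key N hN1 le_rfl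
  have h2 : Real.log (W ν N m).card ≤ (N : ℝ) ^ k * Real.log m := by
    have h3 : ((W ν N m).card : ℝ) ≤ (m : ℝ) ^ (N ^ k) := by exact_mod_cast card_W_le ν N m
    have h4 := Real.log_le_log (hm0.trans_le (hcard N hN1)) h3
    rw [Real.log_pow] at h4
    push_cast at h4
    exact h4
  have h3 : (1 + η) ^ (N - 1) ≤ (N : ℝ) ^ k := le_of_mul_le_mul_right (h1.trans h2) hlm
  rw [div_lt_div_iff₀ (by positivity) (by positivity)] at hN
  have h4 : (1 + η) ^ N = (1 + η) ^ (N - 1) * (1 + η) := by
    rw [← pow_succ]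
    congr 1
    omega
  rw [h4, one_mul] at hN
  have h5 := lt_of_mul_lt_mul_right hN (by linarith)
  linarith

end Pool.Agent.Zk73.AK
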