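import Mathlib
import Pool.Agent.Zk73.AK.D

/-! # Digit sets in several variables: the sets of points -/

set_option autoImplicit false

namespace Pool.Agent.Zk73.AK

open Finset
open Pool.Agent.R470.AK (comb mem_comb proj projInf big int_points big_pos)

/-- homogeneous parts -/
def hp {k : ℕ} (x : Fin k → ℚ) (n e : ℕ) (α : (Fin k → ℕ) → ℤ) : ℚ :=
  ∑ a ∈ (bx k n).filter (fun a => ∑ i, a i = e), (α a : ℚ) * mono x a

lemma mono_smul {k : ℕ} (u : ℚ) (x : Fin k → ℚ) (a : Fin k → ℕ) :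
    mono (fun i => u * x i) a = u ^ (∑ i, a i) * mono x a := by
  unfold mono
  simp only [mul_pow]
  rw [prod_mul_distrib, prod_pow_eq_pow_sum]

/-- the value at `u x` as a polynomial in `u` -/
noncomputable def pl {k : ℕ} (x : Fin k → ℚ) (n : ℕ) (α : (Fin k → ℕ) → ℤ) : Polynomial ℚ :=
  ∑ a ∈ bx k n, Polynomial.C ((α a : ℚ) * mono x a) * Polynomial.X ^ (∑ i, a i)

lemma eval_pl {k : ℕ} (x : Fin k → ℚ) (n : ℕ) (α : (Fin k → ℕ) → ℤ) (u : ℚ) :
    (pl x n α).eval u = ∑ a ∈ bx k n, (α a : ℚ) * mono (fun i => u * x i) a := by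
  unfold pl
  rw [Polynomial.eval_finsetSum]
  refine sum_congr rfl fun a _ => ?_
  rw [mono_smul]
  simp only [Polynomial.eval_mul, Polynomial.eval_C, Polynomial.eval_pow, Polynomial.eval_X]
  ring

lemma coeff_pl {k : ℕ} (x : Fin k → ℚ) (n : ℕ) (α : (Fin k → ℕ) → ℤ) (e : ℕ) :
    (pl x n α).coeff e = hp x n e α := by
  unfold pl hp
  rw [Polynomial.finsetSum_coeff, sum_filter]
  refine sum_congr rfl fun a _ => ?_
  rw [Polynomial.coeff_C_mul, Polynomial.coeff_X_pow]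
  by_cases h : ∑ i, a i = e
  · rw [if_pos h, if_pos h.symm, mul_one]
  · rw [if_neg h, if_neg (fun h' => h h'.symm), mul_zero]

/-- there are no small relations -/
def NoRel {k : ℕ} (x : Fin k → ℚ) (σ : ℚ) (N m : ℕ) : Prop :=
  ∀ (n e : ℕ) (α β : (Fin k → ℕ) → ℤ), n ≤ N → (∀ a, |α a| ≤ m) → (∀ a, |β a| ≤ m) →
    hp x n (e + 1) α = σ * hp x n e β → hp x n e β = 0

lemma pl_eq_zero {k : ℕ} {x : Fin k → ℚ} {σ : ℚ} {N m n : ℕ} (h : NoRel x σ N m) (hn : n ≤ N)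
    {α β : (Fin k → ℕ) → ℤ} (hα : ∀ a, |α a| ≤ m) (hβ : ∀ a, |β a| ≤ m)
    (he : pl x n α - Polynomial.C σ * (Polynomial.X * pl x n β) = 0) :
    pl x n α = 0 ∧ pl x n β = 0 := by
  have h1 : ∀ e, hp x n e β = 0 := by
    intro e
    refine h n e α β hn hα hβ ?_
    have h2 := congrArg (fun p => Polynomial.coeff p (e + 1)) he
    simp only [Polynomial.coeff_sub, Polynomial.coeff_C_mul, Polynomial.coeff_X_mul,
      Polynomial.coeff_zero, coeff_pl] at h2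
    linarith
  have h2 : pl x n β = 0 := by
    ext e
    rw [coeff_pl, h1, Polynomial.coeff_zero]
  refine ⟨?_, h2⟩
  rw [h2, mul_zero, mul_zero, sub_zero] at he
  exact he

lemma exists_u {k : ℕ} (x : Fin k → ℚ) (σ : ℚ) (N m : ℕ) (h : NoRel x σ N m) : ∃ u : ℚ,
    ∀ n ≤ N, (comb (-(σ * u)) (W (fun i => u * x i) n m) (W (fun i => u * x i) n m)).card =
      (W (fun i => u * x i) n m).card ^ 2 := by
  classical
  let Fs : ℕ → Finset ((Fin k → ℕ) →₀ ℕ) := fun n => (bx k n).finsupp fun _ => range m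
  let df : ((Fin k → ℕ) →₀ ℕ) × ((Fin k → ℕ) →₀ ℕ) → (Fin k → ℕ) → ℤ := fun q a =>
    (q.1 a : ℤ) - q.2 a
  let Q : ℕ → (((Fin k → ℕ) →₀ ℕ) × ((Fin k → ℕ) →₀ ℕ)) ×
      (((Fin k → ℕ) →₀ ℕ) × ((Fin k → ℕ) →₀ ℕ)) → Polynomial ℚ := fun n q =>
    pl x n (df q.1) - Polynomial.C σ * (Polynomial.X * pl x n (df q.2))
  obtain ⟨u, hu⟩ := Infinite.exists_notMem_finset ((range (N + 1)).biUnion fun n =>
    ((Fs n ×ˢ Fs n) ×ˢ (Fs n ×ˢ Fs n)).biUnion fun q => (Q n q).roots.toFinset)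
  refine ⟨u, fun n hn => ?_⟩
  have hFs : ∀ q ∈ Fs n ×ˢ Fs n, ∀ a, |df q a| ≤ m := by
    intro q hq a
    rw [mem_product] at hq
    have h1 : ∀ f ∈ Fs n, f a ≤ m := by
      intro f hf
      rw [mem_finsupp_iff] at hf
      by_cases ha : a ∈ bx k n
      · exact (mem_range.1 (hf.2 a ha)).le
      · have : f a = 0 := by
          by_contra h
          exact ha (hf.1 (Finsupp.mem_support_iff.2 h))
        omega
    have h2 := h1 _ hq.1
    have h3 := h1 _ hq.2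
    show |((q.1 a : ℤ) - q.2 a)| ≤ m
    rw [abs_le]
    omega
  rw [comb, card_image₂_iff.2, sq]
  rintro ⟨w, v⟩ h1 ⟨w', v'⟩ h2 he
  obtain ⟨hw, hv⟩ := h1
  obtain ⟨hw', hv'⟩ := h2
  obtain ⟨f, hf, rfl⟩ := mem_image.1 (mem_coe.1 hw)
  obtain ⟨g, hg, rfl⟩ := mem_image.1 (mem_coe.1 hv)
  obtain ⟨f', hf', rfl⟩ := mem_image.1 (mem_coe.1 hw')
  obtain ⟨g', hg', rfl⟩ := mem_image.1 (mem_coe.1 hv')
  dsimp only at he
  have hq : ((f, f'), (g, g')) ∈ (Fs n ×ˢ Fs n) ×ˢ (Fs n ×ˢ Fs n) :=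
    mem_product.2 ⟨mem_product.2 ⟨hf, hf'⟩, mem_product.2 ⟨hg, hg'⟩⟩
  have hdf : ∀ f f' : (Fin k → ℕ) →₀ ℕ, (pl x n (df (f, f'))).eval u =
      ∑ a ∈ bx k n, (f a : ℚ) * mono (fun i => u * x i) a -
        ∑ a ∈ bx k n, (f' a : ℚ) * mono (fun i => u * x i) a := by
    intro f f'
    rw [eval_pl, ← sum_sub_distrib]
    refine sum_congr rfl fun a _ => ?_
    show (((f a : ℤ) - f' a : ℤ) : ℚ) * _ = _
    push_cast
    ring
  have hev : (Q n ((f, f'), (g, g'))).eval u = 0 := by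
    show (pl x n (df (f, f')) - Polynomial.C σ * (Polynomial.X * pl x n (df (g, g')))).eval u = 0
    rw [Polynomial.eval_sub, Polynomial.eval_mul, Polynomial.eval_mul, Polynomial.eval_C,
      Polynomial.eval_X, hdf, hdf]
    linarith
  have hQ : Q n ((f, f'), (g, g')) = 0 := by
    by_contra hne
    apply hu
    rw [mem_biUnion]
    refine ⟨n, mem_range.2 (by omega), mem_biUnion.2 ⟨_, hq, ?_⟩⟩
    rw [Multiset.mem_toFinset, Polynomial.mem_roots hne]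
    exact hev
  rw [mem_product] at hq
  obtain ⟨h3, h4⟩ := pl_eq_zero h hn (hFs _ hq.1) (hFs _ hq.2) hQ
  have h5 := hdf f f'
  have h6 := hdf g g'
  rw [h3, Polynomial.eval_zero] at h5
  rw [h4, Polynomial.eval_zero] at h6
  have h7 : ∑ a ∈ bx k n, (f a : ℚ) * mono (fun i => u * x i) a =
    ∑ a ∈ bx k n, (f' a : ℚ) * mono (fun i => u * x i) a := by linarith
  have h8 : ∑ a ∈ bx k n, (g a : ℚ) * mono (fun i => u * x i) a =
    ∑ a ∈ bx k n, (g' a : ℚ) * mono (fun i => u * x i) a := by linarith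
  rw [h7, h8]

/-- the points -/
lemma points {k : ℕ} (s0 : ℚ) (x : Fin k → ℚ) (N m : ℕ) (hm : 2 ≤ m) (η : ℝ) (hη : 0 < η)
    (h : NoRel x (s0 + 1) N m) (hmη : (2 : ℝ) ^ ((N + 1) ^ k) ≤ (m : ℝ) ^ η)
    (hN : ∀ (ν : Fin k → ℚ), ∃ n : ℕ, 1 ≤ n ∧ n ≤ N ∧
      ((W ν (n + 1) m).card : ℝ) ≤ ((W ν n m).card : ℝ) ^ (1 + η)) :
    ∃ (A : Finset (ℤ × ℤ)) (V : ℕ), A.Nonempty ∧ 2 ≤ V ∧ (proj (-1) A).card = V ^ 2 ∧
      (projInf A).card ≤ V ∧ (proj s0 A).card ≤ V ∧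
      ∀ i, ((proj (s0 + x i) A).card : ℝ) ≤ (V : ℝ) ^ (1 + 2 * η) := by
  classical
  obtain ⟨u, hu⟩ := exists_u x (s0 + 1) N m h
  obtain ⟨n, hn1, hnN, hn⟩ := hN fun i => u * x i
  set ν : Fin k → ℚ := fun i => u * x i with hν
  set D := W ν n m with hD
  have hDm : m ≤ D.card := le_card_W ν (by omega) (by omega)
  set B : Finset (ℚ × ℚ) := (D ×ˢ D).image fun p => (p.1 - s0 * (u * p.2), u * p.2) with hB
  obtain ⟨A, hA0, hA1, hA2⟩ := int_points B
  have hDne : D.Nonempty := card_pos.1 (by omega)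
  have hBr : ∀ r : ℚ, (B.image fun p => p.1 + r * p.2) = comb ((r - s0) * u) D D := by
    intro r
    rw [hB, image_image]
    ext w
    rw [mem_comb, mem_image]
    constructor
    · rintro ⟨p, hp, rfl⟩
      rw [mem_product] at hp
      exact ⟨p.1, hp.1, p.2, hp.2, by simp only [Function.comp]; ring⟩
    · rintro ⟨x, hx, y, hy, rfl⟩
      exact ⟨(x, y), mem_product.2 ⟨hx, hy⟩, by simp only [Function.comp]; ring⟩
  refine ⟨A, D.card, hA0 ((hDne.product hDne).image _), by omega, ?_, ?_, ?_, ?_⟩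
  · rw [hA1, hBr]
    have : (-1 - s0) * u = -((s0 + 1) * u) := by ring
    rw [this]
    exact hu n hnN
  · rw [hA2, hB, image_image]
    calc ((D ×ˢ D).image ((fun p : ℚ × ℚ => p.2) ∘ fun p => (p.1 - s0 * (u * p.2), u * p.2))).card
        ≤ (D.image fun y => u * y).card := by
          refine card_le_card fun w hw => ?_
          obtain ⟨p, hp, rfl⟩ := mem_image.1 hw
          exact mem_image.2 ⟨p.2, (mem_product.1 hp).2, rfl⟩
      _ ≤ D.card := card_image_le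
  · rw [hA1, hBr]
    have : (s0 - s0) * u = 0 := by ring
    rw [this]
    refine card_le_card fun w hw => ?_
    obtain ⟨x, hx, y, _, rfl⟩ := mem_comb.1 hw
    rw [zero_mul, add_zero]
    exact hx
  · intro i
    rw [hA1, hBr]
    have : (s0 + x i - s0) * u = ν i := by rw [hν]; ring
    rw [this]
    have h1 : (comb (ν i) D D).card ≤ 2 ^ (n + 1) ^ k * (W ν (n + 1) m).card :=
      (card_le_card (comb_W ν n (by omega) i)).trans (W_double ν (n + 1) (by omega))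
    have h2 : ((2 : ℝ) ^ ((n + 1) ^ k)) ≤ (D.card : ℝ) ^ η := by
      calc ((2 : ℝ) ^ ((n + 1) ^ k)) ≤ (2 : ℝ) ^ ((N + 1) ^ k) :=
            pow_le_pow_right₀ (by norm_num) (Nat.pow_le_pow_left (by omega) k)
        _ ≤ (m : ℝ) ^ η := hmη
        _ ≤ _ := Real.rpow_le_rpow (by positivity) (by exact_mod_cast hDm) hη.le
    have hD0 : (0 : ℝ) < D.card := by exact_mod_cast (by omega : 0 < D.card)
    calc ((comb (ν i) D D).card : ℝ) ≤ (2 : ℝ) ^ ((n + 1) ^ k) * (W ν (n + 1) m).card := by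
          exact_mod_cast h1
      _ ≤ (D.card : ℝ) ^ η * (D.card : ℝ) ^ (1 + η) :=
          mul_le_mul h2 hn (Nat.cast_nonneg _) (by positivity)
      _ = (D.card : ℝ) ^ (1 + 2 * η) := by
          rw [← Real.rpow_add hD0]
          congr 1
          ring

end Pool.Agent.Zk73.AK
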