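import Mathlib
import Pool.Agent.Zk73.AK.E

/-! # Useful tuples of slopes are simple -/

set_option autoImplicit false

namespace Pool.Agent.Zk73.AK

open Finset
open Pool.Agent.R470.AK (comb mem_comb proj projInf big int_points big_pos)

/-- the target is a simple function of the slopes -/
def Simple {k : ℕ} (L : ℕ) (s : Fin (k + 1) → ℚ) : Prop :=
  ∃ (e : ℕ) (a b : MvPolynomial (Fin k) ℤ), e ≤ L ∧ a.IsHomogeneous (e + 1) ∧ b.IsHomogeneous e ∧
    (∀ μ, |a.coeff μ| ≤ L) ∧ (∀ μ, |b.coeff μ| ≤ L) ∧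
    MvPolynomial.aeval (fun i => s i.succ - s 0) b ≠ 0 ∧
    MvPolynomial.aeval (fun i => s i.succ - s 0) a =
      (s 0 + 1) * MvPolynomial.aeval (fun i => s i.succ - s 0) b

/-- the polynomial with given coefficients -/
noncomputable def mkp {k : ℕ} (n e : ℕ) (α : (Fin k → ℕ) → ℤ) : MvPolynomial (Fin k) ℤ :=
  ∑ a ∈ (bx k n).filter (fun a => ∑ i, a i = e),
    MvPolynomial.monomial (Finsupp.equivFunOnFinite.symm a) (α a)

lemma mkp_hom {k : ℕ} (n e : ℕ) (α : (Fin k → ℕ) → ℤ) : (mkp n e α).IsHomogeneous e := by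
  refine MvPolynomial.IsHomogeneous.sum _ _ _ fun a ha => ?_
  refine MvPolynomial.isHomogeneous_monomial _ ?_
  rw [mem_filter] at ha
  rw [Finsupp.degree_eq_sum]
  simpa using ha.2

lemma mkp_aeval {k : ℕ} (n e : ℕ) (α : (Fin k → ℕ) → ℤ) (x : Fin k → ℚ) :
    MvPolynomial.aeval x (mkp n e α) = hp x n e α := by
  unfold mkp hp
  rw [map_sum]
  refine sum_congr rfl fun a _ => ?_
  rw [MvPolynomial.aeval_monomial, Finsupp.prod_fintype _ _ (fun i => pow_zero _)]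
  simp [mono]

lemma mkp_coeff {k : ℕ} (n e : ℕ) (α : (Fin k → ℕ) → ℤ) {m : ℕ} (hα : ∀ a, |α a| ≤ m)
    (μ : Fin k →₀ ℕ) : |(mkp n e α).coeff μ| ≤ m := by
  classical
  unfold mkp
  rw [MvPolynomial.coeff_sum]
  simp only [MvPolynomial.coeff_monomial]
  have h1 : ∀ a : Fin k → ℕ, (Finsupp.equivFunOnFinite.symm a = μ) ↔ (a = (μ : Fin k → ℕ)) := by
    intro a
    constructor
    · rintro rfl
      simp
    · intro h
      subst h
      simp
  simp only [h1]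
  rw [sum_ite_eq']
  split_ifs
  · exact hα _
  · simp

lemma noRel {k : ℕ} {s : Fin (k + 1) → ℚ} {L N m : ℕ} (h : ¬ Simple L s) (hm : m ≤ L)
    (hN : k * N ≤ L) : NoRel (fun i => s i.succ - s 0) (s 0 + 1) N m := by
  intro n e α β hn hα hβ he
  by_contra h0
  apply h
  have hmL : ∀ γ : (Fin k → ℕ) → ℤ, (∀ a, |γ a| ≤ m) → ∀ a, |γ a| ≤ L := fun γ hγ a =>
    (hγ a).trans (by exact_mod_cast hm)
  refine ⟨e, mkp n (e + 1) α, mkp n e β, ?_, mkp_hom _ _ _, mkp_hom _ _ _,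
    mkp_coeff n (e + 1) α (hmL α hα), mkp_coeff n e β (hmL β hβ), ?_, ?_⟩
  · have hne : ((bx k n).filter (fun a => ∑ i, a i = e)).Nonempty := by
      by_contra hne
      rw [not_nonempty_iff_eq_empty] at hne
      apply h0
      unfold hp
      rw [hne, sum_empty]
    obtain ⟨a, ha⟩ := hne
    rw [mem_filter, mem_bx] at ha
    rw [← ha.2]
    calc ∑ i, a i ≤ ∑ _i : Fin k, N := sum_le_sum fun i _ => ((ha.1 i).le).trans hn
      _ = k * N := by simp
      _ ≤ L := hN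
  · rw [mkp_aeval]
    exact h0
  · rw [mkp_aeval, mkp_aeval]
    exact he

lemma big_le_real {S : Finset ℚ} {A : Finset (ℤ × ℤ)} {T : ℝ} (h0 : 0 ≤ T)
    (h1 : ((projInf A).card : ℝ) ≤ T) (h2 : ∀ r ∈ S, ((proj r A).card : ℝ) ≤ T) :
    (big S A : ℝ) ≤ T := by
  unfold big
  rcases le_total (projInf A).card (S.sup fun r => (proj r A).card) with h | h
  · rw [max_eq_right h]
    rcases S.eq_empty_or_nonempty with hS0 | hS0
    · subst hS0
      rw [sup_empty]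
      simpa using h0
    · obtain ⟨r, hrS, hre⟩ := exists_mem_eq_sup S hS0 fun r => (proj r A).card
      rw [hre]
      exact h2 r hrS
  · rw [max_eq_left h]
    exact h1

/-- useful tuples are simple -/
theorem part2 (k : ℕ) (κ : ℝ) (hκ : κ < 2) : ∃ L : ℕ, ∀ s : Fin (k + 1) → ℚ,
    Useful κ (univ.image s) → Simple L s := by
  classical
  set κ' : ℝ := max κ 0 with hκ'
  have hκ0 : 0 ≤ κ' := le_max_right _ _
  have hκ2 : κ' < 2 := max_lt hκ (by norm_num)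
  set η : ℝ := (2 - κ') / 8 with hη
  have hη0 : 0 < η := by rw [hη]; linarith
  obtain ⟨N, hN1, hN⟩ := pigeonhole k η hη0
  obtain ⟨m, hm⟩ := exists_nat_ge (max (((2 : ℝ) ^ ((N + 1) ^ k)) ^ (1 / η)) 2)
  have hm2 : 2 ≤ m := by exact_mod_cast (le_max_right _ _).trans hm
  have hmη : (2 : ℝ) ^ ((N + 1) ^ k) ≤ (m : ℝ) ^ η := by
    have h1 : (((2 : ℝ) ^ ((N + 1) ^ k)) ^ (1 / η)) ^ η ≤ (m : ℝ) ^ η :=
      Real.rpow_le_rpow (by positivity) ((le_max_left _ _).trans hm) hη0.le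
    rwa [← Real.rpow_mul (by positivity), one_div_mul_cancel hη0.ne', Real.rpow_one] at h1
  refine ⟨max m (k * N), fun s hs => ?_⟩
  by_contra hsim
  have hno := noRel hsim (le_max_left _ _) (le_max_right _ _)
  obtain ⟨A, V, hA, hV, a1, a2, a3, a4⟩ := points (s 0) (fun i => s i.succ - s 0) N m hm2 η hη0
    hno hmη fun ν => hN ν m hm2
  obtain ⟨C, hC⟩ := hs
  have hVR : (2 : ℝ) ≤ V := by exact_mod_cast hV
  have hV1 : (1 : ℝ) ≤ V := by linarith
  have hV0 : (0 : ℝ) < V := by linarith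
  -- all projections
  have hall : ∀ r ∈ univ.image s, ((proj r A).card : ℝ) ≤ (V : ℝ) ^ (1 + 2 * η) := by
    intro r hr
    obtain ⟨i, -, rfl⟩ := mem_image.1 hr
    refine Fin.cases ?_ (fun i => ?_) i
    · calc ((proj (s 0) A).card : ℝ) ≤ V := by exact_mod_cast a3
        _ = (V : ℝ) ^ (1 : ℝ) := (Real.rpow_one _).symm
        _ ≤ _ := Real.rpow_le_rpow_of_exponent_le hV1 (by linarith)
    · have := a4 i
      rwa [add_sub_cancel] at this
  have hinf : ((projInf A).card : ℝ) ≤ (V : ℝ) ^ (1 + 2 * η) := by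
    calc ((projInf A).card : ℝ) ≤ V := by exact_mod_cast a2
      _ = (V : ℝ) ^ (1 : ℝ) := (Real.rpow_one _).symm
      _ ≤ _ := Real.rpow_le_rpow_of_exponent_le hV1 (by linarith)
  -- powers
  set δ : ℝ := 2 - (1 + 2 * η) * κ' with hδ
  have hδ0 : 0 < δ := by
    rw [hδ, hη]
    nlinarith
  have hgr : Filter.Tendsto (fun t : ℕ => ((V : ℝ) ^ δ) ^ t) Filter.atTop Filter.atTop :=
    tendsto_pow_atTop_atTop_of_one_lt (Real.one_lt_rpow (by linarith) hδ0)
  obtain ⟨t, ht⟩ := (hgr.eventually (Filter.eventually_gt_atTop C)).exists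
  obtain ⟨B, hB, b1, b2, b3⟩ := prods (fun _ => A) t fun _ _ => hA
  simp only [prod_const, card_range] at b1 b2 b3
  have hbig : (big (univ.image s) B : ℝ) ≤ ((V : ℝ) ^ (1 + 2 * η)) ^ t := by
    refine big_le_real (by positivity) ?_ fun r hr => ?_
    · calc ((projInf B).card : ℝ) ≤ ((projInf A).card : ℝ) ^ t := by exact_mod_cast b3
        _ ≤ _ := pow_le_pow_left₀ (Nat.cast_nonneg _) hinf t
    · calc ((proj r B).card : ℝ) ≤ ((proj r A).card : ℝ) ^ t := by exact_mod_cast b2 r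
        _ ≤ _ := pow_le_pow_left₀ (Nat.cast_nonneg _) (hall r hr) t
  have hb1 : (1 : ℝ) ≤ big (univ.image s) B := by exact_mod_cast big_pos hB
  have hbκ : (big (univ.image s) B : ℝ) ^ κ ≤ ((V : ℝ) ^ ((1 + 2 * η) * κ')) ^ t := by
    calc (big (univ.image s) B : ℝ) ^ κ ≤ (big (univ.image s) B : ℝ) ^ κ' :=
          Real.rpow_le_rpow_of_exponent_le hb1 (le_max_left _ _)
      _ ≤ (((V : ℝ) ^ (1 + 2 * η)) ^ t) ^ κ' := Real.rpow_le_rpow (by linarith) hbig hκ0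
      _ = ((V : ℝ) ^ ((1 + 2 * η) * κ')) ^ t := by
          rw [← Real.rpow_natCast, ← Real.rpow_natCast, ← Real.rpow_mul hV0.le,
            ← Real.rpow_mul hV0.le, ← Real.rpow_mul hV0.le]
          congr 1
          ring
  have h1 := hC B
  rw [b1, a1] at h1
  have h2 : (((V ^ 2) ^ t : ℕ) : ℝ) = ((V : ℝ) ^ δ) ^ t * ((V : ℝ) ^ ((1 + 2 * η) * κ')) ^ t := by
    rw [← mul_pow, ← Real.rpow_add hV0]
    have : δ + (1 + 2 * η) * κ' = ((2 : ℕ) : ℝ) := by rw [hδ]; push_cast; ring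
    rw [this, Real.rpow_natCast]
    push_cast
    rfl
  rw [h2] at h1
  have hpos : 0 < ((V : ℝ) ^ ((1 + 2 * η) * κ')) ^ t := by positivity
  have hC0 : 0 ≤ (big (univ.image s) B : ℝ) ^ κ := by positivity
  rcases le_or_gt C 0 with hC' | hC'
  · have h3 : C * (big (univ.image s) B : ℝ) ^ κ ≤ 0 := mul_nonpos_of_nonpos_of_nonneg hC' hC0
    have h4 : 0 < ((V : ℝ) ^ δ) ^ t * ((V : ℝ) ^ ((1 + 2 * η) * κ')) ^ t := by positivity
    linarith
  · have h3 : C * (big (univ.image s) B : ℝ) ^ κ ≤ C * ((V : ℝ) ^ ((1 + 2 * η) * κ')) ^ t :=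
      mul_le_mul_of_nonneg_left hbκ hC'.le
    have h4 : C * ((V : ℝ) ^ ((1 + 2 * η) * κ')) ^ t <
        ((V : ℝ) ^ δ) ^ t * ((V : ℝ) ^ ((1 + 2 * η) * κ')) ^ t := mul_lt_mul_of_pos_right ht hpos
    linarith

end Pool.Agent.Zk73.AK
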