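import Mathlib

/-! # A graph lemma: dense sets of points contain rich and well connected products -/

set_option autoImplicit false

namespace Pool.Agent.Zk73.AK

open Finset

theorem graph3 {α β : Type*} [DecidableEq α] [DecidableEq β] (A : Finset (α × β)) (M K : ℝ)
    (hK : 1 ≤ K)
    (hM : 0 < M) (hX : ((A.image Prod.fst).card : ℝ) ≤ M) (hY : ((A.image Prod.snd).card : ℝ) ≤ M)
    (hA : M ^ 2 ≤ K * A.card) :
    ∃ (W : Finset α) (Y : Finset β), W ⊆ A.image Prod.fst ∧ Y ⊆ A.image Prod.snd ∧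
      (∀ w ∈ W, ∀ y ∈ Y, M ^ 2 ≤ 2 ^ 15 * K ^ 5 *
        ((A.filter fun p => (w, p.2) ∈ A ∧ (p.1, y) ∈ A).card : ℝ)) ∧
      M ^ 2 ≤ 12 * K ^ 2 * ((A.filter fun p => p.1 ∈ W ∧ p.2 ∈ Y).card : ℝ) := by
  classical
  set X := A.image Prod.fst with hXd
  set Y₁ := A.image Prod.snd with hYd
  have hK0 : 0 < K := by linarith
  set a : α → β → ℝ := fun x y => if (x, y) ∈ A then 1 else 0 with ha
  have ha0 : ∀ x y, 0 ≤ a x y := fun x y => by simp only [ha]; split_ifs <;> norm_num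
  have ha1 : ∀ x y, a x y ≤ 1 := fun x y => by simp only [ha]; split_ifs <;> norm_num
  have hmem : ∀ p ∈ A, p.1 ∈ X ∧ p.2 ∈ Y₁ := fun p hp =>
    ⟨mem_image_of_mem _ hp, mem_image_of_mem _ hp⟩
  -- counting points
  have hcount : ∀ (W : Finset α) (Y : Finset β),
      ((A.filter fun p => p.1 ∈ W ∧ p.2 ∈ Y).card : ℝ) = ∑ y ∈ Y, ∑ x ∈ W, a x y := by
    intro W Y
    have h1 : (A.filter fun p => p.1 ∈ W ∧ p.2 ∈ Y) = (W ×ˢ Y).filter fun p => p ∈ A := by
      ext p
      simp only [mem_filter, mem_product]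
      tauto
    rw [h1, card_filter, Nat.cast_sum, sum_product_right]
    refine sum_congr rfl fun y _ => sum_congr rfl fun x _ => ?_
    simp only [ha]
    split_ifs <;> simp
  have hAc : (A.card : ℝ) = ∑ y ∈ Y₁, ∑ x ∈ X, a x y := by
    rw [← hcount X Y₁]
    congr 2
    rw [filter_true_of_mem]
    intro p hp
    exact hmem p hp
  set deg : β → ℝ := fun y => ∑ x ∈ X, a x y with hdeg
  set Y₀ := Y₁.filter fun y => M / (2 * K) ≤ deg y with hY₀
  have hY₀c : (Y₀.card : ℝ) ≤ M := (Nat.cast_le.2 (card_filter_le _ _)).trans hY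
  have hA0 : M ^ 2 / (2 * K) ≤ ∑ y ∈ Y₀, deg y := by
    have h1 : ∑ y ∈ Y₁, deg y ≤ ∑ y ∈ Y₀, deg y + M * (M / (2 * K)) := by
      rw [hY₀, ← sum_filter_add_sum_filter_not Y₁ (fun y => M / (2 * K) ≤ deg y)]
      refine add_le_add le_rfl ?_
      calc ∑ y ∈ Y₁.filter (fun y => ¬ M / (2 * K) ≤ deg y), deg y
          ≤ ∑ _y ∈ Y₁.filter (fun y => ¬ M / (2 * K) ≤ deg y), M / (2 * K) :=
            sum_le_sum fun y hy => (not_le.1 (mem_filter.1 hy).2).le
        _ = ((Y₁.filter (fun y => ¬ M / (2 * K) ≤ deg y)).card : ℝ) * (M / (2 * K)) := by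
            rw [sum_const, nsmul_eq_mul]
        _ ≤ M * (M / (2 * K)) := by
            refine mul_le_mul_of_nonneg_right ?_ (by positivity)
            exact (Nat.cast_le.2 (card_filter_le _ _)).trans hY
    have h2 : M ^ 2 / K ≤ ∑ y ∈ Y₁, deg y := by
      rw [div_le_iff₀ hK0, ← hAc]
      linarith
    have h3 : M ^ 2 / (2 * K) = M ^ 2 / K - M * (M / (2 * K)) := by
      field_simp
      ring
    linarith
  -- constants
  set δ : ℝ := 1 / (64 * K) with hδ
  set θ : ℝ := 1 / (512 * K ^ 3) with hθ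
  have hδ0 : 0 < δ := by positivity
  have hθ0 : 0 < θ := by positivity
  set cod : β → β → ℝ := fun y y' => ∑ x ∈ X, a x y * a x y' with hcod
  set b : β → β → ℝ := fun y y' => if θ * M ≤ cod y y' then 0 else 1 with hb
  have hb0 : ∀ y y', 0 ≤ b y y' := fun y y' => by simp only [hb]; split_ifs <;> norm_num
  set Nb : α → ℝ := fun x => ∑ y ∈ Y₀, a x y with hNb
  set bc : α → ℝ := fun x => ∑ y ∈ Y₀, ∑ y' ∈ Y₀, a x y * a x y' * b y y' with hbc
  have hbcsum : ∑ x ∈ X, bc x ≤ θ * M ^ 3 := by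
    have h1 : ∑ x ∈ X, bc x = ∑ y ∈ Y₀, ∑ y' ∈ Y₀, b y y' * cod y y' := by
      simp only [hbc]
      rw [sum_comm]
      refine sum_congr rfl fun y _ => ?_
      rw [sum_comm]
      refine sum_congr rfl fun y' _ => ?_
      rw [hcod, mul_sum]
      exact sum_congr rfl fun x _ => by ring
    rw [h1]
    calc ∑ y ∈ Y₀, ∑ y' ∈ Y₀, b y y' * cod y y' ≤ ∑ _y ∈ Y₀, ∑ _y' ∈ Y₀, θ * M := by
          refine sum_le_sum fun y _ => sum_le_sum fun y' _ => ?_
          simp only [hb]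
          split_ifs with h2
          · rw [zero_mul]; positivity
          · rw [one_mul]; exact (not_le.1 h2).le
      _ = (Y₀.card : ℝ) * Y₀.card * (θ * M) := by
          rw [sum_const, sum_const, nsmul_eq_mul, nsmul_eq_mul]; ring
      _ ≤ M * M * (θ * M) := by
          refine mul_le_mul_of_nonneg_right ?_ (by positivity)
          exact mul_le_mul hY₀c hY₀c (Nat.cast_nonneg _) hM.le
      _ = θ * M ^ 3 := by ring
  have hNsum : ∑ x ∈ X, Nb x = ∑ y ∈ Y₀, deg y := by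
    simp only [hNb, hdeg]
    exact sum_comm
  have hcs : M ^ 3 / (4 * K ^ 2) ≤ ∑ x ∈ X, Nb x ^ 2 := by
    have h1 : (∑ x ∈ X, Nb x) ^ 2 ≤ X.card * ∑ x ∈ X, Nb x ^ 2 := sq_sum_le_card_mul_sum_sq
    have h2 : (M ^ 2 / (2 * K)) ^ 2 ≤ (∑ x ∈ X, Nb x) ^ 2 := by
      rw [hNsum]
      exact pow_le_pow_left₀ (by positivity) hA0 2
    have h3 : (0 : ℝ) ≤ ∑ x ∈ X, Nb x ^ 2 := sum_nonneg fun x _ => sq_nonneg _
    have h4 : (M ^ 2 / (2 * K)) ^ 2 ≤ M * ∑ x ∈ X, Nb x ^ 2 :=
      h2.trans (h1.trans (mul_le_mul_of_nonneg_right hX h3))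
    have h5 : (M ^ 2 / (2 * K)) ^ 2 = M * (M ^ 3 / (4 * K ^ 2)) := by
      field_simp
      ring
    rw [h5] at h4
    exact le_of_mul_le_mul_left h4 hM
  -- a good point
  obtain ⟨x₀, hx₀, hg⟩ : ∃ x₀ ∈ X, M ^ 2 / (8 * K ^ 2) ≤ Nb x₀ ^ 2 - bc x₀ / δ := by
    by_contra hcon
    push Not at hcon
    have hXne : X.Nonempty := by
      rw [nonempty_iff_ne_empty]
      intro h0
      rw [h0] at hcs
      simp only [sum_empty] at hcs
      have : 0 < M ^ 3 / (4 * K ^ 2) := by positivity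
      linarith
    have h1 : ∑ x ∈ X, (Nb x ^ 2 - bc x / δ) < ∑ _x ∈ X, M ^ 2 / (8 * K ^ 2) :=
      sum_lt_sum_of_nonempty hXne hcon
    rw [sum_const, nsmul_eq_mul, sum_sub_distrib, ← sum_div] at h1
    have h2 : (X.card : ℝ) * (M ^ 2 / (8 * K ^ 2)) ≤ M * (M ^ 2 / (8 * K ^ 2)) :=
      mul_le_mul_of_nonneg_right hX (by positivity)
    have h3 : (∑ x ∈ X, bc x) / δ ≤ θ * M ^ 3 / δ := div_le_div_of_nonneg_right hbcsum hδ0.le
    have h4 : θ * M ^ 3 / δ = M ^ 3 / (8 * K ^ 2) := by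
      rw [hθ, hδ]
      field_simp
      ring
    have h5 : M * (M ^ 2 / (8 * K ^ 2)) = M ^ 3 / (8 * K ^ 2) := by ring
    have h6 : M ^ 3 / (4 * K ^ 2) = M ^ 3 / (8 * K ^ 2) + M ^ 3 / (8 * K ^ 2) := by
      field_simp
      ring
    linarith
  have hbc0 : 0 ≤ bc x₀ := sum_nonneg fun y _ => sum_nonneg fun y' _ =>
    mul_nonneg (mul_nonneg (ha0 _ _) (ha0 _ _)) (hb0 _ _)
  set V := Y₀.filter fun y => (x₀, y) ∈ A with hV
  set v : ℝ := (V.card : ℝ) with hv
  have hNv : Nb x₀ = v := by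
    rw [hv, hV, card_filter, Nat.cast_sum]
    refine sum_congr rfl fun y _ => ?_
    simp only [ha]
    split_ifs <;> simp
  have hv0 : 0 ≤ v := Nat.cast_nonneg _
  have hvM : v ≤ M := (Nat.cast_le.2 (card_filter_le _ _)).trans hY₀c
  rw [hNv] at hg
  have hv3 : M ≤ 3 * K * v := by
    have h1 : M ^ 2 / (8 * K ^ 2) ≤ v ^ 2 := by
      have : 0 ≤ bc x₀ / δ := by positivity
      linarith
    rw [div_le_iff₀ (by positivity)] at h1
    refine le_of_sq_le_sq ?_ (by positivity)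
    nlinarith [mul_nonneg (sq_nonneg K) (sq_nonneg v)]
  have hvpos : 0 < v := by
    rcases hv0.lt_or_eq with h | h
    · exact h
    · rw [← h] at hv3
      linarith
  have hbcv : bc x₀ ≤ δ * v ^ 2 := by
    have h1 : 0 ≤ v ^ 2 - bc x₀ / δ := le_trans (by positivity) hg
    have h2 : bc x₀ / δ ≤ v ^ 2 := by linarith
    rw [div_le_iff₀ hδ0] at h2
    linarith
  have hbcV : bc x₀ = ∑ y ∈ V, ∑ y' ∈ V, b y y' := by
    have hsV : ∀ f : β → ℝ, ∑ y ∈ V, f y = ∑ y ∈ Y₀, a x₀ y * f y := by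
      intro f
      calc ∑ y ∈ V, f y = ∑ y ∈ Y₀, (if (x₀, y) ∈ A then f y else 0) := sum_filter _ _
        _ = _ := by
          refine sum_congr rfl fun y _ => ?_
          simp only [ha]
          split_ifs <;> ring
    rw [hsV]
    refine sum_congr rfl fun y _ => ?_
    rw [hsV, mul_sum]
    exact sum_congr rfl fun y' _ => by ring
  set Y' := V.filter fun y => ∑ y' ∈ V, b y y' ≤ 4 * δ * v with hY'
  set W' := X.filter fun x => 8 * δ * v ≤ ∑ y ∈ V, a x y with hW'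
  have hVY : V ⊆ Y₁ := (filter_subset _ _).trans (filter_subset _ _)
  refine ⟨W', Y', filter_subset _ _, (filter_subset _ _).trans hVY, ?_, ?_⟩
  · -- the number of paths
    intro w hw y hy
    have hw2 := (mem_filter.1 hw).2
    have hy2 := (mem_filter.1 hy).2
    have h1 : ∑ y₁ ∈ V, ∑ x ∈ X, a x y₁ * a w y₁ * a x y ≤
        ((A.filter fun p => (w, p.2) ∈ A ∧ (p.1, y) ∈ A).card : ℝ) := by
      have h2 : ((X ×ˢ V).filter fun p => p ∈ A ∧ (w, p.2) ∈ A ∧ (p.1, y) ∈ A) ⊆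
          (A.filter fun p => (w, p.2) ∈ A ∧ (p.1, y) ∈ A) := by
        intro p hp
        rw [mem_filter] at hp ⊢
        exact hp.2
      refine le_trans (le_of_eq ?_) (Nat.cast_le.2 (card_le_card h2))
      rw [card_filter, Nat.cast_sum, sum_product_right]
      refine sum_congr rfl fun y₁ _ => sum_congr rfl fun x _ => ?_
      by_cases c1 : (x, y₁) ∈ A <;> by_cases c2 : (w, y₁) ∈ A <;> by_cases c3 : (x, y) ∈ A <;>
        simp [ha, c1, c2, c3]
    have h2 : 4 * δ * v * (θ * M) ≤ ∑ y₁ ∈ V, ∑ x ∈ X, a x y₁ * a w y₁ * a x y := by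
      have h3 : ∀ y₁ ∈ V, (a w y₁ - b y y₁) * (θ * M) ≤ ∑ x ∈ X, a x y₁ * a w y₁ * a x y := by
        intro y₁ _
        have h4 : ∑ x ∈ X, a x y₁ * a w y₁ * a x y = a w y₁ * cod y y₁ := by
          rw [hcod, mul_sum]
          exact sum_congr rfl fun x _ => by ring
        rw [h4]
        have h5 : 0 ≤ cod y y₁ := sum_nonneg fun x _ => mul_nonneg (ha0 _ _) (ha0 _ _)
        have h6 := ha0 w y₁
        have h7 := ha1 w y₁
        have hθM : 0 ≤ θ * M := by positivity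
        by_cases hc : θ * M ≤ cod y y₁
        · have : b y y₁ = 0 := by simp only [hb]; rw [if_pos hc]
          rw [this, sub_zero]
          exact mul_le_mul_of_nonneg_left hc h6
        · have : b y y₁ = 1 := by simp only [hb]; rw [if_neg hc]
          rw [this]
          have h8 : (a w y₁ - 1) * (θ * M) ≤ 0 :=
            mul_nonpos_of_nonpos_of_nonneg (by linarith) hθM
          have h9 : 0 ≤ a w y₁ * cod y y₁ := mul_nonneg h6 h5
          linarith
      calc 4 * δ * v * (θ * M) ≤ (∑ y₁ ∈ V, a w y₁ - ∑ y₁ ∈ V, b y y₁) * (θ * M) := by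
            refine mul_le_mul_of_nonneg_right ?_ (by positivity)
            linarith
        _ = ∑ y₁ ∈ V, (a w y₁ - b y y₁) * (θ * M) := by
            rw [← sum_sub_distrib, sum_mul]
        _ ≤ _ := sum_le_sum h3
    have h3 : M ^ 2 ≤ 2 ^ 15 * K ^ 5 * (4 * δ * v * (θ * M)) := by
      have h4 : 2 ^ 15 * K ^ 5 * (4 * δ * v * (θ * M)) = 4 * K * v * M := by
        rw [hδ, hθ]
        field_simp
        norm_num
      rw [h4]
      have h5 : M * M ≤ 3 * K * v * M := mul_le_mul_of_nonneg_right hv3 hM.le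
      have h6 : 0 ≤ K * v * M := by positivity
      nlinarith
    refine h3.trans (mul_le_mul_of_nonneg_left (h2.trans h1) (by positivity))
  · -- the number of points
    rw [hcount]
    have hY'c : 3 / 4 * v ≤ Y'.card := by
      have h1 : v = Y'.card + (V.filter fun y => ¬ ∑ y' ∈ V, b y y' ≤ 4 * δ * v).card := by
        rw [hv, hY', ← Nat.cast_add, card_filter_add_card_filter_not]
      have h2 : ((V.filter fun y => ¬ ∑ y' ∈ V, b y y' ≤ 4 * δ * v).card : ℝ) * (4 * δ * v) ≤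
          δ * v ^ 2 := by
        refine le_trans ?_ (hbcV ▸ hbcv)
        rw [← nsmul_eq_mul]
        refine (card_nsmul_le_sum _ (fun y => ∑ y' ∈ V, b y y') _ fun y hy =>
          (not_le.1 (mem_filter.1 hy).2).le).trans ?_
        exact sum_le_sum_of_subset_of_nonneg (filter_subset _ _)
          fun y _ _ => sum_nonneg fun y' _ => hb0 _ _
      have h3 : ((V.filter fun y => ¬ ∑ y' ∈ V, b y y' ≤ 4 * δ * v).card : ℝ) ≤ v / 4 := by
        have h4 : 0 < 4 * δ * v := mul_pos (mul_pos (by norm_num) hδ0) hvpos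
        refine le_of_mul_le_mul_right (h2.trans (le_of_eq ?_)) h4
        ring
      linarith
    have h1 : ∑ y ∈ Y', deg y = ∑ y ∈ Y', ∑ x ∈ W', a x y +
        ∑ y ∈ Y', ∑ x ∈ X.filter (fun x => ¬ 8 * δ * v ≤ ∑ y ∈ V, a x y), a x y := by
      rw [← sum_add_distrib]
      refine sum_congr rfl fun y _ => ?_
      rw [hW', sum_filter_add_sum_filter_not]
    have h2 : ∑ y ∈ Y', ∑ x ∈ X.filter (fun x => ¬ 8 * δ * v ≤ ∑ y ∈ V, a x y), a x y ≤
        M * (8 * δ * v) := by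
      rw [sum_comm]
      calc ∑ x ∈ X.filter (fun x => ¬ 8 * δ * v ≤ ∑ y ∈ V, a x y), ∑ y ∈ Y', a x y
          ≤ ∑ _x ∈ X.filter (fun x => ¬ 8 * δ * v ≤ ∑ y ∈ V, a x y), 8 * δ * v := by
            refine sum_le_sum fun x hx => ?_
            refine le_trans ?_ (not_le.1 (mem_filter.1 hx).2).le
            exact sum_le_sum_of_subset_of_nonneg (filter_subset _ _) fun y _ _ => ha0 _ _
        _ = ((X.filter (fun x => ¬ 8 * δ * v ≤ ∑ y ∈ V, a x y)).card : ℝ) * (8 * δ * v) := by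
            rw [sum_const, nsmul_eq_mul]
        _ ≤ M * (8 * δ * v) := by
            refine mul_le_mul_of_nonneg_right ?_ (by positivity)
            exact (Nat.cast_le.2 (card_filter_le _ _)).trans hX
    have h3 : Y'.card * (M / (2 * K)) ≤ ∑ y ∈ Y', deg y := by
      rw [← nsmul_eq_mul]
      refine card_nsmul_le_sum _ _ _ fun y hy => ?_
      have h4 : y ∈ Y₀ := (mem_filter.1 (mem_filter.1 hy).1).1
      exact (mem_filter.1 h4).2
    have h4 : 3 / 4 * v * (M / (2 * K)) ≤ Y'.card * (M / (2 * K)) :=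
      mul_le_mul_of_nonneg_right hY'c (by positivity)
    have h5 : v * M / (4 * K) = 3 / 4 * v * (M / (2 * K)) - M * (8 * δ * v) := by
      rw [hδ]
      field_simp
      norm_num
    have h6 : v * M / (4 * K) ≤ ∑ y ∈ Y', ∑ x ∈ W', a x y := by linarith
    rw [div_le_iff₀ (by positivity)] at h6
    have h7 : M * M ≤ 3 * K * v * M := mul_le_mul_of_nonneg_right hv3 hM.le
    have h8 : 3 * K * (v * M) ≤ 3 * K * ((∑ y ∈ Y', ∑ x ∈ W', a x y) * (4 * K)) :=
      mul_le_mul_of_nonneg_left h6 (by positivity)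
    calc M ^ 2 = M * M := by ring
      _ ≤ 3 * K * v * M := h7
      _ = 3 * K * (v * M) := by ring
      _ ≤ _ := h8
      _ = 12 * K ^ 2 * ∑ y ∈ Y', ∑ x ∈ W', a x y := by ring

end Pool.Agent.Zk73.AK
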