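import Mathlib
import Pool.Agent.Zk73.AK.D

/-! # Sums of dilates by values of homogeneous polynomials -/

set_option autoImplicit false

open Finset
open scoped Pointwise

namespace Pool.Agent.Zk73.AK

/-- the `m`-fold sumset -/
def sm (A : Finset ℚ) (m : ℕ) : Finset ℚ := nsmulRec m A

/-- `m A - m A` -/
def BB (A : Finset ℚ) (m : ℕ) : Finset ℚ := sm A m - sm A m

lemma sm_zero (A : Finset ℚ) : sm A 0 = {0} := rfl

lemma sm_succ (A : Finset ℚ) (m : ℕ) : sm A (m + 1) = sm A m + A := rfl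

lemma sm_add (A : Finset ℚ) (m n : ℕ) : sm A (m + n) = sm A m + sm A n := by
  induction n with
  | zero => rw [sm_zero]; exact (add_zero (sm A m)).symm
  | succ n ih => rw [← add_assoc, sm_succ, ih, sm_succ, add_assoc]

lemma sm_nonempty {A : Finset ℚ} (hA : A.Nonempty) (m : ℕ) : (sm A m).Nonempty := by
  induction m with
  | zero => rw [sm_zero]; exact singleton_nonempty _
  | succ n ih => rw [sm_succ]; exact ih.add hA

lemma mem_BB {A : Finset ℚ} {m : ℕ} {z : ℚ} :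
    z ∈ BB A m ↔ ∃ u ∈ sm A m, ∃ v ∈ sm A m, u - v = z := by
  unfold BB; rw [Finset.mem_sub]

lemma BB_zero_mem {A : Finset ℚ} (hA : A.Nonempty) (m : ℕ) : (0 : ℚ) ∈ BB A m := by
  obtain ⟨u, hu⟩ := sm_nonempty hA m
  exact mem_BB.2 ⟨u, hu, u, hu, sub_self u⟩

lemma BB_add {A : Finset ℚ} {m n : ℕ} {y z : ℚ} (hy : y ∈ BB A m) (hz : z ∈ BB A n) :
    y + z ∈ BB A (m + n) := by
  obtain ⟨u, hu, v, hv, rfl⟩ := mem_BB.1 hy
  obtain ⟨u', hu', v', hv', rfl⟩ := mem_BB.1 hz
  refine mem_BB.2 ⟨u + u', ?_, v + v', ?_, by ring⟩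
  · rw [sm_add]; exact add_mem_add hu hu'
  · rw [sm_add]; exact add_mem_add hv hv'

lemma BB_neg {A : Finset ℚ} {m : ℕ} {y : ℚ} (hy : y ∈ BB A m) : -y ∈ BB A m := by
  obtain ⟨u, hu, v, hv, rfl⟩ := mem_BB.1 hy
  exact mem_BB.2 ⟨v, hv, u, hu, by ring⟩

lemma BB_mono {A : Finset ℚ} (hA : A.Nonempty) {m n : ℕ} (h : m ≤ n) {y : ℚ}
    (hy : y ∈ BB A m) : y ∈ BB A n := by
  obtain ⟨k, rfl⟩ := Nat.exists_eq_add_of_le h
  have := BB_add hy (BB_zero_mem hA k)
  rwa [add_zero] at this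

lemma BB_nsmul {A : Finset ℚ} (hA : A.Nonempty) {m : ℕ} {y : ℚ} (hy : y ∈ BB A m)
    (a : ℕ) : (a : ℚ) * y ∈ BB A (a * m) := by
  induction a with
  | zero => simpa using BB_zero_mem hA 0
  | succ a ih =>
    have := BB_add ih hy
    rw [show (a + 1) * m = a * m + m by ring]
    convert this using 1
    push_cast
    ring

lemma BB_zsmul {A : Finset ℚ} (hA : A.Nonempty) {m : ℕ} {y : ℚ} (hy : y ∈ BB A m)
    (a : ℤ) : (a : ℚ) * y ∈ BB A (a.natAbs * m) := by
  have h1 := BB_nsmul hA hy a.natAbs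
  rcases Int.natAbs_eq a with h | h
  · have e : ((a.natAbs : ℕ) : ℚ) = a := by
      rw [← Int.cast_natCast, ← h]
    rwa [e] at h1
  · have h' : ((a.natAbs : ℕ) : ℤ) = -a := by omega
    have e : ((a.natAbs : ℕ) : ℚ) = -a := by
      rw [← Int.cast_natCast, h', Int.cast_neg]
    rw [e] at h1
    have h2 := BB_neg h1
    convert h2 using 1
    ring

/-- `S` is covered by few translates of a dilate of `c W - c W` -/
def Cv (W : Finset ℚ) (R : ℕ) (z : ℚ) (c : ℕ) (S : Finset ℚ) : Prop :=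
  ∃ F : Finset ℚ, F.card ≤ R ^ c ∧ ∀ s ∈ S, ∃ f ∈ F, ∃ v ∈ BB W c, s = f + z * v

section
variable {W : Finset ℚ} {R : ℕ}

lemma Cv.mono (hW : W.Nonempty) (hR : 1 ≤ R) {z : ℚ} {c c' : ℕ} {S : Finset ℚ} (hc : c ≤ c')
    (h : Cv W R z c S) : Cv W R z c' S := by
  obtain ⟨F, h1, h2⟩ := h
  refine ⟨F, h1.trans (Nat.pow_le_pow_right hR hc), fun s hs => ?_⟩
  obtain ⟨f, hf, v, hv, e⟩ := h2 s hs
  exact ⟨f, hf, v, BB_mono hW hc hv, e⟩

lemma Cv.subset {z : ℚ} {c : ℕ} {S S' : Finset ℚ} (h : Cv W R z c S) (hS : S' ⊆ S) :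
    Cv W R z c S' := by
  obtain ⟨F, h1, h2⟩ := h
  exact ⟨F, h1, fun s hs => h2 s (hS hs)⟩

lemma Cv.add {z : ℚ} {c c' : ℕ} {S S' : Finset ℚ} (h : Cv W R z c S) (h' : Cv W R z c' S') :
    Cv W R z (c + c') (S + S') := by
  obtain ⟨F, h1, h2⟩ := h
  obtain ⟨F', h1', h2'⟩ := h'
  refine ⟨F + F', ?_, fun s hs => ?_⟩
  · rw [pow_add]
    exact card_add_le.trans (Nat.mul_le_mul h1 h1')
  · obtain ⟨a, ha, b, hb, rfl⟩ := mem_add.1 hs
    obtain ⟨f, hf, v, hv, rfl⟩ := h2 a ha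
    obtain ⟨f', hf', v', hv', rfl⟩ := h2' b hb
    exact ⟨f + f', add_mem_add hf hf', v + v', BB_add hv hv', by ring⟩

lemma Cv.sub {z : ℚ} {c c' : ℕ} {S S' : Finset ℚ} (h : Cv W R z c S) (h' : Cv W R z c' S') :
    Cv W R z (c + c') (S - S') := by
  obtain ⟨F, h1, h2⟩ := h
  obtain ⟨F', h1', h2'⟩ := h'
  refine ⟨F - F', ?_, fun s hs => ?_⟩
  · rw [pow_add]
    exact card_sub_le.trans (Nat.mul_le_mul h1 h1')
  · obtain ⟨a, ha, b, hb, rfl⟩ := mem_sub.1 hs
    obtain ⟨f, hf, v, hv, rfl⟩ := h2 a ha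
    obtain ⟨f', hf', v', hv', rfl⟩ := h2' b hb
    exact ⟨f - f', sub_mem_sub hf hf', v + -v', BB_add hv (BB_neg hv'), by ring⟩

lemma Cv.int (hW : W.Nonempty) (hR : 1 ≤ R) {z : ℚ} {c L : ℕ} {S : Finset ℚ} (h : Cv W R z c S)
    (a : ℤ) (ha : |a| ≤ L) : Cv W R z (c * (L + 1)) (S.image fun w => (a : ℚ) * w) := by
  obtain ⟨F, h1, h2⟩ := h
  refine ⟨F.image fun w => (a : ℚ) * w, ?_, fun s hs => ?_⟩
  · refine card_image_le.trans (h1.trans (Nat.pow_le_pow_right hR ?_))
    exact Nat.le_mul_of_pos_right c (by omega)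
  · obtain ⟨w, hw, rfl⟩ := mem_image.1 hs
    obtain ⟨f, hf, v, hv, rfl⟩ := h2 w hw
    refine ⟨a * f, mem_image_of_mem _ hf, a * v, ?_, by ring⟩
    refine BB_mono hW ?_ (BB_zsmul hW hv a)
    rw [mul_comm c]
    refine Nat.mul_le_mul_right c ?_
    rw [Int.abs_eq_natAbs] at ha
    omega

lemma Cv.sm {z : ℚ} {c : ℕ} {S : Finset ℚ} (h : Cv W R z c S) (n : ℕ) :
    Cv W R z (n * c) (sm S n) := by
  induction n with
  | zero =>
    rw [sm_zero, zero_mul]
    exact ⟨{0}, by simp, fun s hs => ⟨0, by simp, 0, mem_BB.2 ⟨0, by simp [sm_zero], 0,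
      by simp [sm_zero], by simp⟩, by rw [mem_singleton] at hs; rw [hs]; ring⟩⟩
  | succ n ih =>
    rw [sm_succ, add_mul, one_mul]
    exact ih.add h

lemma sm_image (y : ℚ) (S : Finset ℚ) (n : ℕ) :
    Pool.Agent.Zk73.AK.sm (S.image fun w => y * w) n =
      (Pool.Agent.Zk73.AK.sm S n).image fun w => y * w := by
  induction n with
  | zero =>
    rw [sm_zero, sm_zero]
    simp
  | succ n ih =>
    rw [sm_succ, sm_succ, ih]
    ext w
    simp only [mem_add, mem_image]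
    constructor
    · rintro ⟨_, ⟨a, ha, rfl⟩, _, ⟨b, hb, rfl⟩, rfl⟩
      exact ⟨a + b, ⟨a, ha, b, hb, rfl⟩, by ring⟩
    · rintro ⟨_, ⟨a, ha, b, hb, rfl⟩, rfl⟩
      exact ⟨_, ⟨a, ha, rfl⟩, _, ⟨b, hb, rfl⟩, by ring⟩

/-- multiplication of covered sets by a number which maps `W` to a covered set -/
lemma Cv.step (hW : W.Nonempty) {z z' y : ℚ} {c c' : ℕ} {S : Finset ℚ} (h : Cv W R z c S)
    (h' : Cv W R z' c' (W.image fun w => y * w)) :
    Cv W R (z * z') (c + 2 * (c * c')) (S.image fun w => y * w) := by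
  obtain ⟨F, h1, h2⟩ := h
  have h3 : Cv W R z' (c * c' + c * c') ((BB W c).image fun w => y * w) := by
    refine ((h'.sm c).sub (h'.sm c)).subset fun w hw => ?_
    obtain ⟨v, hv, rfl⟩ := mem_image.1 hw
    obtain ⟨a, ha, b, hb, rfl⟩ := mem_BB.1 hv
    rw [sm_image, mem_sub]
    exact ⟨_, mem_image_of_mem _ ha, _, mem_image_of_mem _ hb, by ring⟩
  obtain ⟨F', h1', h2'⟩ := h3
  refine ⟨(F.image fun w => y * w) + (F'.image fun w => z * w), ?_, fun s hs => ?_⟩
  · rw [pow_add, two_mul]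
    exact card_add_le.trans (Nat.mul_le_mul (card_image_le.trans h1) (card_image_le.trans h1'))
  · obtain ⟨w, hw, rfl⟩ := mem_image.1 hs
    obtain ⟨f, hf, v, hv, rfl⟩ := h2 w hw
    obtain ⟨f', hf', v', hv', e⟩ := h2' _ (mem_image_of_mem _ hv)
    refine ⟨y * f + z * f', add_mem_add (mem_image_of_mem _ hf) (mem_image_of_mem _ hf'), v', ?_, ?_⟩
    · have h4 : c * c' + c * c' ≤ c + 2 * (c * c') := by omega
      exact BB_mono hW h4 hv'
    · calc y * (f + z * v) = y * f + z * (y * v) := by ring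
        _ = _ := by rw [e]; ring


lemma Cv.card (hW : W.Nonempty) {z : ℚ} {c : ℕ} {S : Finset ℚ} (h : Cv W R z c S) :
    S.card ≤ R ^ c * (BB W c).card := by
  obtain ⟨F, h1, h2⟩ := h
  have h3 : S ⊆ image₂ (fun f v => f + z * v) F (BB W c) := by
    intro s hs
    obtain ⟨f, hf, v, hv, e⟩ := h2 s hs
    exact mem_image₂.2 ⟨f, hf, v, hv, e.symm⟩
  exact (card_le_card h3).trans ((card_image₂_le _ _ _).trans (Nat.mul_le_mul_right _ h1))

/-- sums of covered functions -/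
lemma Cv.sum {ι : Type} [DecidableEq ι] (hW : W.Nonempty) (hR : 1 ≤ R) {z : ℚ} {c : ℕ} (S : Finset ℚ)
    (I : Finset ι) (g : ι → ℚ → ℚ) (h : ∀ a ∈ I, Cv W R z c (S.image (g a))) :
    Cv W R z (I.card * c) (S.image fun w => ∑ a ∈ I, g a w) := by
  induction I using Finset.induction_on with
  | empty =>
    rw [card_empty, zero_mul]
    refine ⟨{0}, by simp, fun s hs => ⟨0, by simp, 0, mem_BB.2 ⟨0, by simp [sm_zero], 0,
      by simp [sm_zero], by simp⟩, ?_⟩⟩
    obtain ⟨w, _, rfl⟩ := mem_image.1 hs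
    simp
  | insert a I ha ih =>
    rw [card_insert_of_notMem ha, add_mul, one_mul]
    refine ((ih fun b hb => h b (mem_insert_of_mem hb)).add (h a (mem_insert_self a I))).subset ?_
    intro s hs
    obtain ⟨w, hw, rfl⟩ := mem_image.1 hs
    refine mem_add.2 ⟨_, mem_image_of_mem _ hw, _, mem_image_of_mem _ hw, ?_⟩
    rw [sum_insert ha, add_comm]

end

/-! ### monomials and polynomials -/

section
variable {k : ℕ} {x : Fin k → ℚ} {W Y : Finset ℚ} {R : ℕ}

/-- `W` and the sets `x_i Y` have small sums -/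
structure Small (x : Fin k → ℚ) (W Y : Finset ℚ) (R : ℕ) : Prop where
  hW : W.Nonempty
  hY : Y.Nonempty
  hR : 1 ≤ R
  h1 : ∀ i, ((Y.image fun y => x i * y) + W).card ≤ R * W.card
  h2 : ∀ i, ((Y.image fun y => x i * y) + W).card ≤ R * Y.card

lemma Small.cvY (h : Small x W Y R) (i : Fin k) : Cv W R 1 1 (Y.image fun y => x i * y) := by
  obtain ⟨F, -, h1, h2⟩ := Finset.ruzsa_covering_add (K := R) h.hW (by exact_mod_cast h.h1 i)
  refine ⟨F, ?_, fun s hs => ?_⟩
  · rw [pow_one]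
    exact_mod_cast h1
  · obtain ⟨f, hf, v, hv, e⟩ := mem_add.1 (h2 hs)
    refine ⟨f, hf, v, ?_, by rw [← e, one_mul]⟩
    obtain ⟨a, ha, b, hb, rfl⟩ := mem_sub.1 hv
    refine mem_BB.2 ⟨a, ?_, b, ?_, rfl⟩
    · rw [← zero_add 1, sm_succ, sm_zero]
      exact mem_add.2 ⟨0, mem_singleton_self 0, a, ha, zero_add a⟩
    · rw [← zero_add 1, sm_succ, sm_zero]
      exact mem_add.2 ⟨0, mem_singleton_self 0, b, hb, zero_add b⟩

lemma Small.cvW (h : Small x W Y R) {j : Fin k} (hj : x j ≠ 0) (i : Fin k) :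
    Cv W R (x j) 3 (W.image fun w => x i * w) := by
  obtain ⟨F', -, h1, h2⟩ := Finset.ruzsa_covering_add (A := W) (B := Y.image fun y => x j * y)
    (K := R) (h.hY.image _) (by
      rw [add_comm, card_image_of_injective _ fun a b hab => mul_left_cancel₀ hj hab]
      exact_mod_cast h.h2 j)
  obtain ⟨F, h3, h4⟩ := h.cvY i
  refine ⟨(F'.image fun w => x i * w) + ((F.image fun w => x j * w) - (F.image fun w => x j * w)),
    ?_, fun s hs => ?_⟩
  · have e1 : F'.card ≤ R := by exact_mod_cast h1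
    rw [pow_one] at h3
    calc _ ≤ (F'.image fun w => x i * w).card *
          ((F.image fun w => x j * w) - (F.image fun w => x j * w)).card := card_add_le
      _ ≤ R * (R * R) := Nat.mul_le_mul (card_image_le.trans e1)
          (card_sub_le.trans (Nat.mul_le_mul (card_image_le.trans h3) (card_image_le.trans h3)))
      _ = R ^ 3 := by ring
  · obtain ⟨w, hw, rfl⟩ := mem_image.1 hs
    obtain ⟨f', hf', v', hv', e'⟩ := mem_add.1 (h2 hw)
    obtain ⟨a, ha, b, hb, rfl⟩ := mem_sub.1 hv'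
    obtain ⟨y, hy, rfl⟩ := mem_image.1 ha
    obtain ⟨y', hy', rfl⟩ := mem_image.1 hb
    obtain ⟨f, hf, v, hv, e⟩ := h4 _ (mem_image_of_mem _ hy)
    obtain ⟨g, hg, u, hu, e2⟩ := h4 _ (mem_image_of_mem _ hy')
    refine ⟨x i * f' + (x j * f - x j * g), add_mem_add (mem_image_of_mem _ hf')
      (sub_mem_sub (mem_image_of_mem _ hf) (mem_image_of_mem _ hg)), v + -u,
      BB_mono h.hW (by norm_num) (BB_add hv (BB_neg hu)), ?_⟩
    rw [← e']
    calc x i * (f' + (x j * y - x j * y')) = x i * f' + x j * (x i * y - x i * y') := by ring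
      _ = _ := by rw [e, e2]; ring

lemma exists_pred {a : Fin k → ℕ} {e : ℕ} (ha : ∑ i, a i = e + 1) : ∃ (i : Fin k) (b : Fin k → ℕ),
    ∑ i, b i = e ∧ a = Function.update b i (b i + 1) := by
  classical
  obtain ⟨i, hi⟩ : ∃ i, 0 < a i := by
    by_contra hcon
    push Not at hcon
    have : ∑ i, a i = 0 := sum_eq_zero fun i _ => by have := hcon i; omega
    omega
  refine ⟨i, Function.update a i (a i - 1), ?_, ?_⟩
  · have h1 : a i + ∑ j ∈ univ.erase i, a j = e + 1 := by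
      rw [add_sum_erase univ a (mem_univ i)]
      exact ha
    have h2 : ∑ j ∈ univ.erase i, Function.update a i (a i - 1) j = ∑ j ∈ univ.erase i, a j :=
      sum_congr rfl fun j hj => by rw [Function.update_of_ne (ne_of_mem_erase hj)]
    rw [← add_sum_erase univ _ (mem_univ i), h2, Function.update_self]
    omega
  · funext j
    by_cases hj : j = i
    · subst hj
      simp
      omega
    · simp [hj]

lemma Small.cvMono (h : Small x W Y R) {j : Fin k} (hj : x j ≠ 0) : ∀ (e : ℕ) (a : Fin k → ℕ),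
    ∑ i, a i = e → Cv W R (x j ^ e) (7 ^ e) (W.image fun w => mono x a * w) := by
  intro e
  induction e with
  | zero =>
    intro a ha
    have h1 : ∀ i, a i = 0 := fun i => (sum_eq_zero_iff.1 ha) i (mem_univ i)
    have h2 : mono x a = 1 := by simp [mono, h1]
    obtain ⟨w₀, hw₀⟩ := h.hW
    refine ⟨{w₀}, by simpa using h.hR, fun s hs => ?_⟩
    obtain ⟨w, hw, rfl⟩ := mem_image.1 hs
    refine ⟨w₀, mem_singleton_self _, w - w₀, mem_BB.2 ⟨w, ?_, w₀, ?_, rfl⟩, by rw [h2]; ring⟩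
    · rw [pow_zero, ← zero_add 1, sm_succ, sm_zero]
      exact mem_add.2 ⟨0, mem_singleton_self 0, w, hw, zero_add w⟩
    · rw [pow_zero, ← zero_add 1, sm_succ, sm_zero]
      exact mem_add.2 ⟨0, mem_singleton_self 0, w₀, hw₀, zero_add w₀⟩
  | succ e ih =>
    intro a ha
    obtain ⟨i, b, hb, rfl⟩ := exists_pred ha
    have h1 := Cv.step h.hW (ih b hb) (h.cvW hj i)
    have h2 : ((W.image fun w => mono x b * w).image fun w => x i * w) =
        W.image fun w => mono x (Function.update b i (b i + 1)) * w := by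
      rw [image_image]
      refine image_congr fun w _ => ?_
      simp only [Function.comp]
      rw [mono_update]
      ring
    rw [h2, ← pow_succ] at h1
    refine h1.mono h.hW h.hR (le_of_eq ?_)
    ring

lemma Small.cvMonoY (h : Small x W Y R) {j : Fin k} (hj : x j ≠ 0) (e : ℕ) (a : Fin k → ℕ)
    (ha : ∑ i, a i = e + 1) :
    Cv W R (x j ^ e) (1 + 2 * 7 ^ e) (Y.image fun y => mono x a * y) := by
  obtain ⟨i, b, hb, rfl⟩ := exists_pred ha
  obtain ⟨F, h1, h2⟩ := h.cvY i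
  have h3 := h.cvMono hj e b hb
  have h4 : Cv W R (x j ^ e) (7 ^ e + 7 ^ e) ((BB W 1).image fun w => mono x b * w) := by
    refine (h3.sub h3).subset fun s hs => ?_
    obtain ⟨v, hv, rfl⟩ := mem_image.1 hs
    obtain ⟨a, ha, c, hc, rfl⟩ := mem_BB.1 hv
    rw [← zero_add 1, sm_succ, sm_zero] at ha hc
    obtain ⟨a', ha', a'', ha'', rfl⟩ := mem_add.1 ha
    obtain ⟨c', hc', c'', hc'', rfl⟩ := mem_add.1 hc
    rw [mem_singleton] at ha' hc'
    subst ha' hc'
    rw [zero_add, zero_add]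
    exact mem_sub.2 ⟨_, mem_image_of_mem _ ha'', _, mem_image_of_mem _ hc'', by ring⟩
  obtain ⟨F', h5, h6⟩ := h4
  refine ⟨(F.image fun w => mono x b * w) + F', ?_, fun s hs => ?_⟩
  · rw [pow_add, two_mul]
    exact card_add_le.trans (Nat.mul_le_mul (card_image_le.trans h1) h5)
  · obtain ⟨y, hy, rfl⟩ := mem_image.1 hs
    obtain ⟨f, hf, v, hv, e1⟩ := h2 _ (mem_image_of_mem _ hy)
    obtain ⟨f', hf', v', hv', e2⟩ := h6 _ (mem_image_of_mem _ hv)
    refine ⟨mono x b * f + f', add_mem_add (mem_image_of_mem _ hf) hf', v',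
      BB_mono h.hW (by omega) hv', ?_⟩
    rw [mono_update]
    calc x i * mono x b * y = mono x b * (x i * y) := by ring
      _ = mono x b * f + mono x b * v := by rw [e1]; ring
      _ = _ := by rw [e2]; ring

/-- the number of the values of a simple linear combination -/
lemma Small.card_comb (h : Small x W Y R) {j : Fin k} (hj : x j ≠ 0) (e L : ℕ)
    (I : Finset (Fin k → ℕ)) (α β : (Fin k → ℕ) → ℤ) (hα : ∀ a, |α a| ≤ L) (hβ : ∀ a, |β a| ≤ L)
    (hα0 : ∀ a ∈ I, α a ≠ 0 → ∑ i, a i = e + 1) (hβ0 : ∀ a ∈ I, β a ≠ 0 → ∑ i, a i = e) :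
    ((W.image fun w => (∑ a ∈ I, (β a : ℚ) * mono x a) * w) -
      (Y.image fun y => (∑ a ∈ I, (α a : ℚ) * mono x a) * y)).card ≤
      R ^ (3 * (4 * I.card * (7 ^ e * (L + 1)))) * Y.card := by
  classical
  have hz : ∀ (S : Finset ℚ) (c : ℕ), Cv W R (x j ^ e) c (S.image fun w => (0 : ℚ) * w) := by
    intro S c
    refine ⟨{0}, by simpa using Nat.one_le_pow _ _ h.hR, fun s hs => ?_⟩
    obtain ⟨w, _, rfl⟩ := mem_image.1 hs
    exact ⟨0, mem_singleton_self 0, 0, BB_zero_mem h.hW c, by ring⟩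
  have h1 : Cv W R (x j ^ e) (I.card * (7 ^ e * (L + 1)))
      (W.image fun w => ∑ a ∈ I, (β a : ℚ) * (mono x a * w)) := by
    refine Cv.sum h.hW h.hR W I (fun a w => (β a : ℚ) * (mono x a * w)) fun a ha => ?_
    by_cases h0 : β a = 0
    · have : (W.image fun w => (β a : ℚ) * (mono x a * w)) = W.image fun w => (0 : ℚ) * w := by
        refine image_congr fun w _ => ?_
        simp [h0]
      show Cv W R (x j ^ e) _ (W.image fun w => (β a : ℚ) * (mono x a * w))
      rw [this]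
      exact hz _ _
    · have h2 := (h.cvMono hj e a (hβ0 a ha h0)).int h.hW h.hR (β a) (hβ a)
      rw [image_image] at h2
      exact h2
  have h2 : Cv W R (x j ^ e) (I.card * ((1 + 2 * 7 ^ e) * (L + 1)))
      (Y.image fun w => ∑ a ∈ I, (α a : ℚ) * (mono x a * w)) := by
    refine Cv.sum h.hW h.hR Y I (fun a w => (α a : ℚ) * (mono x a * w)) fun a ha => ?_
    by_cases h0 : α a = 0
    · have : (Y.image fun w => (α a : ℚ) * (mono x a * w)) = Y.image fun w => (0 : ℚ) * w := by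
        refine image_congr fun w _ => ?_
        simp [h0]
      show Cv W R (x j ^ e) _ (Y.image fun w => (α a : ℚ) * (mono x a * w))
      rw [this]
      exact hz _ _
    · have h2 := (h.cvMonoY hj e a (hα0 a ha h0)).int h.hW h.hR (α a) (hα a)
      rw [image_image] at h2
      exact h2
  have e1 : ∀ (S : Finset ℚ) (γ : (Fin k → ℕ) → ℤ), (S.image fun w => ∑ a ∈ I, (γ a : ℚ) * (mono x a * w)) =
      S.image fun w => (∑ a ∈ I, (γ a : ℚ) * mono x a) * w := by
    intro S γ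
    refine image_congr fun w _ => ?_
    rw [sum_mul]
    exact sum_congr rfl fun a _ => by ring
  rw [e1] at h1 h2
  have h3 := h1.sub h2
  set c := 4 * I.card * (7 ^ e * (L + 1)) with hc
  have hcle : I.card * (7 ^ e * (L + 1)) + I.card * ((1 + 2 * 7 ^ e) * (L + 1)) ≤ c := by
    have h7 : 1 ≤ 7 ^ e := Nat.one_le_pow _ _ (by norm_num)
    have : I.card * (7 ^ e * (L + 1)) + I.card * ((1 + 2 * 7 ^ e) * (L + 1)) =
        I.card * (1 + 3 * 7 ^ e) * (L + 1) := by ring
    rw [this, hc]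
    calc I.card * (1 + 3 * 7 ^ e) * (L + 1) ≤ I.card * (4 * 7 ^ e) * (L + 1) :=
          Nat.mul_le_mul_right _ (Nat.mul_le_mul_left _ (by omega))
      _ = _ := by ring
  have h4 := (h3.mono h.hW h.hR hcle).card h.hW
  -- the size of `c W - c W`
  have h5 : (BB W c).card ≤ R ^ (2 * c) * Y.card := by
    have h0 := Finset.pluennecke_ruzsa_inequality_nsmul_sub_nsmul_add
      (A := Y.image fun y => x j * y) (h.hY.image _) W c c
    have hYc : (Y.image fun y => x j * y).card = Y.card :=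
      card_image_of_injective _ fun a b hab => mul_left_cancel₀ hj hab
    have hc0 : (0 : ℝ) < Y.card := by exact_mod_cast h.hY.card_pos
    have h6 : ((BB W c).card : ℝ) ≤
        ((((Y.image fun y => x j * y) + W).card : ℝ) / Y.card) ^ (c + c) * Y.card := by
      have h7 : ((BB W c).card : ℚ≥0) ≤ ((((Y.image fun y => x j * y) + W).card : ℚ≥0) /
          (Y.image fun y => x j * y).card) ^ (c + c) * (Y.image fun y => x j * y).card := h0
      rw [hYc] at h7
      have h8 := (NNRat.cast_le (K := ℝ)).2 h7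
      push_cast at h8
      exact h8
    have h9 : ((((Y.image fun y => x j * y) + W).card : ℝ) / Y.card) ≤ R := by
      rw [div_le_iff₀ hc0]
      exact_mod_cast h.h2 j
    have h10 : ((BB W c).card : ℝ) ≤ (R : ℝ) ^ (2 * c) * Y.card := by
      refine h6.trans ?_
      rw [two_mul]
      exact mul_le_mul_of_nonneg_right (pow_le_pow_left₀ (by positivity) h9 _) hc0.le
    exact_mod_cast h10
  calc _ ≤ R ^ c * (BB W c).card := h4
    _ ≤ R ^ c * (R ^ (2 * c) * Y.card) := Nat.mul_le_mul_left _ h5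
    _ = R ^ (3 * c) * Y.card := by rw [← mul_assoc, ← pow_add]; congr 2; ring

end

end Pool.Agent.Zk73.AK
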