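import Mathlib
import Pool.Agent.Zk73.AK.I

/-! # Simple tuples of slopes are useful: conclusion -/

set_option autoImplicit false

open Finset

namespace Pool.Agent.Zk73.AK

open Pool.Agent.R470.AK (proj projInf big big_pos)

lemma proj_le_big {S : Finset ℚ} {r : ℚ} (hr : r ∈ S) (A : Finset (ℤ × ℤ)) :
    (proj r A).card ≤ big S A :=
  le_max_of_le_right (le_sup (f := fun r => (proj r A).card) hr)

lemma projInf_le_big (S : Finset ℚ) (A : Finset (ℤ × ℤ)) : (projInf A).card ≤ big S A :=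
  le_max_left _ _

theorem simple_pow (k L : ℕ) : ∃ D : ℕ, 1 ≤ D ∧ ∀ s : Fin (k + 1) → ℚ, Simple L s →
    ∀ A : Finset (ℤ × ℤ), A.Nonempty → (proj (-1) A).card ^ (7 * D) ≤
      2 ^ (20 * D) * (big (univ.image s) A) ^ (14 * D - 1) := by
  classical
  refine ⟨3 * (4 * (bx k (L + 2)).card * (7 ^ L * (L + 1))) + 1, Nat.le_add_left _ _,
    fun s hs A hA => ?_⟩
  set D := 3 * (4 * (bx k (L + 2)).card * (7 ^ L * (L + 1))) + 1 with hD
  have hD1 : 1 ≤ D := Nat.le_add_left _ _
  set M := big (univ.image s) A with hM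
  have hM1 : 1 ≤ M := big_pos hA
  obtain ⟨e, a, b, heL, ha, hb, haL, hbL, hb0, hab⟩ := hs
  set x : Fin k → ℚ := fun i => s i.succ - s 0 with hx
  have ea := aeval_eq_sum x a ha (n := L + 2) (by omega)
  have eb := aeval_eq_sum x b hb (n := L + 2) (by omega)
  by_cases hj : ∃ j, x j ≠ 0
  · obtain ⟨j, hj⟩ := hj
    have hrep : ∀ v ∈ proj (-1) A, ∃ q : ℤ × ℤ, q ∈ A ∧ (q.1 : ℚ) + (-1) * (q.2 : ℚ) = v := by
      intro v hv
      obtain ⟨q, hq, e⟩ := mem_image.1 hv
      exact ⟨q, hq, e⟩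
    choose! g hg1 hg2 using hrep
    set pt : ℚ → ℚ × ℚ := fun v => (((g v).1 : ℚ) + s 0 * ((g v).2 : ℚ), ((g v).2 : ℚ)) with hpt
    have hptv : ∀ v ∈ proj (-1) A, (pt v).1 - (s 0 + 1) * (pt v).2 = v := by
      intro v hv
      have := hg2 v hv
      simp only [hpt]
      linarith
    set P := (proj (-1) A).image pt with hP
    have hinjv : Set.InjOn pt (proj (-1) A : Set ℚ) := by
      intro v hv v' hv' h
      rw [← hptv v hv, ← hptv v' hv', h]
    have hPc : P.card = (proj (-1) A).card := card_image_of_injOn hinjv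
    have hr : ∀ c : ℚ, (P.image fun p => p.1 + c * p.2) ⊆ proj (s 0 + c) A := by
      intro c w hw
      obtain ⟨p, hp, rfl⟩ := mem_image.1 hw
      obtain ⟨v, hv, rfl⟩ := mem_image.1 hp
      refine mem_image.2 ⟨g v, hg1 v hv, ?_⟩
      simp only [hpt]
      ring
    have hmain := count_points x (s 0 + 1) e L heL
      (fun m => a.coeff (Finsupp.equivFunOnFinite.symm m))
      (fun m => b.coeff (Finsupp.equivFunOnFinite.symm m)) (fun m => haL _) (fun m => hbL _)
      (fun m hm => coeff_hom ha hm) (fun m hm => coeff_hom hb hm) (by rw [← eb]; exact hb0)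
      (by rw [← ea, ← eb]; exact hab) hj P ((hA.image _).image _) M ?_ ?_ ?_ ?_ D hD
    · rw [hPc] at hmain
      have h1 : M ^ (14 * D) = M * M ^ (14 * D - 1) := by
        rw [← pow_succ']
        exact congrArg _ (by omega)
      rw [h1, mul_left_comm] at hmain
      exact Nat.le_of_mul_le_mul_left hmain hM1
    · have h1 : P.image Prod.fst ⊆ proj (s 0) A := by
        have := hr 0
        rw [add_zero] at this
        refine subset_trans ?_ this
        intro w hw
        obtain ⟨p, hp, rfl⟩ := mem_image.1 hw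
        exact mem_image.2 ⟨p, hp, by ring⟩
      exact (card_le_card h1).trans (proj_le_big (mem_image_of_mem s (mem_univ _)) A)
    · have h1 : P.image Prod.snd ⊆ projInf A := by
        intro w hw
        obtain ⟨p, hp, rfl⟩ := mem_image.1 hw
        obtain ⟨v, hv, rfl⟩ := mem_image.1 hp
        exact mem_image.2 ⟨g v, hg1 v hv, rfl⟩
      exact (card_le_card h1).trans (projInf_le_big _ A)
    · intro i
      have h1 := hr (x i)
      have h2 : s 0 + x i = s i.succ := by rw [hx]; ring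
      rw [h2] at h1
      exact (card_le_card h1).trans (proj_le_big (mem_image_of_mem s (mem_univ _)) A)
    · intro p hp p' hp' h
      obtain ⟨v, hv, rfl⟩ := mem_image.1 (mem_coe.1 hp)
      obtain ⟨v', hv', rfl⟩ := mem_image.1 (mem_coe.1 hp')
      simp only at h
      rw [hptv v hv, hptv v' hv'] at h
      rw [h]
  · push Not at hj
    have h0 : MvPolynomial.aeval x a = 0 := by
      rw [ea]
      refine sum_eq_zero fun m _ => ?_
      by_cases hm : a.coeff (Finsupp.equivFunOnFinite.symm m) = 0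
      · rw [hm]
        simp
      · have h1 := coeff_hom ha hm
        obtain ⟨i, hi⟩ : ∃ i, 0 < m i := by
          by_contra hcon
          push Not at hcon
          have : ∑ i, m i = 0 := sum_eq_zero fun i _ => by have := hcon i; omega
          omega
        have h2 : mono x m = 0 := by
          unfold mono
          refine prod_eq_zero (mem_univ i) ?_
          rw [hj i]
          exact zero_pow (by omega)
        rw [h2, mul_zero]
    rw [h0] at hab
    have h1 : s 0 + 1 = 0 := by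
      rcases mul_eq_zero.1 hab.symm with h | h
      · exact h
      · exact absurd h hb0
    have h2 : (proj (-1) A).card ≤ M := by
      have h3 : (-1 : ℚ) = s 0 := by linarith
      rw [h3]
      exact proj_le_big (mem_image_of_mem s (mem_univ _)) A
    calc (proj (-1) A).card ^ (7 * D) ≤ M ^ (7 * D) := Nat.pow_le_pow_left h2 _
      _ ≤ M ^ (14 * D - 1) := Nat.pow_le_pow_right hM1 (by omega)
      _ = 1 * M ^ (14 * D - 1) := (one_mul _).symm
      _ ≤ 2 ^ (20 * D) * M ^ (14 * D - 1) := Nat.mul_le_mul_right _ (Nat.one_le_two_pow)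

lemma tensor_trick {a b c : ℕ} (hb : 0 < b) (h : ∀ t : ℕ, a ^ t ≤ c * b ^ t) : a ≤ b := by
  by_contra hab
  push Not at hab
  have hbR : (0 : ℝ) < b := by exact_mod_cast hb
  have h1 : 1 < (a : ℝ) / b := by
    rw [lt_div_iff₀ hbR, one_mul]
    exact_mod_cast hab
  obtain ⟨t, ht⟩ := ((tendsto_pow_atTop_atTop_of_one_lt h1).eventually
    (Filter.eventually_gt_atTop (c : ℝ))).exists
  rw [div_pow, lt_div_iff₀ (by positivity)] at ht
  have h2 : ((a ^ t : ℕ) : ℝ) ≤ ((c * b ^ t : ℕ) : ℝ) := by exact_mod_cast h t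
  push_cast at h2
  linarith

/-- simple tuples are useful -/
theorem part1 (k L : ℕ) : ∃ κ : ℝ, κ < 2 ∧ ∀ s : Fin (k + 1) → ℚ, Simple L s →
    ∀ A : Finset (ℤ × ℤ), ((proj (-1) A).card : ℝ) ≤ (big (univ.image s) A : ℝ) ^ κ := by
  obtain ⟨D, hD1, hD⟩ := simple_pow k L
  have hDR : (1 : ℝ) ≤ D := by exact_mod_cast hD1
  refine ⟨2 - 1 / (7 * D), by
    have : (0 : ℝ) < 1 / (7 * D) := by positivity
    linarith, fun s hs A => ?_⟩
  rcases A.eq_empty_or_nonempty with h0 | hA
  · subst h0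
    have : (proj (-1) (∅ : Finset (ℤ × ℤ))).card = 0 := by simp [proj]
    rw [this, Nat.cast_zero]
    positivity
  have hM1 : 1 ≤ big (univ.image s) A := big_pos hA
  set M := big (univ.image s) A with hM
  set N := (proj (-1) A).card with hN
  have hMR : (1 : ℝ) ≤ M := by exact_mod_cast hM1
  have hpow : N ^ (7 * D) ≤ M ^ (14 * D - 1) := by
    refine tensor_trick (c := 2 ^ (20 * D)) (Nat.pow_pos hM1) fun t => ?_
    obtain ⟨B, hB, b1, b2, b3⟩ := prods (fun _ => A) t fun _ _ => hA
    simp only [prod_const, card_range] at b1 b2 b3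
    have h1 := hD s hs B hB
    have h2 : big (univ.image s) B ≤ M ^ t := by
      refine max_le (b3.trans (Nat.pow_le_pow_left (projInf_le_big _ A) t))
        (Finset.sup_le fun r hr => ?_)
      exact (b2 r).trans (Nat.pow_le_pow_left (proj_le_big hr A) t)
    rw [b1] at h1
    calc (N ^ (7 * D)) ^ t = (N ^ t) ^ (7 * D) := by rw [← pow_mul, ← pow_mul, mul_comm]
      _ ≤ 2 ^ (20 * D) * (big (univ.image s) B) ^ (14 * D - 1) := h1
      _ ≤ 2 ^ (20 * D) * (M ^ t) ^ (14 * D - 1) :=
          Nat.mul_le_mul_left _ (Nat.pow_le_pow_left h2 _)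
      _ = 2 ^ (20 * D) * (M ^ (14 * D - 1)) ^ t := by
          rw [← pow_mul M t, ← pow_mul M (14 * D - 1), mul_comm t]
  have h7 : (0 : ℝ) < 7 * D := by positivity
  have hNR : (0 : ℝ) ≤ N := Nat.cast_nonneg _
  have h1 : (N : ℝ) ^ (7 * D) ≤ (M : ℝ) ^ (14 * D - 1) := by exact_mod_cast hpow
  have h2 : ((N : ℝ) ^ (7 * D)) ^ (1 / (7 * D : ℝ)) ≤
      ((M : ℝ) ^ (14 * D - 1)) ^ (1 / (7 * D : ℝ)) :=
    Real.rpow_le_rpow (by positivity) h1 (by positivity)
  have h3 : ((N : ℝ) ^ (7 * D)) ^ (1 / (7 * D : ℝ)) = N := by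
    rw [← Real.rpow_natCast, ← Real.rpow_mul hNR]
    have : ((7 * D : ℕ) : ℝ) * (1 / (7 * D : ℝ)) = 1 := by
      push_cast
      field_simp
    rw [this, Real.rpow_one]
  have h4 : ((M : ℝ) ^ (14 * D - 1)) ^ (1 / (7 * D : ℝ)) = (M : ℝ) ^ (2 - 1 / (7 * D : ℝ)) := by
    rw [← Real.rpow_natCast, ← Real.rpow_mul (by linarith)]
    congr 1
    rw [Nat.cast_sub (by omega)]
    push_cast
    field_simp
    ring
  rw [h3, h4] at h2
  exact h2

end Pool.Agent.Zk73.AK
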