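import Mathlib
import Pool.Agent.Zk73.AK.J

/-! # Pairs of slopes -/

set_option autoImplicit false

open Finset
open scoped Pointwise

namespace Pool.Agent.Zk73.AK

open Pool.Agent.R470.AK (proj projInf big big_pos comb mem_comb)

/-- the main inequality for points with different values of the target, general form -/
lemma core {k : ℕ} (x : Fin k → ℚ) (σ α β : ℚ) (hb : β ≠ 0) (hab : α = σ * β) (Cm : ℕ)
    (hcombG : ∀ (W Y : Finset ℚ) (R : ℕ), Small x W Y R →
      ((W.image fun w => β * w) - (Y.image fun y => α * y)).card ≤ R ^ Cm * Y.card)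
    (P : Finset (ℚ × ℚ)) (hP : P.Nonempty) (M : ℕ) (h1 : (P.image Prod.fst).card ≤ M)
    (h2 : (P.image Prod.snd).card ≤ M) (h3 : ∀ i, (P.image fun p => p.1 + x i * p.2).card ≤ M)
    (hinj : Set.InjOn (fun p : ℚ × ℚ => p.1 - σ * p.2) (P : Set (ℚ × ℚ))) (D : ℕ)
    (hD : D = Cm + 1) :
    M * P.card ^ (7 * D) ≤ 2 ^ (20 * D) * M ^ (14 * D) := by
  classical
  have hM1 : 1 ≤ M := (hP.image _).card_pos.trans_le h1
  have hMR : (0 : ℝ) < M := by exact_mod_cast hM1
  have hN0 : (0 : ℝ) < P.card := by exact_mod_cast hP.card_pos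
  have hPM : (P.card : ℝ) ≤ (M : ℝ) ^ 2 := by
    have h4 : P ⊆ P.image Prod.fst ×ˢ P.image Prod.snd := fun p hp =>
      mem_product.2 ⟨mem_image_of_mem _ hp, mem_image_of_mem _ hp⟩
    have h5 := (card_le_card h4).trans (card_product _ _).le
    have h6 : P.card ≤ M ^ 2 := by
      rw [sq]
      exact h5.trans (Nat.mul_le_mul h1 h2)
    exact_mod_cast h6
  set K : ℝ := (M : ℝ) ^ 2 / P.card with hK
  have hK1 : 1 ≤ K := by
    rw [hK, le_div_iff₀ hN0, one_mul]
    exact hPM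
  have hK0 : 0 < K := by linarith
  have hKN : (M : ℝ) ^ 2 = K * P.card := by
    rw [hK]
    field_simp
  clear_value K
  obtain ⟨W, Y, hWP, hYP, hpath, hpts⟩ := graph3 P M K hK1 hMR (by exact_mod_cast h1)
    (by exact_mod_cast h2) hKN.le
  set P' := P.filter fun p => p.1 ∈ W ∧ p.2 ∈ Y with hP'
  have hWM : (W.card : ℝ) ≤ M := by exact_mod_cast (card_le_card hWP).trans h1
  have hYM : (Y.card : ℝ) ≤ M := by exact_mod_cast (card_le_card hYP).trans h2
  have hP'c : (P'.card : ℝ) ≤ W.card * Y.card := by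
    have : P' ⊆ W ×ˢ Y := fun p hp => by
      rw [hP', mem_filter] at hp
      exact mem_product.2 hp.2
    exact_mod_cast (card_le_card this).trans (card_product _ _).le
  have hK2 : 0 < 12 * K ^ 2 := by positivity
  have hW12 : (M : ℝ) ≤ 12 * K ^ 2 * W.card := by
    have h4 : (M : ℝ) ^ 2 ≤ 12 * K ^ 2 * (W.card * M) :=
      hpts.trans (mul_le_mul_of_nonneg_left (hP'c.trans
        (mul_le_mul_of_nonneg_left hYM (Nat.cast_nonneg _))) hK2.le)
    have h5 : (M : ℝ) * M ≤ (12 * K ^ 2 * W.card) * M := by nlinarith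
    exact le_of_mul_le_mul_right h5 hMR
  have hY12 : (M : ℝ) ≤ 12 * K ^ 2 * Y.card := by
    have h4 : (M : ℝ) ^ 2 ≤ 12 * K ^ 2 * (M * Y.card) :=
      hpts.trans (mul_le_mul_of_nonneg_left (hP'c.trans
        (mul_le_mul_of_nonneg_right hWM (Nat.cast_nonneg _))) hK2.le)
    have h5 : (M : ℝ) * M ≤ (12 * K ^ 2 * Y.card) * M := by nlinarith
    exact le_of_mul_le_mul_right h5 hMR
  have hWne : W.Nonempty := by
    rw [nonempty_iff_ne_empty]
    intro h0
    rw [h0] at hW12
    simp at hW12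
    linarith
  have hYne : Y.Nonempty := by
    rw [nonempty_iff_ne_empty]
    intro h0
    rw [h0] at hY12
    simp at hY12
    linarith
  -- the sums
  have hsum : ∀ i, ((((Y.image fun y => x i * y) + W).card : ℕ) : ℝ) ≤ 2 ^ 15 * K ^ 5 * M := by
    intro i
    have hK5 : (1 : ℝ) ≤ 2 ^ 15 * K ^ 5 := by
      have : (1 : ℝ) ≤ K ^ 5 := one_le_pow₀ hK1
      linarith
    by_cases hxi : x i = 0
    · have h4 : ((Y.image fun y => x i * y) + W) ⊆ W := by
        intro t ht
        obtain ⟨a, ha, b, hb, rfl⟩ := mem_add.1 ht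
        obtain ⟨y, _, rfl⟩ := mem_image.1 ha
        rw [hxi, zero_mul, zero_add]
        exact hb
      calc ((((Y.image fun y => x i * y) + W).card : ℕ) : ℝ) ≤ W.card := by
            exact_mod_cast card_le_card h4
        _ ≤ M := hWM
        _ = 1 * M := (one_mul _).symm
        _ ≤ _ := mul_le_mul_of_nonneg_right hK5 hMR.le
    · set T := (Y.image fun y => x i * y) + W with hT
      set Q := P.image fun p => p.1 + x i * p.2 with hQ
      have hrep : ∀ t ∈ T, ∃ q : ℚ × ℚ, q.1 ∈ W ∧ q.2 ∈ Y ∧ q.1 + x i * q.2 = t := by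
        intro t ht
        obtain ⟨a, ha, b, hb, rfl⟩ := mem_add.1 ht
        obtain ⟨y, hy, rfl⟩ := mem_image.1 ha
        exact ⟨(b, y), hb, hy, by ring⟩
      choose! q hq1 hq2 hq3 using hrep
      set Z : Finset (Σ _ : ℚ, ℚ × ℚ) := T.sigma fun t =>
        P.filter fun p => ((q t).1, p.2) ∈ P ∧ (p.1, (q t).2) ∈ P with hZ
      have h4 : Z.card ≤ (Q ×ˢ (Q ×ˢ Q)).card := by
        refine card_le_card_of_injOn (fun z => ((q z.1).1 + x i * z.2.2,
          (z.2.1 + x i * z.2.2, z.2.1 + x i * (q z.1).2))) ?_ ?_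
        · intro z hz
          rw [mem_coe, hZ, mem_sigma, mem_filter] at hz
          rw [mem_coe, mem_product, mem_product]
          refine ⟨?_, ?_, ?_⟩
          · exact mem_image.2 ⟨_, hz.2.2.1, rfl⟩
          · exact mem_image.2 ⟨_, hz.2.1, rfl⟩
          · exact mem_image.2 ⟨_, hz.2.2.2, rfl⟩
        · rintro ⟨t, p⟩ hz ⟨t', p'⟩ hz' he
          rw [mem_coe, hZ, mem_sigma, mem_filter] at hz hz'
          simp only [Prod.mk.injEq] at he
          obtain ⟨e1, e2, e3⟩ := he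
          have ht := hq3 t hz.1
          have ht' := hq3 t' hz'.1
          have htt : t = t' := by
            rw [← ht, ← ht']
            linarith
          subst htt
          have e4 : p.2 = p'.2 := by
            have : x i * p.2 = x i * p'.2 := by linarith
            exact mul_left_cancel₀ hxi this
          have e5 : p.1 = p'.1 := by
            rw [e4] at e2
            linarith
          rw [Prod.ext e5 e4]
      have h5 : (T.card : ℝ) * (M : ℝ) ^ 2 ≤ 2 ^ 15 * K ^ 5 * Z.card := by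
        rw [hZ, card_sigma, Nat.cast_sum, mul_sum, ← nsmul_eq_mul]
        refine card_nsmul_le_sum _ _ _ fun t ht => ?_
        exact hpath _ (hq1 t ht) _ (hq2 t ht)
      have h6 : (Z.card : ℝ) ≤ (M : ℝ) ^ 3 := by
        have h7 : (Q ×ˢ (Q ×ˢ Q)).card ≤ M ^ 3 := by
          rw [card_product, card_product]
          calc Q.card * (Q.card * Q.card) ≤ M * (M * M) :=
                Nat.mul_le_mul (h3 i) (Nat.mul_le_mul (h3 i) (h3 i))
            _ = M ^ 3 := by ring
        exact_mod_cast h4.trans h7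
      have h8 : (T.card : ℝ) * (M : ℝ) ^ 2 ≤ (2 ^ 15 * K ^ 5 * M) * (M : ℝ) ^ 2 := by
        calc (T.card : ℝ) * (M : ℝ) ^ 2 ≤ 2 ^ 15 * K ^ 5 * (M : ℝ) ^ 3 :=
              h5.trans (mul_le_mul_of_nonneg_left h6 (by positivity))
          _ = _ := by ring
      exact le_of_mul_le_mul_right h8 (by positivity)
  set R : ℕ := ⌈2 ^ 19 * K ^ 7⌉₊ with hR
  have hR1 : 2 ^ 19 * K ^ 7 ≤ (R : ℝ) := Nat.le_ceil _
  have hK7 : (1 : ℝ) ≤ K ^ 7 := one_le_pow₀ hK1
  have hR2 : (R : ℝ) ≤ 2 ^ 20 * K ^ 7 := by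
    have := Nat.ceil_lt_add_one (a := 2 ^ 19 * K ^ 7) (by positivity)
    rw [← hR] at this
    linarith
  have hRone : 1 ≤ R := by
    have : (1 : ℝ) ≤ R := by linarith
    exact_mod_cast this
  have hcmp : ∀ V : ℝ, 0 ≤ V → (M : ℝ) ≤ 12 * K ^ 2 * V → 2 ^ 15 * K ^ 5 * M ≤ R * V := by
    intro V hV hMV
    calc 2 ^ 15 * K ^ 5 * M ≤ 2 ^ 15 * K ^ 5 * (12 * K ^ 2 * V) :=
          mul_le_mul_of_nonneg_left hMV (by positivity)
      _ = (2 ^ 15 * 12 * K ^ 7) * V := by ring
      _ ≤ (2 ^ 19 * K ^ 7) * V := by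
          refine mul_le_mul_of_nonneg_right ?_ hV
          linarith
      _ ≤ R * V := mul_le_mul_of_nonneg_right hR1 hV
  have hsmall : Small x W Y R := by
    refine ⟨hWne, hYne, hRone, fun i => ?_, fun i => ?_⟩
    · have := (hsum i).trans (hcmp _ (Nat.cast_nonneg _) hW12)
      exact_mod_cast this
    · have := (hsum i).trans (hcmp _ (Nat.cast_nonneg _) hY12)
      exact_mod_cast this
  have hcomb := hcombG W Y R hsmall
  have hcomb2 : P'.card ≤ R ^ Cm * M := by
    have h4 : P'.card ≤ ((W.image fun w => β * w) - (Y.image fun y => α * y)).card := by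
      refine card_le_card_of_injOn (fun p => β * p.1 - α * p.2) ?_ ?_
      · intro p hp
        rw [mem_coe, hP', mem_filter] at hp
        exact mem_coe.2 (sub_mem_sub (mem_image_of_mem _ hp.2.1) (mem_image_of_mem _ hp.2.2))
      · intro p hp p' hp' he
        rw [mem_coe, hP', mem_filter] at hp hp'
        refine hinj hp.1 hp'.1 ?_
        simp only at he ⊢
        rw [hab] at he
        refine mul_left_cancel₀ hb ?_
        linarith
    exact h4.trans (hcomb.trans (Nat.mul_le_mul_left _ ((card_le_card hYP).trans h2)))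
  -- conclusion
  have h20 : (12 : ℝ) * K ^ 2 ≤ 2 ^ 20 * K ^ 7 := by
    have : K ^ 2 ≤ K ^ 7 := pow_le_pow_right₀ hK1 (by norm_num)
    have h0 : 0 ≤ K ^ 7 := by positivity
    nlinarith
  have hfin : (M : ℝ) ≤ (2 ^ 20 * K ^ 7) ^ D := by
    have h4 : (M : ℝ) ^ 2 ≤ 12 * K ^ 2 * ((R : ℝ) ^ Cm * M) :=
      hpts.trans (mul_le_mul_of_nonneg_left (by exact_mod_cast hcomb2) hK2.le)
    have h5 : (M : ℝ) * M ≤ (12 * K ^ 2 * (R : ℝ) ^ Cm) * M := by nlinarith
    have h6 := le_of_mul_le_mul_right h5 hMR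
    rw [hD, pow_succ]
    calc (M : ℝ) ≤ 12 * K ^ 2 * (R : ℝ) ^ Cm := h6
      _ ≤ (2 ^ 20 * K ^ 7) * (2 ^ 20 * K ^ 7) ^ Cm :=
          mul_le_mul h20 (pow_le_pow_left₀ (Nat.cast_nonneg _) hR2 _) (by positivity)
            (by positivity)
      _ = _ := by ring
  have hreal : (M : ℝ) * (P.card : ℝ) ^ (7 * D) ≤ 2 ^ (20 * D) * (M : ℝ) ^ (14 * D) := by
    have h4 : (2 ^ 20 * K ^ 7) ^ D * (P.card : ℝ) ^ (7 * D) = 2 ^ (20 * D) * (M : ℝ) ^ (14 * D) := by
      have h5 : (M : ℝ) ^ (14 * D) = ((M : ℝ) ^ 2) ^ (7 * D) := by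
        rw [← pow_mul]
        congr 1
        ring
      rw [h5, hKN, mul_pow, mul_pow, ← pow_mul, ← pow_mul]
      ring
    rw [← h4]
    exact mul_le_mul_of_nonneg_right hfin (pow_nonneg hN0.le _)
  exact_mod_cast hreal

end Pool.Agent.Zk73.AK
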