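import Mathlib
import Pool.Agent.Zk73.AK.K

/-! # Pairs of slopes: upper bounds for the exponent -/

set_option autoImplicit false

open Finset
open scoped Pointwise

namespace Pool.Agent.Zk73.AK

open Pool.Agent.R470.AK (proj projInf big big_pos comb mem_comb)

lemma pow_of_comb {k : ℕ} (S : Finset ℚ) (s0 : ℚ) (x : Fin k → ℚ) (h0 : s0 ∈ S)
    (hx : ∀ i, s0 + x i ∈ S) (α β : ℚ) (hb : β ≠ 0) (hab : α = (s0 + 1) * β) (Cm : ℕ)
    (hcombG : ∀ (W Y : Finset ℚ) (R : ℕ), Small x W Y R →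
      ((W.image fun w => β * w) - (Y.image fun y => α * y)).card ≤ R ^ Cm * Y.card)
    (A : Finset (ℤ × ℤ)) (hA : A.Nonempty) (D : ℕ) (hD : D = Cm + 1) :
    (proj (-1) A).card ^ (7 * D) ≤ 2 ^ (20 * D) * (big S A) ^ (14 * D - 1) := by
  classical
  set M := big S A with hM
  have hM1 : 1 ≤ M := big_pos hA
  have hrep : ∀ v ∈ proj (-1) A, ∃ q : ℤ × ℤ, q ∈ A ∧ (q.1 : ℚ) + (-1) * (q.2 : ℚ) = v := by
    intro v hv
    obtain ⟨q, hq, e⟩ := mem_image.1 hv
    exact ⟨q, hq, e⟩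
  choose! g hg1 hg2 using hrep
  set pt : ℚ → ℚ × ℚ := fun v => (((g v).1 : ℚ) + s0 * ((g v).2 : ℚ), ((g v).2 : ℚ)) with hpt
  have hptv : ∀ v ∈ proj (-1) A, (pt v).1 - (s0 + 1) * (pt v).2 = v := by
    intro v hv
    have := hg2 v hv
    simp only [hpt]
    linarith
  set P := (proj (-1) A).image pt with hP
  have hinjv : Set.InjOn pt (proj (-1) A : Set ℚ) := by
    intro v hv v' hv' h
    rw [← hptv v hv, ← hptv v' hv', h]
  have hPc : P.card = (proj (-1) A).card := card_image_of_injOn hinjv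
  have hr : ∀ c : ℚ, (P.image fun p => p.1 + c * p.2) ⊆ proj (s0 + c) A := by
    intro c w hw
    obtain ⟨p, hp, rfl⟩ := mem_image.1 hw
    obtain ⟨v, hv, rfl⟩ := mem_image.1 hp
    refine mem_image.2 ⟨g v, hg1 v hv, ?_⟩
    simp only [hpt]
    ring
  have hmain := core x (s0 + 1) α β hb hab Cm hcombG P ((hA.image _).image _) M ?_ ?_ ?_ ?_ D hD
  · rw [hPc] at hmain
    have h1 : M ^ (14 * D) = M * M ^ (14 * D - 1) := by
      rw [← pow_succ']
      exact congrArg _ (by omega)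
    rw [h1, mul_left_comm] at hmain
    exact Nat.le_of_mul_le_mul_left hmain hM1
  · have h1 : P.image Prod.fst ⊆ proj s0 A := by
      have := hr 0
      rw [add_zero] at this
      refine subset_trans ?_ this
      intro w hw
      obtain ⟨p, hp, rfl⟩ := mem_image.1 hw
      exact mem_image.2 ⟨p, hp, by ring⟩
    exact (card_le_card h1).trans (proj_le_big h0 A)
  · have h1 : P.image Prod.snd ⊆ projInf A := by
      intro w hw
      obtain ⟨p, hp, rfl⟩ := mem_image.1 hw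
      obtain ⟨v, hv, rfl⟩ := mem_image.1 hp
      exact mem_image.2 ⟨g v, hg1 v hv, rfl⟩
    exact (card_le_card h1).trans (projInf_le_big _ A)
  · intro i
    exact (card_le_card (hr (x i))).trans (proj_le_big (hx i) A)
  · intro p hp p' hp' h
    obtain ⟨v, hv, rfl⟩ := mem_image.1 (mem_coe.1 hp)
    obtain ⟨v', hv', rfl⟩ := mem_image.1 (mem_coe.1 hp')
    simp only at h
    rw [hptv v hv, hptv v' hv'] at h
    rw [h]

lemma exponent_of_pow (S : Finset ℚ) (D : ℕ) (hD1 : 1 ≤ D)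
    (h : ∀ A : Finset (ℤ × ℤ), A.Nonempty →
      (proj (-1) A).card ^ (7 * D) ≤ 2 ^ (20 * D) * (big S A) ^ (14 * D - 1))
    (A : Finset (ℤ × ℤ)) (hA : A.Nonempty) :
    ((proj (-1) A).card : ℝ) ≤ (big S A : ℝ) ^ (2 - 1 / (7 * D : ℝ)) := by
  have hDR : (1 : ℝ) ≤ D := by exact_mod_cast hD1
  have hM1 : 1 ≤ big S A := big_pos hA
  set M := big S A with hM
  set N := (proj (-1) A).card with hN
  have hMR : (1 : ℝ) ≤ M := by exact_mod_cast hM1
  have hpow : N ^ (7 * D) ≤ M ^ (14 * D - 1) := by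
    refine tensor_trick (c := 2 ^ (20 * D)) (Nat.pow_pos hM1) fun t => ?_
    obtain ⟨B, hB, b1, b2, b3⟩ := prods (fun _ => A) t fun _ _ => hA
    simp only [prod_const, card_range] at b1 b2 b3
    have h1 := h B hB
    have h2 : big S B ≤ M ^ t := by
      refine max_le (b3.trans (Nat.pow_le_pow_left (projInf_le_big _ A) t))
        (Finset.sup_le fun r hr => ?_)
      exact (b2 r).trans (Nat.pow_le_pow_left (proj_le_big hr A) t)
    rw [b1] at h1
    calc (N ^ (7 * D)) ^ t = (N ^ t) ^ (7 * D) := by rw [← pow_mul, ← pow_mul, mul_comm]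
      _ ≤ 2 ^ (20 * D) * (big S B) ^ (14 * D - 1) := h1
      _ ≤ 2 ^ (20 * D) * (M ^ t) ^ (14 * D - 1) :=
          Nat.mul_le_mul_left _ (Nat.pow_le_pow_left h2 _)
      _ = 2 ^ (20 * D) * (M ^ (14 * D - 1)) ^ t := by
          rw [← pow_mul M t, ← pow_mul M (14 * D - 1), mul_comm t]
  have h7 : (0 : ℝ) < 7 * D := by positivity
  have hNR : (0 : ℝ) ≤ N := Nat.cast_nonneg _
  have h1 : (N : ℝ) ^ (7 * D) ≤ (M : ℝ) ^ (14 * D - 1) := by exact_mod_cast hpow
  have h2 : ((N : ℝ) ^ (7 * D)) ^ (1 / (7 * D : ℝ)) ≤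
      ((M : ℝ) ^ (14 * D - 1)) ^ (1 / (7 * D : ℝ)) :=
    Real.rpow_le_rpow (by positivity) h1 (by positivity)
  have h3 : ((N : ℝ) ^ (7 * D)) ^ (1 / (7 * D : ℝ)) = N := by
    rw [← Real.rpow_natCast, ← Real.rpow_mul hNR]
    have : ((7 * D : ℕ) : ℝ) * (1 / (7 * D : ℝ)) = 1 := by
      push_cast
      field_simp
    rw [this, Real.rpow_one]
  have h4 : ((M : ℝ) ^ (14 * D - 1)) ^ (1 / (7 * D : ℝ)) = (M : ℝ) ^ (2 - 1 / (7 * D : ℝ)) := by
    rw [← Real.rpow_natCast, ← Real.rpow_mul (by linarith)]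
    congr 1
    rw [Nat.cast_sub (by omega)]
    push_cast
    field_simp
    ring
  rw [h3, h4] at h2
  exact h2

/-! ### dilates by integers: logarithmic dependence -/

section
variable {k : ℕ} {x : Fin k → ℚ} {W Y : Finset ℚ} {R : ℕ}

lemma Small.card_BB (h : Small x W Y R) {j : Fin k} (hj : x j ≠ 0) (m n : ℕ) :
    (sm W m - sm W n).card ≤ R ^ (m + n) * Y.card := by
  have h0 := Finset.pluennecke_ruzsa_inequality_nsmul_sub_nsmul_add
    (A := Y.image fun y => x j * y) (h.hY.image _) W m n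
  have hYc : (Y.image fun y => x j * y).card = Y.card :=
    card_image_of_injective _ fun a b hab => mul_left_cancel₀ hj hab
  have hc0 : (0 : ℝ) < Y.card := by exact_mod_cast h.hY.card_pos
  have h6 : ((sm W m - sm W n).card : ℝ) ≤
      ((((Y.image fun y => x j * y) + W).card : ℝ) / Y.card) ^ (m + n) * Y.card := by
    have h7 : ((sm W m - sm W n).card : ℚ≥0) ≤ ((((Y.image fun y => x j * y) + W).card : ℚ≥0) /
        (Y.image fun y => x j * y).card) ^ (m + n) * (Y.image fun y => x j * y).card := h0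
    rw [hYc] at h7
    have h8 := (NNRat.cast_le (K := ℝ)).2 h7
    push_cast at h8
    exact h8
  have h9 : ((((Y.image fun y => x j * y) + W).card : ℝ) / Y.card) ≤ R := by
    rw [div_le_iff₀ hc0]
    exact_mod_cast h.h2 j
  have h10 : ((sm W m - sm W n).card : ℝ) ≤ (R : ℝ) ^ (m + n) * Y.card := by
    refine h6.trans ?_
    exact mul_le_mul_of_nonneg_right (pow_le_pow_left₀ (by positivity) h9 _) hc0.le
  exact_mod_cast h10

lemma sm_one (W : Finset ℚ) : sm W 1 = W := by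
  rw [← zero_add 1, sm_succ, sm_zero]
  exact zero_add W

lemma mem_BB_one {W : Finset ℚ} {a b : ℚ} (ha : a ∈ W) (hb : b ∈ W) : a - b ∈ BB W 1 :=
  mem_BB.2 ⟨a, by rw [sm_one]; exact ha, b, by rw [sm_one]; exact hb, rfl⟩

/-- `3 W - 3 W` is covered by translates of `W - W` -/
lemma Small.cover3 (h : Small x W Y R) {j : Fin k} (hj : x j ≠ 0) :
    ∃ F : Finset ℚ, F.card ≤ R ^ 8 ∧ ∀ v ∈ BB W 3, ∃ f ∈ F, ∃ u ∈ BB W 1, v = f + u := by
  have hYc : (Y.image fun y => x j * y).card = Y.card :=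
    card_image_of_injective _ fun a b hab => mul_left_cancel₀ hj hab
  have hYW : Y.card ≤ R * W.card := by
    calc Y.card = (Y.image fun y => x j * y).card := hYc.symm
      _ ≤ ((Y.image fun y => x j * y) + W).card := card_le_card_add_right h.hW
      _ ≤ _ := h.h1 j
  have h1 : (BB W 3 + W).card ≤ R ^ 8 * W.card := by
    have h2 : BB W 3 + W ⊆ sm W 4 - sm W 3 := by
      intro t ht
      obtain ⟨v, hv, w, hw, rfl⟩ := mem_add.1 ht
      obtain ⟨a, ha, b, hb, rfl⟩ := mem_BB.1 hv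
      refine mem_sub.2 ⟨a + w, ?_, b, hb, by ring⟩
      rw [sm_succ W 3]
      exact add_mem_add ha hw
    calc (BB W 3 + W).card ≤ (sm W 4 - sm W 3).card := card_le_card h2
      _ ≤ R ^ (4 + 3) * Y.card := h.card_BB hj 4 3
      _ ≤ R ^ (4 + 3) * (R * W.card) := Nat.mul_le_mul_left _ hYW
      _ = R ^ 8 * W.card := by ring
  obtain ⟨F, -, h3, h4⟩ := Finset.ruzsa_covering_add (A := BB W 3) (B := W) (K := (R ^ 8 : ℕ)) h.hW
    (by exact_mod_cast h1)
  refine ⟨F, by exact_mod_cast h3, fun v hv => ?_⟩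
  obtain ⟨f, hf, u, hu, e⟩ := mem_add.1 (h4 hv)
  obtain ⟨a, ha, b, hb, rfl⟩ := mem_sub.1 hu
  exact ⟨f, hf, a - b, mem_BB_one ha hb, e.symm⟩

/-- dilates by integers `< 2 ^ t` -/
lemma Small.dilate (h : Small x W Y R) {j : Fin k} (hj : x j ≠ 0) (t : ℕ) : ∀ a : ℕ, a < 2 ^ t →
    ∃ F : Finset ℚ, F.card ≤ R ^ (8 * t) ∧ ∀ w ∈ W, ∃ f ∈ F, ∃ u ∈ BB W 1, (a : ℚ) * w = f + u := by
  obtain ⟨F3, h1, h2⟩ := h.cover3 hj
  obtain ⟨w₀, hw₀⟩ := h.hW
  induction t with
  | zero =>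
    intro a ha
    have : a = 0 := by simpa using ha
    subst this
    exact ⟨{0}, by simp, fun w _ => ⟨0, mem_singleton_self 0, 0, BB_zero_mem h.hW 1, by simp⟩⟩
  | succ t ih =>
    intro a ha
    obtain ⟨F, h3, h4⟩ := ih (a / 2) (by rw [pow_succ] at ha; omega)
    have hε : a % 2 = 0 ∨ a % 2 = 1 := by omega
    have hae : (a : ℚ) = 2 * ((a / 2 : ℕ) : ℚ) + ((a % 2 : ℕ) : ℚ) := by
      have := Nat.div_add_mod a 2
      exact_mod_cast this.symm
    refine ⟨(F.image fun f => 2 * f + ((a % 2 : ℕ) : ℚ) * w₀) + F3, ?_, fun w hw => ?_⟩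
    · refine card_add_le.trans ?_
      calc (F.image fun f => 2 * f + ((a % 2 : ℕ) : ℚ) * w₀).card * F3.card
          ≤ R ^ (8 * t) * R ^ 8 := Nat.mul_le_mul (card_image_le.trans h3) h1
        _ = R ^ (8 * (t + 1)) := by rw [← pow_add]; congr 1
    · obtain ⟨f, hf, u, hu, e⟩ := h4 w hw
      have hv : 2 * u + ((a % 2 : ℕ) : ℚ) * (w - w₀) ∈ BB W 3 := by
        have h5 : (2 : ℚ) * u ∈ BB W (1 + 1) := by
          rw [two_mul]
          exact BB_add hu hu
        rcases hε with hε | hε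
        · rw [hε]
          have := BB_mono h.hW (by norm_num : 1 + 1 ≤ 3) h5
          simpa using this
        · rw [hε]
          have : (2 : ℚ) * u + (w - w₀) ∈ BB W (1 + 1 + 1) := BB_add h5 (mem_BB_one hw hw₀)
          simpa using this
      obtain ⟨f', hf', u', hu', e'⟩ := h2 _ hv
      refine ⟨_, add_mem_add (mem_image_of_mem _ hf) hf', u', hu', ?_⟩
      calc (a : ℚ) * w = 2 * (((a / 2 : ℕ) : ℚ) * w) + ((a % 2 : ℕ) : ℚ) * w := by rw [hae]; ring
        _ = (2 * f + ((a % 2 : ℕ) : ℚ) * w₀) + (2 * u + ((a % 2 : ℕ) : ℚ) * (w - w₀)) := by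
            rw [e]; ring
        _ = _ := by rw [e']; ring

lemma Small.dilateZ (h : Small x W Y R) {j : Fin k} (hj : x j ≠ 0) (t : ℕ) (a : ℤ)
    (ha : |a| < 2 ^ t) : ∃ F : Finset ℚ, F.card ≤ R ^ (8 * t) ∧
      ∀ w ∈ W, ∃ f ∈ F, ∃ u ∈ BB W 1, (a : ℚ) * w = f + u := by
  have hna : a.natAbs < 2 ^ t := by
    rw [Int.abs_eq_natAbs] at ha
    exact_mod_cast ha
  obtain ⟨F, h1, h2⟩ := h.dilate hj t a.natAbs hna
  rcases Int.natAbs_eq a with h3 | h3
  · refine ⟨F, h1, fun w hw => ?_⟩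
    obtain ⟨f, hf, u, hu, e⟩ := h2 w hw
    refine ⟨f, hf, u, hu, ?_⟩
    rw [← e, ← Int.cast_natCast, ← h3]
  · refine ⟨F.image fun f => -f, card_image_le.trans h1, fun w hw => ?_⟩
    obtain ⟨f, hf, u, hu, e⟩ := h2 w hw
    refine ⟨-f, mem_image_of_mem _ hf, -u, BB_neg hu, ?_⟩
    have h4 : (a : ℚ) = -((a.natAbs : ℕ) : ℚ) := by
      rw [← Int.cast_natCast]
      have : ((a.natAbs : ℕ) : ℤ) = -a := by omega
      rw [this]
      push_cast
      ring
    rw [h4]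
    linarith

/-- the number of the values of `b w - a x y` -/
lemma Small.card_pair (h : Small x W Y R) {j : Fin k} (hj : x j ≠ 0) (t : ℕ) (ht : 1 ≤ t) (a b : ℤ)
    (ha : |a| < 2 ^ t) (hb : |b| < 2 ^ t) :
    ((W.image fun w => (b : ℚ) * w) - (Y.image fun y => ((a : ℚ) * x j) * y)).card ≤
      R ^ (31 * t) * Y.card := by
  obtain ⟨Fa, a1, a2⟩ := h.dilateZ hj t a ha
  obtain ⟨Fb, b1, b2⟩ := h.dilateZ hj t b hb
  obtain ⟨F, c1, c2⟩ := h.cvY j
  rw [pow_one] at c1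
  set G : Finset ℚ := (Fb - (F.image fun f => (a : ℚ) * f)) - (Fa - Fa) with hG
  have hGc : G.card ≤ R ^ (24 * t + 1) := by
    calc G.card ≤ (Fb - (F.image fun f => (a : ℚ) * f)).card * (Fa - Fa).card := card_sub_le
      _ ≤ (Fb.card * (F.image fun f => (a : ℚ) * f).card) * (Fa.card * Fa.card) :=
          Nat.mul_le_mul card_sub_le card_sub_le
      _ ≤ (R ^ (8 * t) * R) * (R ^ (8 * t) * R ^ (8 * t)) :=
          Nat.mul_le_mul (Nat.mul_le_mul b1 (card_image_le.trans c1)) (Nat.mul_le_mul a1 a1)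
      _ = R ^ (24 * t + 1) := by ring
  have hsub : ((W.image fun w => (b : ℚ) * w) - (Y.image fun y => ((a : ℚ) * x j) * y)) ⊆
      G + BB W (1 + 1 + 1) := by
    intro s hs
    obtain ⟨p, hp, q, hq, rfl⟩ := mem_sub.1 hs
    obtain ⟨w, hw, rfl⟩ := mem_image.1 hp
    obtain ⟨y, hy, rfl⟩ := mem_image.1 hq
    obtain ⟨fb, hfb, ub, hub, eb⟩ := b2 w hw
    obtain ⟨f, hf, v, hv, e⟩ := c2 _ (mem_image_of_mem _ hy)
    obtain ⟨w1, hw1, w2, hw2, rfl⟩ := mem_BB.1 hv
    rw [sm_one] at hw1 hw2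
    obtain ⟨f1, hf1, u1, hu1, e1⟩ := a2 w1 hw1
    obtain ⟨f2, hf2, u2, hu2, e2⟩ := a2 w2 hw2
    refine mem_add.2 ⟨(fb - a * f) - (f1 - f2),
      sub_mem_sub (sub_mem_sub hfb (mem_image_of_mem _ hf)) (sub_mem_sub hf1 hf2),
      (ub + -u1) + u2, ?_, ?_⟩
    · exact BB_add (BB_add hub (BB_neg hu1)) hu2
    · have e3 : (a : ℚ) * x j * y = a * f + (a * w1 - a * w2) := by
        calc (a : ℚ) * x j * y = a * (x j * y) := by ring
          _ = _ := by rw [e]; ring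
      rw [eb, e3, e1, e2]
      ring
  have h3 : (BB W (1 + 1 + 1)).card ≤ R ^ 6 * Y.card := h.card_BB hj (1 + 1 + 1) (1 + 1 + 1)
  calc _ ≤ (G + BB W (1 + 1 + 1)).card := card_le_card hsub
    _ ≤ G.card * (BB W (1 + 1 + 1)).card := card_add_le
    _ ≤ R ^ (24 * t + 1) * (R ^ 6 * Y.card) := Nat.mul_le_mul hGc h3
    _ = R ^ (24 * t + 7) * Y.card := by rw [← mul_assoc, ← pow_add]
    _ ≤ R ^ (31 * t) * Y.card := Nat.mul_le_mul_right _ (Nat.pow_le_pow_right h.hR (by omega))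

end

/-- upper bound for the exponent of two slopes -/
theorem pair_upper (s0 s1 : ℚ) (a b : ℤ) (t : ℕ) (ht : 1 ≤ t) (ha : |a| < 2 ^ t) (hb : |b| < 2 ^ t)
    (hb0 : b ≠ 0) (h : (b : ℚ) * (s0 + 1) = a * (s1 - s0)) (A : Finset (ℤ × ℤ))
    (hA : A.Nonempty) :
    ((proj (-1) A).card : ℝ) ≤ (big {s0, s1} A : ℝ) ^ (2 - 1 / (224 * t : ℝ)) := by
  have hbQ : (b : ℚ) ≠ 0 := by exact_mod_cast hb0
  by_cases hs : s1 - s0 = 0
  · have h1 : s0 = -1 := by
      rw [hs, mul_zero] at h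
      rcases mul_eq_zero.1 h with h | h
      · exact absurd h hbQ
      · linarith
    have h2 : (proj (-1) A).card ≤ big {s0, s1} A := by
      rw [← h1]
      exact proj_le_big (mem_insert_self _ _) A
    have h3 : (1 : ℝ) ≤ big {s0, s1} A := by exact_mod_cast big_pos hA
    calc ((proj (-1) A).card : ℝ) ≤ big {s0, s1} A := by exact_mod_cast h2
      _ = (big {s0, s1} A : ℝ) ^ (1 : ℝ) := (Real.rpow_one _).symm
      _ ≤ _ := by
        refine Real.rpow_le_rpow_of_exponent_le h3 ?_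
        have h4 : (1 : ℝ) ≤ 224 * t := by
          have : (1 : ℝ) ≤ t := by exact_mod_cast ht
          linarith
        have h5 : 1 / (224 * t : ℝ) ≤ 1 := by
          rw [div_le_one (by linarith)]
          exact h4
        linarith
  · have h1 : ∀ A : Finset (ℤ × ℤ), A.Nonempty →
        (proj (-1) A).card ^ (7 * (31 * t + 1)) ≤
          2 ^ (20 * (31 * t + 1)) * (big {s0, s1} A) ^ (14 * (31 * t + 1) - 1) := by
      intro A hA
      exact pow_of_comb {s0, s1} s0 (fun _ : Fin 1 => s1 - s0) (mem_insert_self _ _)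
        (fun i => by simp) (a * (s1 - s0)) b hbQ (by rw [← h]; ring) (31 * t)
        (fun W Y R hS => hS.card_pair (j := 0) hs t ht a b ha hb) A hA (31 * t + 1) rfl
    have h2 := exponent_of_pow {s0, s1} (31 * t + 1) (by omega) h1 A hA
    have h3 : (1 : ℝ) ≤ big {s0, s1} A := by exact_mod_cast big_pos hA
    refine h2.trans (Real.rpow_le_rpow_of_exponent_le h3 ?_)
    have h4 : (1 : ℝ) ≤ t := by exact_mod_cast ht
    have h5 : 1 / (224 * t : ℝ) ≤ 1 / (7 * ((31 * t + 1 : ℕ) : ℝ)) := by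
      refine one_div_le_one_div_of_le (by positivity) ?_
      push_cast
      linarith
    linarith

end Pool.Agent.Zk73.AK
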