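import Mathlib
import Pool.Agent.Zk73.AK.L

/-! # Two slopes: the lower bound for the exponent -/

set_option autoImplicit false

open Finset

namespace Pool.Agent.Zk73.AK

open Pool.Agent.R470.AK (comb mem_comb proj projInf big int_points big_pos)

/-- the integers with `n` digits less than `m` in base `u` -/
def dg (u : ℤ) (m : ℕ) : ℕ → Finset ℤ
  | 0 => {0}
  | n + 1 => image₂ (fun (c : ℕ) (d : ℤ) => (c : ℤ) + u * d) (range m) (dg u m n)

lemma dg_zero (u : ℤ) (m : ℕ) : dg u m 0 = {0} := rfl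

lemma mem_dg_succ {u : ℤ} {m n : ℕ} {z : ℤ} :
    z ∈ dg u m (n + 1) ↔ ∃ c < m, ∃ d ∈ dg u m n, (c : ℤ) + u * d = z := by
  show z ∈ image₂ _ _ _ ↔ _
  simp only [mem_image₂, mem_range]

lemma dg_mono {u : ℤ} {m : ℕ} (hm : 0 < m) (n : ℕ) : dg u m n ⊆ dg u m (n + 1) := by
  induction n with
  | zero =>
    intro z hz
    rw [dg_zero, mem_singleton] at hz
    subst hz
    exact mem_dg_succ.2 ⟨0, hm, 0, by simp [dg_zero], by simp⟩
  | succ n ih =>
    intro z hz
    obtain ⟨c, hc, d, hd, rfl⟩ := mem_dg_succ.1 hz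
    exact mem_dg_succ.2 ⟨c, hc, d, ih hd, rfl⟩

lemma dg_shift {u : ℤ} {m : ℕ} (hm : 0 < m) {n : ℕ} {e : ℤ} (he : e ∈ dg u m n) :
    u * e ∈ dg u m (n + 1) := mem_dg_succ.2 ⟨0, hm, e, he, by simp⟩

lemma dg_add {u : ℤ} {m : ℕ} (hm : 0 < m) (n : ℕ) : ∀ d ∈ dg u m n, ∀ e ∈ dg u m n,
    d + e ∈ dg u (2 * m - 1) n := by
  induction n with
  | zero =>
    intro d hd e he
    rw [dg_zero, mem_singleton] at *
    subst hd he
    rfl
  | succ n ih =>
    intro d hd e he
    obtain ⟨c, hc, d, hd1, rfl⟩ := mem_dg_succ.1 hd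
    obtain ⟨c', hc', e, he1, rfl⟩ := mem_dg_succ.1 he
    refine mem_dg_succ.2 ⟨c + c', by omega, d + e, ih d hd1 e he1, ?_⟩
    push_cast
    ring

lemma dg_comb {u : ℤ} {m : ℕ} (hm : 0 < m) (n : ℕ) {d e : ℤ} (hd : d ∈ dg u m n)
    (he : e ∈ dg u m n) : d + u * e ∈ dg u (2 * m - 1) (n + 1) := by
  cases n with
  | zero =>
    rw [dg_zero, mem_singleton] at *
    subst hd he
    exact mem_dg_succ.2 ⟨0, by omega, 0, by simp [dg_zero], by simp⟩
  | succ n =>
    obtain ⟨c, hc, d, hd1, rfl⟩ := mem_dg_succ.1 hd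
    refine mem_dg_succ.2 ⟨c, by omega, d + e, dg_add hm _ d (dg_mono hm n hd1) e he, ?_⟩
    ring

lemma card_dg_le (u : ℤ) (m n : ℕ) : (dg u m n).card ≤ m ^ n := by
  induction n with
  | zero => simp [dg_zero]
  | succ n ih =>
    show (image₂ _ _ _).card ≤ _
    refine (card_image₂_le _ _ _).trans ?_
    rw [card_range, pow_succ']
    exact Nat.mul_le_mul_left m ih

lemma card_dg {u : ℤ} {m : ℕ} (hu : (m : ℤ) ≤ u) (hm : 0 < m) (n : ℕ) :
    (dg u m n).card = m ^ n := by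
  induction n with
  | zero => simp [dg_zero]
  | succ n ih =>
    show (image₂ _ _ _).card = _
    rw [card_image₂_iff.2, card_range, ih, pow_succ']
    rintro ⟨c, d⟩ h1 ⟨c', d'⟩ h2 he
    obtain ⟨hc, hd⟩ := h1
    obtain ⟨hc', hd'⟩ := h2
    simp only [coe_range, Set.mem_Iio] at hc hc'
    dsimp only at he
    have h3 : u ∣ (c : ℤ) - c' := ⟨d' - d, by linarith⟩
    have h4 : (c : ℤ) - c' = 0 := by
      refine Int.eq_zero_of_abs_lt_dvd h3 ?_
      rw [abs_lt]
      omega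
    have h5 : u * (d' - d) = 0 := by linarith
    have h6 : d' - d = 0 := (mul_eq_zero.1 h5).resolve_left (by omega)
    have h7 : c = c' := by omega
    have h8 : d = d' := by omega
    rw [h7, h8]

/-- there are no small relations between digits -/
lemma digit_rel {a b : ℤ} (hab : IsCoprime a b) {m : ℕ} (h : (m : ℤ) ≤ |a| ∨ (m : ℤ) ≤ |b|)
    {x y : ℤ} (hx : |x| < m) (hy : |y| < m) (he : b * x = a * y) : x = 0 ∧ y = 0 := by
  rcases h with h | h
  · have h1 : a ∣ x := hab.dvd_of_dvd_mul_left ⟨y, he⟩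
    have h2 : x = 0 := by
      refine Int.eq_zero_of_abs_lt_dvd ((abs_dvd a x).2 h1) (hx.trans_le h)
    rw [h2, mul_zero] at he
    have ha : a ≠ 0 := by
      rintro rfl
      have := abs_nonneg y
      rw [abs_zero] at h
      omega
    exact ⟨h2, (mul_eq_zero.1 he.symm).resolve_left ha⟩
  · have h1 : b ∣ y := hab.symm.dvd_of_dvd_mul_left ⟨x, he.symm⟩
    have h2 : y = 0 := by
      refine Int.eq_zero_of_abs_lt_dvd ((abs_dvd b y).2 h1) (hy.trans_le h)
    rw [h2, mul_zero] at he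
    have hb : b ≠ 0 := by
      rintro rfl
      have := abs_nonneg y
      rw [abs_zero] at h
      omega
    exact ⟨(mul_eq_zero.1 he).resolve_left hb, h2⟩

lemma dg_rel {a b : ℤ} (hab : IsCoprime a b) {m : ℕ} (h : (m : ℤ) ≤ |a| ∨ (m : ℤ) ≤ |b|)
    {u : ℤ} (hu : (|a| + |b|) * m < u) (n : ℕ) : ∀ d ∈ dg u m n, ∀ d' ∈ dg u m n, ∀ e ∈ dg u m n,
    ∀ e' ∈ dg u m n, b * (d - d') = a * (e - e') → d = d' ∧ e = e' := by
  have hu0 : 0 < u := lt_of_le_of_lt (by positivity) hu
  induction n with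
  | zero =>
    intro d hd d' hd' e he e' he' _
    rw [dg_zero, mem_singleton] at *
    subst hd hd' he he'
    exact ⟨rfl, rfl⟩
  | succ n ih =>
    intro d hd d' hd' e he e' he' heq
    obtain ⟨c1, hc1, d, hd1, rfl⟩ := mem_dg_succ.1 hd
    obtain ⟨c2, hc2, d', hd1', rfl⟩ := mem_dg_succ.1 hd'
    obtain ⟨c3, hc3, e, he1, rfl⟩ := mem_dg_succ.1 he
    obtain ⟨c4, hc4, e', he1', rfl⟩ := mem_dg_succ.1 he'
    have hx : |(c1 : ℤ) - c2| < m := by rw [abs_lt]; omega
    have hy : |(c3 : ℤ) - c4| < m := by rw [abs_lt]; omega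
    have h1 : b * ((c1 : ℤ) - c2) - a * (c3 - c4) = 0 := by
      refine Int.eq_zero_of_abs_lt_dvd (m := u) ⟨a * (e - e') - b * (d - d'), by linarith⟩ ?_
      calc |b * ((c1 : ℤ) - c2) - a * (c3 - c4)| ≤ |b * ((c1 : ℤ) - c2)| + |a * (c3 - c4)| :=
            abs_sub _ _
        _ = |b| * |(c1 : ℤ) - c2| + |a| * |(c3 : ℤ) - c4| := by rw [abs_mul, abs_mul]
        _ ≤ |b| * m + |a| * m := add_le_add (mul_le_mul_of_nonneg_left hx.le (abs_nonneg _))
            (mul_le_mul_of_nonneg_left hy.le (abs_nonneg _))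
        _ = (|a| + |b|) * m := by ring
        _ < u := hu
    obtain ⟨h2, h3⟩ := digit_rel hab h hx hy (by linarith)
    have h4 : u * (b * (d - d') - a * (e - e')) = 0 := by
      have : u * (b * (d - d') - a * (e - e')) = (b * ((c1 + u * d) - (c2 + u * d')) -
        a * ((c3 + u * e) - (c4 + u * e'))) - (b * ((c1 : ℤ) - c2) - a * (c3 - c4)) := by ring
      rw [this, h1, heq]
      ring
    have h5 := (mul_eq_zero.1 h4).resolve_left hu0.ne'
    obtain ⟨h6, h7⟩ := ih d hd1 d' hd1' e he1 e' he1' (by linarith)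
    refine ⟨?_, ?_⟩
    · rw [h6]
      linarith
    · rw [h7]
      linarith

/-- the points -/
lemma points2 (s0 s1 : ℚ) (hs : s0 ≠ s1) (a b : ℤ) (hab : IsCoprime a b)
    (h : (b : ℚ) * (s0 + 1) = a * (s1 - s0)) (m : ℕ) (hm : 0 < m)
    (hH : (m : ℤ) ≤ |a| ∨ (m : ℤ) ≤ |b|) (n : ℕ) : ∃ A : Finset (ℤ × ℤ), A.Nonempty ∧
      (proj (-1) A).card = (m ^ n) ^ 2 ∧ big {s0, s1} A ≤ (2 * m - 1) ^ (n + 1) := by
  classical
  set u : ℤ := (|a| + |b|) * m + 1 with hu
  have hab1 : 1 ≤ |a| + |b| := by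
    rcases hH with h | h
    · have := abs_nonneg b; omega
    · have := abs_nonneg a; omega
  have hmu : (m : ℤ) ≤ u := by
    rw [hu]
    nlinarith
  have hb0 : (b : ℚ) ≠ 0 ∨ (a : ℚ) ≠ 0 := by
    by_contra hcon
    push Not at hcon
    obtain ⟨h1, h2⟩ := hcon
    have h1' : b = 0 := by exact_mod_cast h1
    have h2' : a = 0 := by exact_mod_cast h2
    rw [h1', h2'] at hab1
    simp at hab1
  have hd : s1 - s0 ≠ 0 := sub_ne_zero.2 hs.symm
  have hb : (b : ℚ) ≠ 0 := by
    intro h0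
    rw [h0, zero_mul] at h
    rcases mul_eq_zero.1 h.symm with h1 | h1
    · rcases hb0 with h2 | h2
      · exact h2 h0
      · exact h2 h1
    · exact hd h1
  set c : ℚ := u / (s1 - s0) with hc
  set D : Finset ℚ := (dg u m n).image fun z : ℤ => (z : ℚ) with hD
  have hDc : D.card = m ^ n := by
    rw [hD, card_image_of_injective _ Int.cast_injective, card_dg hmu hm]
  have hDne : D.Nonempty := card_pos.1 (by rw [hDc]; positivity)
  have hle : m ^ n ≤ (2 * m - 1) ^ (n + 1) := by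
    calc m ^ n ≤ (2 * m - 1) ^ n := Nat.pow_le_pow_left (by omega) n
      _ ≤ _ := Nat.pow_le_pow_right (by omega) (by omega)
  set B : Finset (ℚ × ℚ) := (D ×ˢ D).image fun p => (p.1 - s0 * (c * p.2), c * p.2) with hB
  obtain ⟨A, hA0, hA1, hA2⟩ := int_points B
  have hBr : ∀ r : ℚ, (B.image fun p => p.1 + r * p.2) = comb ((r - s0) * c) D D := by
    intro r
    rw [hB, image_image]
    ext w
    rw [mem_comb, mem_image]
    constructor
    · rintro ⟨p, hp, rfl⟩
      rw [mem_product] at hp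
      exact ⟨p.1, hp.1, p.2, hp.2, by simp only [Function.comp]; ring⟩
    · rintro ⟨x, hx, y, hy, rfl⟩
      exact ⟨(x, y), mem_product.2 ⟨hx, hy⟩, by simp only [Function.comp]; ring⟩
  refine ⟨A, hA0 ((hDne.product hDne).image _), ?_, ?_⟩
  · rw [hA1, hBr, comb, card_image₂_iff.2, hDc, sq]
    rintro ⟨w, v⟩ h1 ⟨w', v'⟩ h2 he
    obtain ⟨hw, hv⟩ := h1
    obtain ⟨hw', hv'⟩ := h2
    obtain ⟨d, hd, rfl⟩ := mem_image.1 (mem_coe.1 hw)
    obtain ⟨e, he1, rfl⟩ := mem_image.1 (mem_coe.1 hv)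
    obtain ⟨d', hd', rfl⟩ := mem_image.1 (mem_coe.1 hw')
    obtain ⟨e', he1', rfl⟩ := mem_image.1 (mem_coe.1 hv')
    dsimp only at he
    have hc1 : (s1 - s0) * c = u := by
      rw [hc]
      field_simp
    have h3 : (b : ℚ) * (d - d') = a * (u * e - u * e') := by
      have h4 : (d : ℚ) - d' = (s0 + 1) * c * (e - e') := by linarith
      rw [h4, ← hc1]
      calc (b : ℚ) * ((s0 + 1) * c * (e - e')) = (b * (s0 + 1)) * (c * (e - e')) := by ring
        _ = (a * (s1 - s0)) * (c * (e - e')) := by rw [h]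
        _ = _ := by ring
    have h5 : b * (d - d') = a * (u * e - u * e') := by exact_mod_cast h3
    obtain ⟨h6, h7⟩ := dg_rel hab hH (u := u) (by rw [hu]; omega) (n + 1) d (dg_mono hm n hd) d'
      (dg_mono hm n hd') _ (dg_shift hm he1) _ (dg_shift hm he1') h5
    have hu0 : 0 < u := by
      have : (0 : ℤ) < m := by exact_mod_cast hm
      omega
    have h8 : e = e' := mul_left_cancel₀ hu0.ne' h7
    rw [h6, h8]
  · refine max_le ?_ (Finset.sup_le fun r hr => ?_)
    · rw [hA2, hB, image_image]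
      refine le_trans ?_ hle
      rw [← hDc]
      calc ((D ×ˢ D).image ((fun p : ℚ × ℚ => p.2) ∘
              fun p => (p.1 - s0 * (c * p.2), c * p.2))).card
          ≤ (D.image fun y => c * y).card := by
            refine card_le_card fun w hw => ?_
            obtain ⟨p, hp, rfl⟩ := mem_image.1 hw
            exact mem_image.2 ⟨p.2, (mem_product.1 hp).2, rfl⟩
        _ ≤ D.card := card_image_le
    · rw [hA1, hBr]
      rw [mem_insert, mem_singleton] at hr
      rcases hr with rfl | rfl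
      · refine le_trans ?_ hle
        rw [← hDc]
        have : (r - r) * c = 0 := by ring
        rw [this]
        refine card_le_card fun w hw => ?_
        obtain ⟨x, hx, y, _, rfl⟩ := mem_comb.1 hw
        rw [zero_mul, add_zero]
        exact hx
      · have : (r - s0) * c = u := by
          rw [hc]
          field_simp
        rw [this]
        refine le_trans ?_ (card_dg_le u (2 * m - 1) (n + 1))
        refine le_trans (card_le_card (t := (dg u (2 * m - 1) (n + 1)).image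
          fun z : ℤ => (z : ℚ)) fun w hw => ?_) card_image_le
        obtain ⟨x, hx, y, hy, rfl⟩ := mem_comb.1 hw
        obtain ⟨d, hd, rfl⟩ := mem_image.1 hx
        obtain ⟨e, he, rfl⟩ := mem_image.1 hy
        refine mem_image.2 ⟨d + u * e, dg_comb hm n hd he, ?_⟩
        push_cast
        ring

/-- lower bound for the exponent of two slopes -/
theorem pair_lower (s0 s1 : ℚ) (hs : s0 ≠ s1) (a b : ℤ) (hab : IsCoprime a b)
    (h : (b : ℚ) * (s0 + 1) = a * (s1 - s0)) (m : ℕ) (hm : 2 ≤ m)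
    (hH : (m : ℤ) ≤ |a| ∨ (m : ℤ) ≤ |b|) (κ : ℝ) (hκ : Useful κ {s0, s1}) :
    2 * Real.log m ≤ κ * Real.log (2 * m - 1) := by
  by_contra hcon
  push Not at hcon
  obtain ⟨C, hC⟩ := hκ
  have hmR : (2 : ℝ) ≤ m := by exact_mod_cast hm
  set q : ℝ := 2 * m - 1 with hq
  have hq3 : 3 ≤ q := by rw [hq]; linarith
  have hq0 : 0 < q := by linarith
  set κ' : ℝ := max κ 0 with hκ'
  have hκ0 : 0 ≤ κ' := le_max_right _ _
  have hlq : 0 < Real.log q := Real.log_pos (by linarith)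
  have hlm : 0 < Real.log m := Real.log_pos (by linarith)
  have hcon' : κ' * Real.log q < 2 * Real.log m := by
    rcases le_total κ 0 with h0 | h0
    · rw [hκ', max_eq_right h0, zero_mul]
      linarith
    · rw [hκ', max_eq_left h0]
      exact hcon
  -- for all `n`, `m ^ (2 n) ≤ C q ^ (κ' (n + 1))`
  have key : ∀ n : ℕ, ((m : ℝ) ^ n) ^ 2 ≤ |C| * (q ^ κ') ^ (n + 1) := by
    intro n
    obtain ⟨A, hA, h1, h2⟩ := points2 s0 s1 hs a b hab h m (by omega) hH n
    have h3 := hC A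
    rw [h1] at h3
    push_cast at h3
    have h4 : (1 : ℝ) ≤ big {s0, s1} A := by exact_mod_cast big_pos hA
    have h5 : (big {s0, s1} A : ℝ) ≤ q ^ (n + 1) := by
      have : ((big {s0, s1} A : ℕ) : ℝ) ≤ (((2 * m - 1) ^ (n + 1) : ℕ) : ℝ) := by exact_mod_cast h2
      rw [Nat.cast_pow, Nat.cast_sub (by omega)] at this
      push_cast at this
      exact this
    calc ((m : ℝ) ^ n) ^ 2 ≤ C * (big {s0, s1} A : ℝ) ^ κ := h3
      _ ≤ |C| * (big {s0, s1} A : ℝ) ^ κ :=
          mul_le_mul_of_nonneg_right (le_abs_self C) (by positivity)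
      _ ≤ |C| * (big {s0, s1} A : ℝ) ^ κ' := mul_le_mul_of_nonneg_left
          (Real.rpow_le_rpow_of_exponent_le h4 (le_max_left _ _)) (abs_nonneg C)
      _ ≤ |C| * (q ^ (n + 1)) ^ κ' := mul_le_mul_of_nonneg_left
          (Real.rpow_le_rpow (by linarith) h5 hκ0) (abs_nonneg C)
      _ = |C| * (q ^ κ') ^ (n + 1) := by
          rw [← Real.rpow_natCast, ← Real.rpow_natCast, ← Real.rpow_mul hq0.le,
            ← Real.rpow_mul hq0.le, mul_comm κ']
  have hqκ : 0 < q ^ κ' := Real.rpow_pos_of_pos hq0 _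
  set ρ : ℝ := (m : ℝ) ^ 2 / q ^ κ' with hρ
  have hρ1 : 1 < ρ := by
    rw [hρ, one_lt_div hqκ, ← Real.log_lt_log_iff hqκ (by positivity), Real.log_rpow hq0,
      Real.log_pow]
    push_cast
    exact hcon'
  have hgr := tendsto_pow_atTop_atTop_of_one_lt hρ1
  obtain ⟨n, hn⟩ := (hgr.eventually (Filter.eventually_gt_atTop (|C| * q ^ κ'))).exists
  have h1 := key n
  have h2 : ρ ^ n * (q ^ κ') ^ n = ((m : ℝ) ^ n) ^ 2 := by
    rw [← mul_pow, hρ, div_mul_cancel₀ _ hqκ.ne', ← pow_mul, ← pow_mul, mul_comm]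
  rw [← h2, pow_succ, ← mul_assoc, mul_right_comm] at h1
  have h3 := le_of_mul_le_mul_right h1 (pow_pos hqκ n)
  linarith

end Pool.Agent.Zk73.AK
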